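import Pool.Agent.Work.MP_e5ffe1_lc_helper93.Comp

/-!
Calculus of predicates which are given by the members of a family of sets of natural numbers.
`Idl S`: closed under joins and Turing reducibility. `Cl S`: also under projections.
`PS S p`: the predicate `p` on a `Primcodable` type is given by a member of `S`.
-/

set_option autoImplicit false

namespace Pool.Agent.Work.MP_e5ffe1_gen

open Pool.Agent.Work.MP_e5ffe1_h93 (le J TR orc ch ch_of_mem ch_of_notMem le_iff orc_self le_refl'
  le_trans' le_J_left le_J_right two_mul_mem_J two_mul_add_one_mem_J)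
open Encodable

/-- closed under joins and Turing reducibility -/
structure Idl (S : Set (Set ℕ)) : Prop where
  ne : S.Nonempty
  tr : ∀ X ∈ S, ∀ Y, le Y X → Y ∈ S
  join : ∀ X ∈ S, ∀ Y ∈ S, J X Y ∈ S

/-- closed under joins, Turing reducibility and projections -/
structure Cl (S : Set (Set ℕ)) : Prop extends Idl S where
  proj : ∀ X ∈ S, {m | ∃ n, Nat.pair m n ∈ X} ∈ S

/-- `p` is given by a member of `S` -/
def PS (S : Set (Set ℕ)) {α : Type} [Primcodable α] (p : α → Prop) : Prop :=
  ∃ X ∈ S, ∀ x : α, p x ↔ encode x ∈ X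

theorem TR_of_computable {O : Set (ℕ →. ℕ)} {f : ℕ → ℕ} (hf : Computable f) : TR O f := by
  have h1 : Partrec (fun n => Part.some (f n)) := hf
  exact (Partrec.nat_iff.1 h1).recursiveIn

theorem TR_find {O : Set (ℕ →. ℕ)} {f : ℕ → ℕ} (hf : TR O f)
    (h : ∀ a, ∃ n, f (Nat.pair a n) = 0) : TR O (fun a => Nat.find (h a)) := by
  refine (Nat.RecursiveIn.rfind hf).of_eq (fun a => ?_)
  rw [Part.eq_some_iff]
  refine Nat.mem_rfind.2 ⟨?_, ?_⟩
  · simp only [Part.map_eq_map, Part.map_some, Part.mem_some_iff]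
    symm
    exact decide_eq_true (Nat.find_spec (h a))
  · intro m hm
    simp only [Part.map_eq_map, Part.map_some, Part.mem_some_iff]
    symm
    exact decide_eq_false (Nat.find_min (h a) hm)

/-- the function on codes of a function between coded types -/
def cf {α β : Type} [Primcodable α] [Primcodable β] (f : β → α) (n : ℕ) : ℕ :=
  ((decode n : Option β).map (fun b => encode (f b))).getD 0

theorem cf_encode {α β : Type} [Primcodable α] [Primcodable β] (f : β → α) (b : β) :
    cf f (encode b) = encode (f b) := by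
  simp [cf]

theorem cf_computable {α β : Type} [Primcodable α] [Primcodable β] {f : β → α}
    (hf : Computable f) : Computable (cf f) := by
  unfold cf
  exact (Computable.option_map Computable.decode
    ((Computable.encode.comp (hf.comp Computable.snd)).to₂)).option_getD (Computable.const 0)

/-- is a code -/
theorem code_iff {α : Type} [Primcodable α] (n : ℕ) :
    ((decode n : Option α).map encode) = some n ↔ ∃ x : α, encode x = n := by
  constructor
  · intro h
    rw [Option.map_eq_some_iff] at h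
    obtain ⟨x, _, h2⟩ := h
    exact ⟨x, h2⟩
  · rintro ⟨x, rfl⟩
    rw [encodek]
    rfl

theorem code_primrec (α : Type) [Primcodable α] :
    PrimrecPred (fun n : ℕ => ((decode n : Option α).map encode) = some n) :=
  PrimrecRel.comp Primrec.eq
    (Primrec.option_map Primrec.decode (Primrec.encode.comp Primrec.snd).to₂) Primrec.option_some

variable {S : Set (Set ℕ)} {α β : Type} [Primcodable α] [Primcodable β]

namespace PS

/-- the general criterion -/
theorem of_TR (hS : Idl S) {X : Set ℕ} (hX : X ∈ S) {f : ℕ → ℕ} (hf : TR (orc X) f)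
    {p : α → Prop} (h : ∀ x, p x ↔ f (encode x) = 1) : PS S p := by
  refine ⟨{n | f n = 1}, hS.tr X hX _ ?_, h⟩
  rw [le_iff]
  have h1 : TR (orc X) (fun n => if n = 1 then 1 else 0) := TR_of_computable (by
    have : Primrec (fun n : ℕ => if n = 1 then 1 else 0) :=
      Primrec.ite (PrimrecRel.comp Primrec.eq Primrec.id (Primrec.const 1)) (Primrec.const 1)
        (Primrec.const 0)
    exact this.to_comp)
  refine (h1.comp hf).of_eq (fun n => ?_)
  by_cases h2 : f n = 1
  · rw [if_pos h2, ch_of_mem (show n ∈ {n | f n = 1} from h2)]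
  · rw [if_neg h2, ch_of_notMem (show n ∉ {n | f n = 1} from h2)]

theorem congr {p q : α → Prop} (h : PS S p) (hpq : ∀ x, q x ↔ p x) : PS S q := by
  obtain ⟨X, hX, h1⟩ := h
  exact ⟨X, hX, fun x => (hpq x).trans (h1 x)⟩

theorem mono {S' : Set (Set ℕ)} (hSS : S ⊆ S') {p : α → Prop} (h : PS S p) : PS S' p := by
  obtain ⟨X, hX, h1⟩ := h
  exact ⟨X, hSS hX, h1⟩

theorem mem {X : Set ℕ} (hX : X ∈ S) : PS S (fun n : ℕ => n ∈ X) := ⟨X, hX, fun _ => Iff.rfl⟩

/-- members of `S`, from predicates -/
theorem toSet (hS : Idl S) {p : ℕ → Prop} (h : PS S p) : {n | p n} ∈ S := by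
  obtain ⟨X, hX, h1⟩ := h
  have : {n | p n} = X := by
    ext n
    exact h1 n
  rw [this]
  exact hX

theorem comp (hS : Idl S) {p : α → Prop} (h : PS S p) {f : β → α} (hf : Computable f) :
    PS S (fun x => p (f x)) := by
  obtain ⟨X, hX, h1⟩ := h
  have h2 : TR (orc X) (fun n => ch X (cf f n)) := (orc_self X).comp (TR_of_computable (cf_computable hf))
  refine of_TR hS hX h2 (fun x => ?_)
  rw [cf_encode, h1]
  by_cases h3 : encode (f x) ∈ X
  · rw [ch_of_mem h3]
    exact ⟨fun _ => rfl, fun _ => h3⟩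
  · rw [ch_of_notMem h3]
    exact ⟨fun h4 => absurd h4 h3, fun h4 => absurd h4 (by norm_num)⟩

theorem not (hS : Idl S) {p : α → Prop} (h : PS S p) : PS S (fun x => ¬ p x) := by
  obtain ⟨X, hX, h1⟩ := h
  have h0 : TR (orc X) (fun n => 1 - n) := TR_of_computable
    (Primrec.nat_sub.comp (Primrec.const 1) Primrec.id).to_comp
  refine of_TR hS hX (h0.comp (orc_self X)) (fun x => ?_)
  rw [h1]
  by_cases h3 : encode x ∈ X
  · rw [ch_of_mem h3]
    exact ⟨fun h4 => absurd h3 h4, fun h4 => absurd h4 (by norm_num)⟩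
  · rw [ch_of_notMem h3]
    exact ⟨fun _ => rfl, fun _ => h3⟩

theorem and (hS : Idl S) {p q : α → Prop} (h : PS S p) (h' : PS S q) :
    PS S (fun x => p x ∧ q x) := by
  obtain ⟨X, hX, h1⟩ := h
  obtain ⟨Y, hY, h2⟩ := h'
  have hX' : TR (orc (J X Y)) (ch X) := le_iff.1 (le_J_left X Y)
  have hY' : TR (orc (J X Y)) (ch Y) := le_iff.1 (le_J_right X Y)
  have hm : TR (orc (J X Y)) (fun n => (Nat.unpair n).1 * (Nat.unpair n).2) := TR_of_computable
    (Primrec.nat_mul.comp (Primrec.fst.comp Primrec.unpair) (Primrec.snd.comp Primrec.unpair)).to_comp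
  refine of_TR hS (hS.join X hX Y hY) (hm.comp (hX'.pair hY')) (fun x => ?_)
  rw [h1, h2, Nat.unpair_pair]
  dsimp only
  by_cases h3 : encode x ∈ X
  · by_cases h4 : encode x ∈ Y
    · rw [ch_of_mem h3, ch_of_mem h4]
      exact ⟨fun _ => rfl, fun _ => ⟨h3, h4⟩⟩
    · rw [ch_of_notMem h4]
      exact ⟨fun h => absurd h.2 h4, fun h => absurd h (by simp)⟩
  · rw [ch_of_notMem h3]
    exact ⟨fun h => absurd h.1 h3, fun h => absurd h (by simp)⟩

theorem or (hS : Idl S) {p q : α → Prop} (h : PS S p) (h' : PS S q) :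
    PS S (fun x => p x ∨ q x) :=
  (not hS (and hS (not hS h) (not hS h'))).congr (fun x => by tauto)

theorem imp (hS : Idl S) {p q : α → Prop} (h : PS S p) (h' : PS S q) :
    PS S (fun x => p x → q x) :=
  (or hS (not hS h) h').congr (fun x => by tauto)

theorem iff (hS : Idl S) {p q : α → Prop} (h : PS S p) (h' : PS S q) :
    PS S (fun x => p x ↔ q x) :=
  (and hS (imp hS h h') (imp hS h' h)).congr (fun x => by tauto)

/-- computable predicates -/
theorem computable (hS : Idl S) {f : α → Bool} (hf : Computable f) : PS S (fun x => f x = true) := by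
  obtain ⟨X, hX⟩ := hS.ne
  have h1 : Computable (cf f) := cf_computable hf
  refine of_TR hS hX (TR_of_computable h1) (fun x => ?_)
  rw [cf_encode]
  cases f x <;> simp

theorem primrec (hS : Idl S) {p : α → Prop} (hp : PrimrecPred p) : PS S p := by
  obtain ⟨hd, h⟩ := hp
  exact (computable hS h.to_comp).congr (fun x => by simp)

theorem const (hS : Idl S) (p : Prop) : PS S (fun _ : α => p) := by
  by_cases hp : p
  · exact (computable hS (Computable.const true)).congr (fun x => by simp [hp])
  · exact (computable hS (Computable.const false)).congr (fun x => by simp [hp])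

/-- equality of two computable functions -/
theorem eq (hS : Idl S) {f g : α → β} (hf : Computable f) (hg : Computable g) :
    PS S (fun x => f x = g x) := by
  classical
  have h1 : PS S (fun x : β × β => x.1 = x.2) :=
    primrec hS (PrimrecRel.comp Primrec.eq Primrec.fst Primrec.snd)
  exact comp hS h1 (hf.pair hg)

/-- substitution of the least witness -/
theorem mu (hS : Idl S) {p q : α → ℕ → Prop} [∀ x, DecidablePred (p x)]
    (hp : PS S (fun x : α × ℕ => p x.1 x.2)) (hq : PS S (fun x : α × ℕ => q x.1 x.2))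
    (h : ∀ x, ∃ n, p x n) : PS S (fun x => q x (Nat.find (h x))) := by
  classical
  obtain ⟨X, hX, h1⟩ := hp
  obtain ⟨Y, hY, h2⟩ := hq
  let O := orc (J X Y)
  have hX' : TR O (ch X) := le_iff.1 (le_J_left X Y)
  have hY' : TR O (ch Y) := le_iff.1 (le_J_right X Y)
  -- junk codes
  let dd : ℕ → ℕ := fun n => if ((decode n : Option α).map encode) = some n then 1 else 0
  have hdd : TR O dd := TR_of_computable (by
    have : Primrec dd := Primrec.ite (code_primrec α) (Primrec.const 1) (Primrec.const 0)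
    exact this.to_comp)
  -- `0` if good
  let F : ℕ → ℕ := fun n => dd (Nat.unpair n).1 * (1 - ch X n)
  have hF : TR O F := by
    have hm : TR O (fun n => (Nat.unpair n).1 * (1 - (Nat.unpair n).2)) := TR_of_computable
      (Primrec.nat_mul.comp (Primrec.fst.comp Primrec.unpair)
        (Primrec.nat_sub.comp (Primrec.const 1) (Primrec.snd.comp Primrec.unpair))).to_comp
    refine (hm.comp ((hdd.comp TR.left).pair hX')).of_eq (fun n => ?_)
    rw [Nat.unpair_pair]
  have hFe : ∀ (x : α) (n : ℕ), F (Nat.pair (encode x) n) = 0 ↔ p x n := by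
    intro x n
    have e1 : dd (encode x) = 1 := if_pos ((code_iff _).2 ⟨x, rfl⟩)
    have e2 : encode (x, n) = Nat.pair (encode x) n := rfl
    simp only [F, Nat.unpair_pair, e1, one_mul]
    have h3 := h1 (x, n)
    rw [e2] at h3
    by_cases h4 : Nat.pair (encode x) n ∈ X
    · rw [ch_of_mem h4]
      exact ⟨fun _ => h3.2 h4, fun _ => rfl⟩
    · rw [ch_of_notMem h4]
      exact ⟨fun h5 => absurd h5 (by norm_num), fun h5 => absurd (h3.1 h5) h4⟩
  have hex : ∀ a, ∃ n, F (Nat.pair a n) = 0 := by
    intro a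
    by_cases h3 : ((decode a : Option α).map encode) = some a
    · obtain ⟨x, h4⟩ := (code_iff a).1 h3
      obtain ⟨n, hn⟩ := h x
      exact ⟨n, by rw [← h4]; exact (hFe x n).2 hn⟩
    · refine ⟨0, ?_⟩
      have : dd a = 0 := if_neg h3
      simp only [F, Nat.unpair_pair, this, zero_mul]
  have hfind := TR_find hF hex
  refine of_TR hS (hS.join X hX Y hY) (hY'.comp (TR.id.pair hfind)) (fun x => ?_)
  have e3 : Nat.find (hex (encode x)) = Nat.find (h x) := by
    apply le_antisymm
    · exact Nat.find_min' _ ((hFe x _).2 (Nat.find_spec (h x)))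
    · exact Nat.find_min' _ ((hFe x _).1 (Nat.find_spec (hex (encode x))))
  rw [e3]
  have h5 := h2 (x, Nat.find (h x))
  have e2 : encode (x, Nat.find (h x)) = Nat.pair (encode x) (Nat.find (h x)) := rfl
  rw [e2] at h5
  dsimp only at h5
  rw [h5]
  by_cases h6 : Nat.pair (encode x) (Nat.find (h x)) ∈ Y
  · rw [ch_of_mem h6]
    exact ⟨fun _ => rfl, fun _ => h6⟩
  · rw [ch_of_notMem h6]
    exact ⟨fun h4 => absurd h4 h6, fun h4 => absurd h4 (by norm_num)⟩

/-- bounded quantifiers -/
theorem ball (hS : Idl S) {p : α → ℕ → Prop} (hp : PS S (fun x : α × ℕ => p x.1 x.2)) {f : α → ℕ}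
    (hf : Computable f) : PS S (fun x => ∀ n < f x, p x n) := by
  classical
  have hex : ∀ x : α, ∃ n, f x ≤ n ∨ ¬ p x n := fun x => ⟨f x, Or.inl le_rfl⟩
  have h1 : PS S (fun x : α × ℕ => f x.1 ≤ x.2) := by
    have h2 : PS S (fun x : ℕ × ℕ => x.1 ≤ x.2) :=
      primrec hS (PrimrecRel.comp Primrec.nat_le Primrec.fst Primrec.snd)
    exact comp hS h2 ((hf.comp Computable.fst).pair Computable.snd)
  have h2 := mu hS (p := fun x n => f x ≤ n ∨ ¬ p x n) (q := fun x n => f x ≤ n)
    (or hS h1 (not hS hp)) h1 hex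
  refine h2.congr (fun x => ?_)
  constructor
  · intro h
    by_contra hlt
    have h3 := Nat.find_spec (hex x)
    rcases h3 with h3 | h3
    · exact hlt h3
    · exact h3 (h _ (not_le.1 hlt))
  · intro h n hn
    by_contra h3
    have h4 : Nat.find (hex x) ≤ n := Nat.find_min' _ (Or.inr h3)
    omega

theorem bex (hS : Idl S) {p : α → ℕ → Prop} (hp : PS S (fun x : α × ℕ => p x.1 x.2)) {f : α → ℕ}
    (hf : Computable f) : PS S (fun x => ∃ n < f x, p x n) :=
  (not hS (ball hS (p := fun x n => ¬ p x n) (not hS hp) hf)).congr (fun x => by push Not; rfl)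

/-- the existential quantifier over natural numbers -/
theorem exN (hS : Cl S) {p : α → ℕ → Prop} (hp : PS S (fun x : α × ℕ => p x.1 x.2)) :
    PS S (fun x => ∃ n, p x n) := by
  obtain ⟨X, hX, h1⟩ := hp
  exact ⟨_, hS.proj X hX, fun x => ⟨fun ⟨n, hn⟩ => ⟨n, (h1 (x, n)).1 hn⟩,
    fun ⟨n, hn⟩ => ⟨n, (h1 (x, n)).2 hn⟩⟩⟩

/-- predicates on a coded type as predicates on codes -/
theorem dec (hS : Idl S) {p : α → Prop} (h : PS S p) :
    PS S (fun n : ℕ => ∃ x : α, encode x = n ∧ p x) := by
  obtain ⟨X, hX, h1⟩ := h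
  have h2 : PS S (fun n : ℕ => ((decode n : Option α).map encode) = some n) :=
    primrec hS (code_primrec α)
  refine (and hS h2 (mem hX)).congr (fun n => ?_)
  rw [code_iff]
  constructor
  · rintro ⟨y, hy, hp⟩
    exact ⟨⟨y, hy⟩, by rw [← hy]; exact (h1 y).1 hp⟩
  · rintro ⟨⟨y, hy⟩, h5⟩
    refine ⟨y, hy, (h1 y).2 ?_⟩
    rw [hy]
    exact h5

/-- the existential quantifier -/
theorem ex (hS : Cl S) {p : α → β → Prop} (hp : PS S (fun x : α × β => p x.1 x.2)) :
    PS S (fun x => ∃ y, p x y) := by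
  have h1 : PS S (fun z : α × ℕ => ∃ y : β, encode y = z.2 ∧ p z.1 y) := by
    have h2 := dec hS.toIdl hp
    have hc : Computable (fun z : α × ℕ => Nat.pair (encode z.1) z.2) :=
      (Primrec₂.natPair.comp (Primrec.encode.comp Primrec.fst) Primrec.snd).to_comp
    refine (comp hS.toIdl h2 hc).congr (fun z => ?_)
    obtain ⟨x, n⟩ := z
    dsimp only
    constructor
    · rintro ⟨y, hy, h3⟩
      exact ⟨(x, y), by rw [← hy]; rfl, h3⟩
    · rintro ⟨⟨x', y⟩, hy, h3⟩
      have h4 : Nat.pair (encode x') (encode y) = Nat.pair (encode x) n := hy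
      rw [Nat.pair_eq_pair] at h4
      have h5 := Encodable.encode_injective h4.1
      subst h5
      exact ⟨y, h4.2, h3⟩
  refine (exN hS (p := fun x n => ∃ y : β, encode y = n ∧ p x y) h1).congr (fun x => ?_)
  constructor
  · rintro ⟨y, hy⟩
    exact ⟨encode y, y, rfl, hy⟩
  · rintro ⟨_, y, _, hy⟩
    exact ⟨y, hy⟩

theorem all (hS : Cl S) {p : α → β → Prop} (hp : PS S (fun x : α × β => p x.1 x.2)) :
    PS S (fun x => ∀ y, p x y) :=
  (not hS.toIdl (ex hS (p := fun x y => ¬ p x y) (not hS.toIdl hp))).congr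
    (fun x => by push Not; rfl)

/-- the set of the codes -/
theorem toSet' (hS : Idl S) {p : α → Prop} (h : PS S p) : {n | ∃ x : α, encode x = n ∧ p x} ∈ S :=
  toSet hS (dec hS h)

end PS

end Pool.Agent.Work.MP_e5ffe1_gen
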