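import Pool.Agent.Work.MP_e5ffe1_gen.Interface

/-! # Block ARI: there are countably many arithmetical sets and tasks -/

set_option autoImplicit false

namespace Pool.Agent.Work.MP_e5ffe1_gen
namespace ARI

open Pool.Agent.Work.MP_e5ffe1_h93 (le J TR orc ch ch_of_mem ch_of_notMem le_iff orc_self le_refl'
  le_trans' le_J_left le_J_right two_mul_mem_J two_mul_add_one_mem_J)
open Encodable

/-! ## Iterated countable closures -/

section iter
variable {α : Type} (st : Set α → Set α) (A : Set α)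

/-- iterated closure -/
def It : ℕ → Set α
  | 0 => A
  | n + 1 => st (It n)

variable {st A}

lemma it_countable (hst : ∀ B : Set α, B.Countable → (st B).Countable) (hA : A.Countable) (n : ℕ) :
    (It st A n).Countable := by
  induction n with
  | zero => exact hA
  | succ n ih => exact hst _ ih

lemma it_mono (hst : ∀ B : Set α, B ⊆ st B) {m n : ℕ} (h : m ≤ n) : It st A m ⊆ It st A n := by
  induction h with
  | refl => exact subset_rfl
  | step _ ih => exact ih.trans (hst _)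

end iter

/-! ## Recursive functions in a countable set of oracles -/

/-- pairing -/
def oPair (f h : ℕ →. ℕ) : ℕ →. ℕ := fun n => (Nat.pair <$> f n <*> h n)
/-- composition -/
def oComp (f h : ℕ →. ℕ) : ℕ →. ℕ := fun n => h n >>= f
/-- primitive recursion -/
def oPrec (f h : ℕ →. ℕ) : ℕ →. ℕ := fun p =>
  let (a, n) := Nat.unpair p
  n.rec (f a) fun y IH => do
    let i ← IH
    h (Nat.pair a (Nat.pair y i))
/-- search -/
def oFind (f : ℕ →. ℕ) : ℕ →. ℕ := fun a =>
  Nat.rfind fun n => (fun m => m = 0) <$> f (Nat.pair a n)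

/-- one step -/
def stR (A : Set (ℕ →. ℕ)) : Set (ℕ →. ℕ) :=
  A ∪ (Set.image2 oPair A A ∪ (Set.image2 oComp A A ∪ (Set.image2 oPrec A A ∪ oFind '' A)))

/-- the basic functions -/
def bas (O : Set (ℕ →. ℕ)) : Set (ℕ →. ℕ) :=
  O ∪ ({(fun _ => 0 : ℕ →. ℕ)} ∪ ({(Nat.succ : ℕ →. ℕ)} ∪
    ({(fun n => (Nat.unpair n).1 : ℕ →. ℕ)} ∪ {(fun n => (Nat.unpair n).2 : ℕ →. ℕ)})))

lemma stR_countable (B : Set (ℕ →. ℕ)) (h : B.Countable) : (stR B).Countable :=
  h.union ((h.image2 h _).union ((h.image2 h _).union ((h.image2 h _).union (h.image _))))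

lemma bas_countable {O : Set (ℕ →. ℕ)} (h : O.Countable) : (bas O).Countable :=
  h.union ((Set.countable_singleton _).union ((Set.countable_singleton _).union
    ((Set.countable_singleton _).union (Set.countable_singleton _))))

lemma mem_it {O : Set (ℕ →. ℕ)} {f : ℕ →. ℕ} (hf : Nat.RecursiveIn O f) :
    ∃ n, f ∈ It stR (bas O) n := by
  have hsub : ∀ B : Set (ℕ →. ℕ), B ⊆ stR B := fun B => Set.subset_union_left
  induction hf with
  | zero => exact ⟨0, Or.inr (Or.inl rfl)⟩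
  | succ => exact ⟨0, Or.inr (Or.inr (Or.inl rfl))⟩
  | left => exact ⟨0, Or.inr (Or.inr (Or.inr (Or.inl rfl)))⟩
  | right => exact ⟨0, Or.inr (Or.inr (Or.inr (Or.inr rfl)))⟩
  | oracle g hg => exact ⟨0, Or.inl hg⟩
  | pair _ _ ih1 ih2 =>
    obtain ⟨n, hn⟩ := ih1
    obtain ⟨m, hm⟩ := ih2
    exact ⟨max n m + 1, Or.inr (Or.inl ⟨_, it_mono hsub (le_max_left n m) hn, _,
      it_mono hsub (le_max_right n m) hm, rfl⟩)⟩
  | comp _ _ ih1 ih2 =>
    obtain ⟨n, hn⟩ := ih1
    obtain ⟨m, hm⟩ := ih2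
    exact ⟨max n m + 1, Or.inr (Or.inr (Or.inl ⟨_, it_mono hsub (le_max_left n m) hn, _,
      it_mono hsub (le_max_right n m) hm, rfl⟩))⟩
  | prec _ _ ih1 ih2 =>
    obtain ⟨n, hn⟩ := ih1
    obtain ⟨m, hm⟩ := ih2
    exact ⟨max n m + 1, Or.inr (Or.inr (Or.inr (Or.inl ⟨_, it_mono hsub (le_max_left n m) hn, _,
      it_mono hsub (le_max_right n m) hm, rfl⟩)))⟩
  | rfind _ ih =>
    obtain ⟨n, hn⟩ := ih
    exact ⟨n + 1, Or.inr (Or.inr (Or.inr (Or.inr ⟨_, hn, rfl⟩)))⟩

lemma rec_countable {O : Set (ℕ →. ℕ)} (h : O.Countable) :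
    {f : ℕ →. ℕ | Nat.RecursiveIn O f}.Countable := by
  refine (Set.countable_iUnion (fun n => it_countable stR_countable (bas_countable h) n)).mono ?_
  intro f hf
  obtain ⟨n, hn⟩ := mem_it hf
  exact Set.mem_iUnion.2 ⟨n, hn⟩

lemma le_countable (X : Set ℕ) : {Y : Set ℕ | le Y X}.Countable := by
  have h1 : {f : ℕ →. ℕ | Nat.RecursiveIn (orc X) f}.Countable :=
    rec_countable (Set.countable_singleton _)
  have hinj : Function.Injective (fun Y : Set ℕ => (fun n => Part.some (ch Y n) : ℕ →. ℕ)) := by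
    intro Y Z h
    ext n
    have h2 : ch Y n = ch Z n := Part.some_inj.1 (congrFun h n)
    constructor
    · intro hn
      by_contra hn'
      rw [ch_of_mem hn, ch_of_notMem hn'] at h2
      exact one_ne_zero h2
    · intro hn
      by_contra hn'
      rw [ch_of_mem hn, ch_of_notMem hn'] at h2
      exact one_ne_zero h2.symm
  refine (h1.preimage_of_injOn hinj.injOn).mono ?_
  intro Y hY
  exact le_iff.1 hY

/-! ## A countable closed family -/

/-- projection -/
def prj (X : Set ℕ) : Set ℕ := {m | ∃ n, Nat.pair m n ∈ X}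

/-- one step -/
def stS (A : Set (Set ℕ)) : Set (Set ℕ) :=
  A ∪ ((⋃ X ∈ A, {Y | le Y X}) ∪ (Set.image2 J A A ∪ prj '' A))

lemma stS_countable (B : Set (Set ℕ)) (h : B.Countable) : (stS B).Countable :=
  h.union ((h.biUnion (fun X _ => le_countable X)).union ((h.image2 h _).union (h.image _)))

lemma cl_it : Cl (⋃ n, It stS {∅} n) where
  ne := ⟨∅, Set.mem_iUnion.2 ⟨0, rfl⟩⟩
  tr := by
    intro X hX Y hY
    obtain ⟨n, hn⟩ := Set.mem_iUnion.1 hX
    exact Set.mem_iUnion.2 ⟨n + 1, Or.inr (Or.inl (Set.mem_biUnion hn hY))⟩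
  join := by
    intro X hX Y hY
    obtain ⟨n, hn⟩ := Set.mem_iUnion.1 hX
    obtain ⟨m, hm⟩ := Set.mem_iUnion.1 hY
    have hsub : ∀ B : Set (Set ℕ), B ⊆ stS B := fun B => Set.subset_union_left
    exact Set.mem_iUnion.2 ⟨max n m + 1, Or.inr (Or.inr (Or.inl ⟨_,
      it_mono hsub (le_max_left n m) hn, _, it_mono hsub (le_max_right n m) hm, rfl⟩))⟩
  proj := by
    intro X hX
    obtain ⟨n, hn⟩ := Set.mem_iUnion.1 hX
    exact Set.mem_iUnion.2 ⟨n + 1, Or.inr (Or.inr (Or.inr ⟨_, hn, rfl⟩))⟩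

lemma ari_countable : Ari.Countable :=
  (Set.countable_iUnion (fun n => it_countable stS_countable (Set.countable_singleton _) n)).mono
    (ari_sub cl_it)

end ARI

theorem blk_ARI : Stmt_ARI := by
  refine ⟨ARI.ari_countable, ?_⟩
  have hinj : ∀ t ∈ {t : Task | IsT t}, ∃ X ∈ Ari, ∀ x : ℕ × List ℕ × List ℕ,
      t x.1 x.2.1 x.2.2 ↔ Encodable.encode x ∈ X := fun t ht => ht
  choose! F hF hF' using hinj
  refine Set.MapsTo.countable_of_injOn (f := F) (t := Ari) hF ?_ ARI.ari_countable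
  intro t ht t' ht' h
  funext j A C
  apply propext
  rw [hF' t ht (j, A, C), hF' t' ht' (j, A, C), h]

end Pool.Agent.Work.MP_e5ffe1_gen
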