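import Pool.Agent.Work.MP_e5ffe1_gen.Interface

/-! Block BAI: the inconsistent lists for the task without variables form a set in `S`. -/

set_option autoImplicit false

namespace Pool.Agent.Work.MP_e5ffe1_gen

open Encodable

namespace BAI

/-- consistency in terms of lists of codes -/
theorem cons_iff' {I : Type} (t : Task) (E : Set ℕ) (F : List Code) :
    Cons (promS ((t, []) : Task × List I) E ∪ promL ((t, []) : Task × List I) F) ↔
    ∀ y : List Code × List Str, (∀ x ∈ y.1, encode x ∈ E ∨ x ∈ F) → ∃ c : List ℕ,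
      ∀ x ∈ y.1, ∀ e : List ℕ, e.Nodup →
        List.Forall₂ (fun (q : Str) (i : ℕ) => i < y.2.length ∧ q <+: y.2.getD i []) x.2.1 e →
        (t x.1 [] (e.map (fun i => c.getD i 0)) ↔ x.2.2 = true) := by
  rw [cons_iff]
  constructor
  · intro h y hy
    obtain ⟨a, c, hc⟩ := h {π | ∃ x ∈ y.1, π = prom (t, []) x} (by
      rintro π ⟨x, hx, rfl⟩
      rcases hy x hx with h1 | h1
      · exact Or.inl ⟨x, h1, rfl⟩
      · exact Or.inr ⟨x, h1, rfl⟩) (by
      have : {π : Prom I | ∃ x ∈ y.1, π = prom (t, []) x} =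
          (fun x => prom (t, []) x) '' {x | x ∈ y.1} := by
        ext π
        constructor
        · rintro ⟨x, hx, rfl⟩; exact ⟨x, hx, rfl⟩
        · rintro ⟨x, hx, rfl⟩; exact ⟨x, hx, rfl⟩
      rw [this]
      exact (List.finite_toSet y.1).image _) y.2
    refine ⟨c, fun x hx e he hf => ?_⟩
    exact hc (prom (t, []) x) ⟨x, hx, rfl⟩ e he hf
  · intro h P0 h0 hfin μ
    obtain ⟨L, hL1, hL2⟩ : ∃ L : List Code, (∀ x ∈ L, encode x ∈ E ∨ x ∈ F) ∧
        ∀ π ∈ P0, ∃ x ∈ L, π = prom (t, []) x := by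
      clear h
      induction P0, hfin using Set.Finite.induction_on with
      | empty => exact ⟨[], by simp, by simp⟩
      | @insert π s hπ hs ih =>
        obtain ⟨L, h1, h2⟩ := ih ((Set.subset_insert π s).trans h0)
        have h3 : ∃ x : Code, (encode x ∈ E ∨ x ∈ F) ∧ π = prom (t, []) x := by
          rcases h0 (Set.mem_insert π s) with ⟨x, hx, he⟩ | ⟨x, hx, he⟩
          · exact ⟨x, Or.inl hx, he⟩
          · exact ⟨x, Or.inr hx, he⟩
        obtain ⟨x, hx, he⟩ := h3
        refine ⟨x :: L, ?_, ?_⟩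
        · intro z hz
          rcases List.mem_cons.1 hz with rfl | hz
          · exact hx
          · exact h1 z hz
        · intro π' hπ'
          rcases Set.mem_insert_iff.1 hπ' with rfl | h4
          · exact ⟨x, List.mem_cons_self, he⟩
          · obtain ⟨z, hz, hz'⟩ := h2 π' h4
            exact ⟨z, List.mem_cons_of_mem _ hz, hz'⟩
    obtain ⟨c, hc⟩ := h (L, μ) hL1
    refine ⟨fun _ => 0, c, fun π hπ e he hf => ?_⟩
    obtain ⟨x, hx, rfl⟩ := hL2 π hπ
    exact hc x hx e he hf

end BAI

theorem blk_BAI : Stmt_BAI := by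
  intro S hS t ht E hE I
  have hI := hS.toIdl
  have ht' : PS S (fun x : ℕ × List ℕ × List ℕ => t x.1 x.2.1 x.2.2) := PS.mono (ari_sub hS) ht
  -- the variables: ((F, y), c), x, e
  have a1 : PS S (fun w : ((((List Code × (List Code × List Str)) × List ℕ) × Code) × List ℕ) =>
      t w.1.2.1 [] (w.2.map (fun i => w.1.1.2.getD i 0))) := by
    refine PS.comp hI ht' (f := fun w : ((((List Code × (List Code × List Str)) × List ℕ) × Code) ×
      List ℕ) => (w.1.2.1, ([] : List ℕ), w.2.map (fun i => w.1.1.2.getD i 0))) ?_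
    refine ((Primrec.fst.comp (Primrec.snd.comp Primrec.fst)).pair
      ((Primrec.const []).pair ?_)).to_comp
    exact Primrec.list_map Primrec.snd ((Primrec.list_getD 0).comp
      (Primrec.snd.comp (Primrec.fst.comp (Primrec.fst.comp Primrec.fst))) Primrec.snd).to₂
  have a2 : PS S (fun w : ((((List Code × (List Code × List Str)) × List ℕ) × Code) × List ℕ) =>
      w.1.2.2.2 = true) :=
    PS.computable hI (Primrec.snd.comp (Primrec.snd.comp (Primrec.snd.comp Primrec.fst))).to_comp
  have a3 : PS S (fun w : ((((List Code × (List Code × List Str)) × List ℕ) × Code) × List ℕ) =>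
      w.2.Nodup) := PS.nodup hI Computable.snd
  have b1 : PS S (fun w : ((((List Code × (List Code × List Str)) × List ℕ) × Code) × List ℕ) ×
      Str × ℕ => w.2.2 < w.1.1.1.1.2.2.length) :=
    PS.primrec hI (PrimrecRel.comp Primrec.nat_lt (Primrec.snd.comp Primrec.snd)
      (Primrec.list_length.comp (Primrec.snd.comp (Primrec.snd.comp (Primrec.fst.comp
        (Primrec.fst.comp (Primrec.fst.comp Primrec.fst)))))))
  have b2 : PS S (fun w : ((((List Code × (List Code × List Str)) × List ℕ) × Code) × List ℕ) ×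
      Str × ℕ => w.2.1 <+: w.1.1.1.1.2.2.getD w.2.2 []) :=
    PS.prefix_ hI (Primrec.fst.comp Primrec.snd).to_comp
      ((Primrec.list_getD ([] : Str)).comp
        (Primrec.snd.comp (Primrec.snd.comp (Primrec.fst.comp
        (Primrec.fst.comp (Primrec.fst.comp Primrec.fst)))))
        (Primrec.snd.comp Primrec.snd)).to_comp
  have a4 : PS S (fun w : ((((List Code × (List Code × List Str)) × List ℕ) × Code) × List ℕ) =>
      List.Forall₂ (fun (q : Str) (i : ℕ) => i < w.1.1.1.2.2.length ∧ q <+: w.1.1.1.2.2.getD i [])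
        w.1.2.2.1 w.2) :=
    PS.forall₂ hI
      (R := fun (w : ((((List Code × (List Code × List Str)) × List ℕ) × Code) × List ℕ))
        (q : Str) (i : ℕ) => i < w.1.1.1.2.2.length ∧ q <+: w.1.1.1.2.2.getD i [])
      (PS.and hI b1 b2)
      (Primrec.fst.comp (Primrec.snd.comp (Primrec.snd.comp Primrec.fst))).to_comp Computable.snd
  have h1 := PS.all hS (p := fun (z : (((List Code × (List Code × List Str)) × List ℕ) × Code))
    (e : List ℕ) => e.Nodup →
      List.Forall₂ (fun (q : Str) (i : ℕ) => i < z.1.1.2.2.length ∧ q <+: z.1.1.2.2.getD i [])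
        z.2.2.1 e → (t z.2.1 [] (e.map (fun i => z.1.2.getD i 0)) ↔ z.2.2.2 = true))
    (PS.imp hI a3 (PS.imp hI a4 (PS.iff hI a1 a2)))
  have h2 := PS.forallMem hI (p := fun (z : ((List Code × (List Code × List Str)) × List ℕ))
    (x : Code) => ∀ e : List ℕ, e.Nodup →
      List.Forall₂ (fun (q : Str) (i : ℕ) => i < z.1.2.2.length ∧ q <+: z.1.2.2.getD i [])
        x.2.1 e → (t x.1 [] (e.map (fun i => z.2.getD i 0)) ↔ x.2.2 = true)) h1
    (g := fun z : ((List Code × (List Code × List Str)) × List ℕ) => z.1.2.1)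
    (Primrec.fst.comp (Primrec.snd.comp Primrec.fst)).to_comp
  have h3 := PS.ex hS (p := fun (z : List Code × (List Code × List Str)) (c : List ℕ) =>
    ∀ x ∈ z.2.1, ∀ e : List ℕ, e.Nodup →
      List.Forall₂ (fun (q : Str) (i : ℕ) => i < z.2.2.length ∧ q <+: z.2.2.getD i [])
        x.2.1 e → (t x.1 [] (e.map (fun i => c.getD i 0)) ↔ x.2.2 = true)) h2
  have h4 : PS S (fun z : List Code × (List Code × List Str) =>
      ∀ x ∈ z.2.1, encode x ∈ E ∨ x ∈ z.1) := by
    refine PS.forallMem hI (p := fun (z : List Code × (List Code × List Str)) (x : Code) =>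
      encode x ∈ E ∨ x ∈ z.1) ?_ (Primrec.fst.comp Primrec.snd).to_comp
    exact PS.or hI (PS.encode_comp hI hE Computable.snd)
      (PS.listMem hI Computable.snd (Primrec.fst.comp Primrec.fst).to_comp)
  have h5 := PS.all hS (p := fun (F : List Code) (y : List Code × List Str) =>
    (∀ x ∈ y.1, encode x ∈ E ∨ x ∈ F) → ∃ c : List ℕ,
      ∀ x ∈ y.1, ∀ e : List ℕ, e.Nodup →
        List.Forall₂ (fun (q : Str) (i : ℕ) => i < y.2.length ∧ q <+: y.2.getD i []) x.2.1 e →
        (t x.1 [] (e.map (fun i => c.getD i 0)) ↔ x.2.2 = true)) (PS.imp hI h4 h3)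
  exact (PS.not hI h5).congr (fun F => by rw [BAI.cons_iff'])

end Pool.Agent.Work.MP_e5ffe1_gen
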