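import Pool.Agent.Work.MP_e5ffe1_gen.Defs

/-! Basic lemmas about promises. -/

set_option autoImplicit false

namespace Pool.Agent.Work.MP_e5ffe1_gen

open Encodable

variable {I ι κ : Type} {P P' : Set (Prom I)}

theorem Sat.mono (h : P' ⊆ P) {s s' : ι → Str} (hs : ∀ l, s l <+: s' l) {a : I → ℕ} {z : ι → ℕ}
    (hz : Sat P s' a z) : Sat P' s a z := by
  intro π hπ i hi hp
  exact hz π (h hπ) i hi (hp.imp (fun p l hpl => hpl.trans (hs l)))

/-- renaming of the `c`-variables -/
theorem Sat.comp {s : ι → Str} {a : I → ℕ} {z : ι → ℕ} (hz : Sat P s a z) (e : κ → ι)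
    (he : Function.Injective e) : Sat P (fun k => s (e k)) a (fun k => z (e k)) := by
  intro π hπ i hi hp
  have h1 := hz π hπ (i.map e) (hi.map he) (by
    rw [List.forall₂_map_right_iff]
    exact hp)
  rw [List.map_map] at h1
  exact h1

theorem Cons.mono (h : P' ⊆ P) (hP : Cons P) : Cons P' :=
  fun P0 h0 hf n s => hP P0 (h0.trans h) hf n s

theorem Cons.fin [Finite ι] (hP : Cons P) {P0 : Set (Prom I)} (h0 : P0 ⊆ P) (hf : P0.Finite)
    (s : ι → Str) : ∃ (a : I → ℕ) (z : ι → ℕ), Sat P0 s a z := by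
  classical
  have := Fintype.ofFinite ι
  let e := Fintype.equivFin ι
  obtain ⟨a, z, hz⟩ := hP P0 h0 hf (Fintype.card ι) (fun k => s (e.symm k))
  refine ⟨a, fun l => z (e l), ?_⟩
  have h1 := hz.comp e e.injective
  refine h1.mono (le_refl _) (fun l => ?_)
  rw [Equiv.symm_apply_apply]

/-- the labelled variables as a list -/
theorem Sat.list {P0 : Set (Prom I)} {μ : List Str} {a : I → ℕ} {z : Fin μ.length → ℕ}
    (hz : Sat P0 μ.get a z) : ∀ π ∈ P0, ∀ e : List ℕ, e.Nodup →
      List.Forall₂ (fun (q : Str) (i : ℕ) => i < μ.length ∧ q <+: μ.getD i []) π.p e →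
      π.φ a (e.map (fun i => (List.ofFn z).getD i 0)) := by
  intro π hπ e he hp
  have hlt : ∀ i ∈ e, i < μ.length := by
    intro i hi
    obtain ⟨k, hk, rfl⟩ := List.mem_iff_getElem.1 hi
    have h1 := List.forall₂_iff_get.1 hp
    have h2 := h1.2 k (by rw [h1.1]; exact hk) hk
    exact h2.1
  obtain ⟨i', hi'⟩ : ∃ i' : List (Fin μ.length), i'.map (fun x => x.1) = e :=
    ⟨e.attach.map (fun x => ⟨x.1, hlt x.1 x.2⟩), by simp [List.map_map, Function.comp_def]⟩
  have hnd : i'.Nodup := List.Nodup.of_map (fun x : Fin μ.length => x.1) (by rw [hi']; exact he)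
  have h1 := hz π hπ i' hnd (by
    rw [← hi', List.forall₂_map_right_iff] at hp
    refine hp.imp (fun q l h => ?_)
    have h2 := h.2
    rw [List.getD_eq_getElem _ _ l.2] at h2
    exact h2)
  have h2 : i'.map z = e.map (fun i => (List.ofFn z).getD i 0) := by
    calc i'.map z = i'.map (fun l => (List.ofFn z).getD l.1 0) :=
          List.map_congr_left (fun l _ => by simp)
      _ = (i'.map (fun x => x.1)).map (fun i => (List.ofFn z).getD i 0) := by
          rw [List.map_map]
          exact List.map_congr_left (fun _ _ => rfl)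
      _ = e.map (fun i => (List.ofFn z).getD i 0) := by rw [hi']
  rw [← h2]
  exact h1

/-- the consistency in terms of lists -/
theorem cons_iff : Cons P ↔ ∀ P0 : Set (Prom I), P0 ⊆ P → P0.Finite → ∀ μ : List Str,
    ∃ (a : I → ℕ) (c : List ℕ), ∀ π ∈ P0, ∀ e : List ℕ, e.Nodup →
      List.Forall₂ (fun (q : Str) (i : ℕ) => i < μ.length ∧ q <+: μ.getD i []) π.p e →
      π.φ a (e.map (fun i => c.getD i 0)) := by
  constructor
  · intro hP P0 h0 hf μ
    obtain ⟨a, z, hz⟩ := hP P0 h0 hf μ.length μ.get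
    exact ⟨a, List.ofFn z, hz.list⟩
  · intro h P0 h0 hf n s
    obtain ⟨a, c, hc⟩ := h P0 h0 hf (List.ofFn s)
    refine ⟨a, fun i => c.getD i 0, ?_⟩
    intro π hπ i hi hp
    have h1 := hc π hπ (i.map (fun x => x.1)) (hi.map Fin.val_injective) (by
      rw [List.forall₂_map_right_iff]
      refine hp.imp (fun q l h => ?_)
      refine ⟨by simp, ?_⟩
      simpa using h)
    rw [List.map_map] at h1
    exact h1

theorem finite_subset_iUnion_mono {α : Type} {f : ℕ → Set α} (hf : Monotone f) {s : Set α}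
    (hs : s.Finite) (h : s ⊆ ⋃ n, f n) : ∃ n, s ⊆ f n := by
  classical
  induction s, hs using Set.Finite.induction_on with
  | empty => exact ⟨0, Set.empty_subset _⟩
  | @insert a s ha hs ih =>
    obtain ⟨n, hn⟩ := ih ((Set.subset_insert a s).trans h)
    obtain ⟨m, hm⟩ := Set.mem_iUnion.1 (h (Set.mem_insert a s))
    refine ⟨max n m, Set.insert_subset (hf (le_max_right n m) hm)
      (hn.trans (hf (le_max_left n m)))⟩

theorem Cons.iUnion {f : ℕ → Set (Prom I)} (hf : Monotone f) (h : ∀ n, Cons (f n)) :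
    Cons (⋃ n, f n) := by
  intro P0 h0 hfin n s
  obtain ⟨m, hm⟩ := finite_subset_iUnion_mono hf hfin h0
  exact h m P0 hm hfin n s

theorem Cons.sUnion {c : Set (Set (Prom I))} (hc : IsChain (· ⊆ ·) c) (hne : c.Nonempty)
    (h : ∀ P ∈ c, Cons P) : Cons (⋃₀ c) := by
  intro P0 h0 hfin n s
  obtain ⟨Q, hQ, hQ'⟩ := hc.directedOn.exists_mem_subset_of_finite_of_subset_sUnion hne hfin h0
  exact h Q hQ P0 hQ' hfin n s

theorem promL_nil (q : Task × List I) : promL q [] = ∅ := by
  ext π; simp [promL]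

theorem promS_mono (q : Task × List I) {D D' : Set ℕ} (h : D ⊆ D') : promS q D ⊆ promS q D' := by
  rintro π ⟨x, hx, rfl⟩
  exact ⟨x, h hx, rfl⟩

theorem DepOn.mono {K K' : Set I} (h : K ⊆ K') {π : Prom I} (hπ : DepOn K π) : DepOn K' π :=
  fun a a' haa => hπ a a' (fun y hy => haa y (h hy))

theorem depOn_prom (t : Task) (α : List I) (x : Code) {K : Set I} (h : ∀ y ∈ α, y ∈ K) :
    DepOn K (prom (t, α) x) := by
  intro a a' haa c hc
  have h1 : α.map a = α.map a' := List.map_congr_left (fun y hy => haa y (h y hy))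
  unfold prom at hc ⊢
  dsimp only at hc ⊢
  rw [← h1]
  exact hc

end Pool.Agent.Work.MP_e5ffe1_gen
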