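import Pool.Agent.Work.MP_e5ffe1_gen.CCS

/-! Block CBS: the codes of the bits of a new variable are consistent. -/

set_option autoImplicit false

namespace Pool.Agent.Work.MP_e5ffe1_gen

open Encodable

theorem blk_CBS : Stmt_CBS := by
  classical
  intro I P x X hP hdep P0 h0 hf n s
  -- codes of the promises
  have hcode : ∀ π : Prom I, ∃ c : Code, π ∈ promS (tb, [x]) (eb X) →
      (encode c ∈ eb X ∧ π = prom (tb, [x]) c) := by
    intro π
    by_cases h : π ∈ promS (tb, [x]) (eb X)
    · obtain ⟨c, hc⟩ := h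
      exact ⟨c, fun _ => hc⟩
    · exact ⟨(0, [], false), fun h' => absurd h' h⟩
  choose c hc using hcode
  obtain ⟨M, hM⟩ : ∃ M : ℕ, ∀ π ∈ P0, (c π).1 < M := by
    obtain ⟨b, hb⟩ := (hf.image (fun π => (c π).1)).bddAbove
    exact ⟨b + 1, fun π hπ => Nat.lt_succ_of_le (hb (Set.mem_image_of_mem _ hπ))⟩
  obtain ⟨a, z, hz⟩ := hP (P0 ∩ P) Set.inter_subset_right (hf.subset Set.inter_subset_left) n s
  set L : List Bool := (List.range M).map (fun k => decide (k ∈ X)) with hL
  have hLlen : L.length = M := by simp [hL]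
  set w : ℕ := CCS.val L with hw
  have hw1 : M ≤ w := by
    have := CCS.len_le L
    omega
  have hw2 : ∀ k < M, (w.testBit k = true ↔ k ∈ X) := by
    intro k hk
    rw [hw, CCS.testBit_val L k (by omega), List.getD_eq_getElem _ _ (by omega)]
    simp [hL]
  refine ⟨Function.update a x w, z, ?_⟩
  intro π hπ i hi hp
  rcases h0 hπ with h | h
  · refine hdep π h a _ ?_ _ (hz π ⟨hπ, h⟩ i hi hp)
    intro y hy
    exact (Function.update_of_ne hy _ _).symm
  · obtain ⟨h1, h2⟩ := hc π h
    obtain ⟨c', hc', h3, h4⟩ := h1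
    have hcc : c' = c π := encode_injective hc'
    rw [hcc] at h3 h4
    have hlt := hM π hπ
    rw [h2]
    show (tb (c π).1 ([x].map (Function.update a x w)) (i.map z) ↔ (c π).2.2 = true)
    unfold tb
    simp only [List.map_cons, List.map_nil, List.headD_cons, Function.update_self]
    rcases h4 with ⟨h4, h5⟩ | ⟨h4, h5⟩
    · rw [if_pos h4, h5]
      exact hw2 _ (by omega)
    · rw [if_neg (by omega), h5]
      simp only [iff_true]
      omega

end Pool.Agent.Work.MP_e5ffe1_gen
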