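import Pool.Agent.Work.MP_e5ffe1_gen.Interface

/-! Block CCS: the codes of the bits of the `c`-variables are consistent. -/

set_option autoImplicit false

namespace Pool.Agent.Work.MP_e5ffe1_gen

open Encodable

namespace CCS

/-- the value of a variable with label `s` -/
def val : List Bool → ℕ
  | [] => 1
  | b :: s => Nat.bit b (val s)

theorem val_pos (s : List Bool) : 1 ≤ val s := by
  induction s with
  | nil => exact le_rfl
  | cons b s ih =>
    show 1 ≤ Nat.bit b (val s)
    rw [Nat.bit_val]
    omega

theorem len_le (s : List Bool) : s.length ≤ val s := by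
  induction s with
  | nil => exact Nat.zero_le _
  | cons b s ih =>
    show s.length + 1 ≤ Nat.bit b (val s)
    have := val_pos s
    rw [Nat.bit_val]
    omega

theorem testBit_val (s : List Bool) : ∀ k < s.length, (val s).testBit k = s.getD k false := by
  induction s with
  | nil => intro k hk; exact absurd hk (Nat.not_lt_zero _)
  | cons b s ih =>
    intro k hk
    cases k with
    | zero =>
      show (Nat.bit b (val s)).testBit 0 = _
      rw [Nat.testBit_bit_zero]
      rfl
    | succ k =>
      show (Nat.bit b (val s)).testBit (k + 1) = _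
      rw [Nat.testBit_bit_succ, ih k (by simpa using hk)]
      rfl

end CCS

theorem blk_CCS : Stmt_CCS := by
  intro I P0 h0 _ n s
  refine ⟨fun _ => 0, fun i => CCS.val (s i), ?_⟩
  intro π hπ i hi hp
  obtain ⟨x, hx, rfl⟩ := h0 hπ
  obtain ⟨x', hx', s0, h1, h2, h3⟩ := hx
  have hxx : x' = x := encode_injective hx'
  subst hxx
  have hp' : List.Forall₂ (fun (p : Str) l => p <+: s l) [s0] i := by
    rw [← h1]
    exact hp
  obtain ⟨l, hl, rfl⟩ : ∃ l, s0 <+: s l ∧ i = [l] := by
    cases hp' with
    | cons h4 h5 =>
      cases h5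
      exact ⟨_, h4, rfl⟩
  show (tc x'.1 (([] : List I).map fun _ => 0) ([l].map fun i => CCS.val (s i)) ↔ x'.2.2 = true)
  have hlen : x'.1 / 2 < (s l).length := h2.trans_le hl.length_le
  have hget : (s l).getD (x'.1 / 2) false = s0.getD (x'.1 / 2) false := by
    obtain ⟨r, hr⟩ := hl
    rw [← hr, List.getD_append _ _ _ _ h2]
  unfold tc
  rcases h3 with ⟨h3, h4⟩ | ⟨h3, h4⟩
  · rw [if_pos h3, h4]
    simp only [List.map_cons, List.map_nil, List.headD_cons]
    rw [CCS.testBit_val _ _ hlen, hget]
  · rw [if_neg (by omega), h4]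
    simp only [List.map_cons, List.map_nil, List.headD_cons]
    have := CCS.len_le (s l)
    simp only [iff_true]
    omega

end Pool.Agent.Work.MP_e5ffe1_gen
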