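import Pool.Agent.Work.MP_e5ffe1_gen.Interface

/-! Block CMB (helper52): common variables of two traces. -/

set_option autoImplicit false

namespace Pool.Agent.Work.MP_e5ffe1_gen

namespace CMB

/-- change of the variables of a trace -/
theorem change (hREB : Stmt_REB) (hTSK : Stmt_TSK) {I : Type} {G : Set (ℕ → Bool)}
    (W : Ultrafilter (Om I G)) {t : Task} (ht : IsT t) {α β : List I} {γ δ : List G}
    (hα : ∀ y ∈ α, y ∈ β) (hγ : ∀ y ∈ γ, y ∈ δ) :
    ∃ t', IsT t' ∧ trc W t α γ = trc W t' β δ := by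
  obtain ⟨idx, -, h1⟩ := hREB α β hα
  obtain ⟨idx', -, h2⟩ := hREB γ δ hγ
  obtain ⟨-, -, -, -, hA, hC⟩ := hTSK
  refine ⟨_, hC _ (hA t ht idx) idx', ?_⟩
  unfold trc
  ext j
  show (∀ᶠ ω in (W : Filter (Om I G)), _) ↔ ∀ᶠ ω in (W : Filter (Om I G)), _
  constructor
  · intro h
    filter_upwards [h] with ω hω
    rw [← h1 ω.1, ← h2 ω.2]
    exact hω
  · intro h
    filter_upwards [h] with ω hω
    rw [← h1 ω.1, ← h2 ω.2] at hω
    exact hω

end CMB

theorem blk_CMB (hREB : Stmt_REB) (hTSK : Stmt_TSK) : Stmt_CMB := by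
  classical
  intro I G W X hX Y hY
  obtain ⟨t, ht, α, γ, hγ, rfl⟩ := hX
  obtain ⟨t', ht', α', γ', hγ', rfl⟩ := hY
  obtain ⟨t1, ht1, e1⟩ := CMB.change hREB hTSK W ht (α := α) (β := α ++ α') (γ := γ)
    (δ := (γ ++ γ').dedup) (fun y hy => List.mem_append_left _ hy)
    (fun y hy => List.mem_dedup.2 (List.mem_append_left _ hy))
  obtain ⟨t2, ht2, e2⟩ := CMB.change hREB hTSK W ht' (α := α') (β := α ++ α') (γ := γ')
    (δ := (γ ++ γ').dedup) (fun y hy => List.mem_append_right _ hy)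
    (fun y hy => List.mem_dedup.2 (List.mem_append_right _ hy))
  exact ⟨t1, t2, ht1, ht2, _, _, List.nodup_dedup _, e1, e2⟩

end Pool.Agent.Work.MP_e5ffe1_gen
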