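import Pool.Agent.Work.MP_e5ffe1_gen.Interface

/-! Block CMF: finitely many definable functions with the same variables. -/

set_option autoImplicit false

namespace Pool.Agent.Work.MP_e5ffe1_gen

open Encodable

namespace CMF

/-- choose entries -/
theorem pick (idx : List ℕ) : Primrec (fun A : List ℕ => idx.map (fun j => A.getD j 0)) :=
  Primrec.list_map (Primrec.const idx)
    ((Primrec.list_getD 0).comp Primrec.fst Primrec.snd).to₂

theorem pick2 (idx idx' : List ℕ) : Computable (fun x : List ℕ × List ℕ =>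
    (idx.map (fun j => x.1.getD j 0), idx'.map (fun j => x.2.getD j 0))) :=
  (((pick idx).comp Primrec.fst).pair ((pick idx').comp Primrec.snd)).to_comp

end CMF

theorem blk_CMF (hREB : Stmt_REB) : Stmt_CMF := by
  classical
  intro I G m f hf
  choose α γ h hγ hh hfh using hf
  let A : List I := (List.ofFn α).flatten
  let C : List G := (List.ofFn γ).flatten.dedup
  have hA : ∀ i, ∀ y ∈ α i, y ∈ A := by
    intro i y hy
    exact List.mem_flatten.2 ⟨α i, (List.mem_ofFn' _ _).2 ⟨i, rfl⟩, hy⟩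
  have hC : ∀ i, ∀ y ∈ γ i, y ∈ C := by
    intro i y hy
    exact List.mem_dedup.2 (List.mem_flatten.2 ⟨γ i, (List.mem_ofFn' _ _).2 ⟨i, rfl⟩, hy⟩)
  have h1 := fun i => hREB (α i) A (hA i)
  have h2 : ∀ i, ∃ idx : List ℕ, (∀ j ∈ idx, j < C.length) ∧
      ∀ a : G → ℕ, (γ i).map a = idx.map (fun j => (C.map a).getD j 0) :=
    fun i => hREB (γ i) C (hC i)
  choose idx hidx hidx' using h1
  choose jdx hjdx hjdx' using h2
  refine ⟨A, C, List.nodup_dedup _, fun i x => h i ((idx i).map (fun j => x.1.getD j 0),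
    (jdx i).map (fun j => x.2.getD j 0)), ?_, ?_⟩
  · intro i
    exact ArG.comp (hh i) (ArG.of_computable (CMF.pick2 (idx i) (jdx i)))
  · intro i ω
    rw [hfh i ω, hidx' i ω.1, hjdx' i ω.2]

end Pool.Agent.Work.MP_e5ffe1_gen
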