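import Pool.Agent.Work.MP_e5ffe1_gen.Interface

/-! # Block COMP: compatible partial functions, families indexed by `T ^ d` -/

set_option autoImplicit false

namespace Pool.Agent.Work.MP_e5ffe1_gen

open Cardinal

namespace COMP

open Classical in
/-- the union of countably many partial functions -/
noncomputable def un {V C N : Type} (g : N → V → Option C) (v : V) : Option C :=
  if h : ∃ n, g n v ≠ none then g h.choose v else none

lemma un_eq {V C N : Type} (g : N → V → Option C)
    (hg : ∀ n m v c c', g n v = some c → g m v = some c' → c = c') (n : N) (v : V) (c : C)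
    (h : g n v = some c) : un g v = some c := by
  have h1 : ∃ n, g n v ≠ none := ⟨n, by rw [h]; exact Option.some_ne_none c⟩
  rw [un, dif_pos h1]
  have h2 := h1.choose_spec
  obtain ⟨c', hc'⟩ := Option.ne_none_iff_exists'.1 h2
  rw [hc', hg _ _ _ _ _ hc' h]

lemma un_dom {V C N : Type} (g : N → V → Option C) :
    {v | un g v ≠ none} ⊆ ⋃ n, {v | g n v ≠ none} := by
  intro v hv
  simp only [Set.mem_ofPred_eq, un] at hv
  split_ifs at hv with h
  · exact Set.mem_iUnion.2 ⟨_, h.choose_spec⟩
  · exact absurd rfl hv

end COMP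

open COMP in
theorem blk_COMP (hKEY : Stmt_KEY) : Stmt_COMP := by
  intro d
  induction d with
  | zero =>
    refine ⟨0, fun T V C f _ _ _ => ⟨fun i => i.elim0, fun i => i.elim0, ?_⟩⟩
    intro n m v c c' h1 h2
    have e : (fun i : Fin 0 => (i.elim0 : T)) = fun i : Fin 0 => (i.elim0 : T) := rfl
    have : some c = some c' := by
      rw [← h1, ← h2]
      congr 1
      funext i
      exact i.elim0
    exact Option.some_injective _ this
  | succ d ih =>
    obtain ⟨κ, hκ⟩ := ih
    let Q : Type := κ.out
    have hQ : #Q = κ := Cardinal.mk_out κ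
    let R : Type := (Fin d → ℕ → Q) ⊕ (ℕ → Bool)
    refine ⟨max #Q (Order.succ #R), ?_⟩
    intro T V C f hT hC hf
    have hQT : #Q ≤ #T := le_trans (le_max_left _ _) hT
    obtain ⟨e⟩ := Cardinal.le_def Q T |>.1 hQT
    have h1 : ∀ t : T, ∃ h : Fin d → ℕ → Q, (∀ i, Function.Injective (h i)) ∧
        ∀ (n m : Fin d → ℕ) v c c',
          f (Fin.cons t (fun i => e (h i (n i)))) v = some c →
          f (Fin.cons t (fun i => e (h i (m i)))) v = some c' → c = c' := by
      intro t
      exact hκ Q V C (fun s => f (Fin.cons t (fun i => e (s i)))) hQ.ge hC (fun s => hf _)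
    choose H hHi hHc using h1
    have hlt : #R < #T :=
      lt_of_lt_of_le (Order.lt_succ _) (le_trans (le_max_right _ _) hT)
    have hc : 𝔠 ≤ #R := by
      have h2 : #(ℕ → Bool) = 𝔠 := by simp
      rw [← h2]
      exact Cardinal.mk_le_of_injective (f := (Sum.inr : (ℕ → Bool) → R)) Sum.inr_injective
    obtain ⟨r, hr⟩ := Cardinal.infinite_pigeonhole_card_lt (fun t : T => (Sum.inl (H t) : R)) hlt
      (Cardinal.aleph0_le_continuum.trans (hc.trans hlt.le))
    set T1 : Set T := (fun t : T => (Sum.inl (H t) : R)) ⁻¹' {r} with hT1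
    have hT1c : 𝔠 < #T1 := lt_of_le_of_lt hc hr
    have hne : (#T1) ≠ 0 := fun h0 => by
      rw [h0] at hT1c
      exact absurd hT1c (not_lt.2 (zero_le))
    obtain ⟨t0, ht0⟩ : T1.Nonempty := by
      rw [Cardinal.mk_ne_zero_iff] at hne
      obtain ⟨x⟩ := hne
      exact ⟨x.1, x.2⟩
    have hH : ∀ t ∈ T1, H t = H t0 := by
      intro t ht
      have h3 : (Sum.inl (H t) : R) = Sum.inl (H t0) := by
        rw [hT1, Set.mem_preimage, Set.mem_singleton_iff] at ht ht0
        rw [ht, ht0]
      exact Sum.inl_injective h3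
    set h := H t0 with hh
    obtain ⟨k, hk, hkc⟩ := hKEY T1 V C
      (fun t => un (fun n : Fin d → ℕ => f (Fin.cons t.1 (fun i => e (h i (n i)))))) hC hT1c
      (fun t => (Set.countable_iUnion (fun n => hf _)).mono (un_dom _))
    refine ⟨Fin.cons (fun n => (k n).1) (fun i n => e (h i n)), ?_, ?_⟩
    · intro i
      refine Fin.cases ?_ (fun i => ?_) i
      · intro n m hnm
        rw [Fin.cons_zero] at hnm
        exact hk (Subtype.ext hnm)
      · intro n m hnm
        rw [Fin.cons_succ] at hnm
        exact hHi t0 i (e.injective hnm)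
    · intro n m v c c' h1 h2
      have key : ∀ (n : Fin (d + 1) → ℕ) (c : C),
          f (fun i => (Fin.cons (fun n => (k n).1) (fun i n => e (h i n)) :
            Fin (d + 1) → ℕ → T) i (n i)) v = some c →
          un (fun n' : Fin d → ℕ => f (Fin.cons (k (n 0)).1 (fun i => e (h i (n' i))))) v =
            some c := by
        intro n c hn
        have e1 : (fun i => (Fin.cons (fun n => (k n).1) (fun i n => e (h i n)) :
            Fin (d + 1) → ℕ → T) i (n i)) =
            Fin.cons (k (n 0)).1 (fun i => e (h i (n i.succ))) := by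
          funext i
          refine Fin.cases ?_ (fun i => ?_) i
          · rw [Fin.cons_zero, Fin.cons_zero]
          · rw [Fin.cons_succ, Fin.cons_succ]
        rw [e1] at hn
        refine un_eq _ ?_ (fun i => n i.succ) v c hn
        intro n1 n2 v' c1 c2 g1 g2
        have h4 := hHc (k (n 0)).1 n1 n2 v' c1 c2
        rw [hH _ (k (n 0)).2] at h4
        exact h4 g1 g2
      exact hkc (n 0) (m 0) v c c' (key n c h1) (key m c' h2)

end Pool.Agent.Work.MP_e5ffe1_gen
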