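import Pool.Agent.Work.MP_e5ffe1_gen.Calc

/-!
More closure properties of `PS S`: options, lists.
-/

set_option autoImplicit false

namespace Pool.Agent.Work.MP_e5ffe1_gen

open Pool.Agent.Work.MP_e5ffe1_h93 (le J TR orc ch ch_of_mem ch_of_notMem le_iff orc_self le_refl'
  le_trans' le_J_left le_J_right two_mul_mem_J two_mul_add_one_mem_J)
open Encodable

variable {S : Set (Set ℕ)} {α β γ : Type} [Primcodable α] [Primcodable β] [Primcodable γ]

namespace PS

/-- quantification over the value of an option -/
theorem optAll (hS : Idl S) {p : α → β → Prop} (hp : PS S (fun x : α × β => p x.1 x.2))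
    {f : α → Option β} (hf : Computable f) : PS S (fun x => ∀ y, f x = some y → p x y) := by
  classical
  -- use a default value
  by_cases hne : Nonempty β
  · obtain ⟨b⟩ := hne
    have h1 : PS S (fun x => p x ((f x).getD b)) :=
      comp hS hp (Computable.id.pair (hf.option_getD (Computable.const b)))
    have h2 : PS S (fun x => (f x).isSome = true) :=
      computable hS (Primrec.option_isSome.to_comp.comp hf)
    refine (imp hS h2 h1).congr (fun x => ?_)
    rcases h3 : f x with _ | y
    · simp
    · simp
  · refine (const hS True).congr (fun x => ?_)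
    refine ⟨fun _ => trivial, fun _ y _ => absurd ⟨y⟩ hne⟩

/-- bounded quantifiers over lists -/
theorem forallMem (hS : Idl S) {p : α → β → Prop} (hp : PS S (fun x : α × β => p x.1 x.2))
    {g : α → List β} (hg : Computable g) : PS S (fun x => ∀ y ∈ g x, p x y) := by
  have h1 : PS S (fun z : α × ℕ => ∀ y, (g z.1)[z.2]? = some y → p z.1 y) :=
    optAll hS (p := fun (z : α × ℕ) y => p z.1 y)
      (comp hS hp ((Computable.fst.comp Computable.fst).pair Computable.snd))
      (Primrec.list_getElem?.to_comp.comp (hg.comp Computable.fst) Computable.snd)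
  have h2 := ball hS (p := fun x n => ∀ y, (g x)[n]? = some y → p x y) h1
    (Primrec.list_length.to_comp.comp hg)
  refine h2.congr (fun x => ?_)
  constructor
  · intro h n _ y hy
    exact h y (List.mem_of_getElem? hy)
  · intro h y hy
    obtain ⟨n, hn, h3⟩ := List.mem_iff_getElem.1 hy
    exact h n hn y (by rw [List.getElem?_eq_getElem hn, h3])

theorem existsMem (hS : Idl S) {p : α → β → Prop} (hp : PS S (fun x : α × β => p x.1 x.2))
    {g : α → List β} (hg : Computable g) : PS S (fun x => ∃ y ∈ g x, p x y) :=
  (not hS (forallMem hS (p := fun x y => ¬ p x y) (not hS hp) hg)).congr (fun x => by push Not; rfl)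

/-- membership in lists -/
theorem listMem (hS : Idl S) {f : α → β} (hf : Computable f) {g : α → List β}
    (hg : Computable g) : PS S (fun x => f x ∈ g x) := by
  have h1 : PS S (fun z : α × β => f z.1 = z.2) :=
    eq hS (hf.comp Computable.fst) Computable.snd
  refine (existsMem hS (p := fun x y => f x = y) h1 hg).congr (fun x => ?_)
  constructor
  · intro h; exact ⟨_, h, rfl⟩
  · rintro ⟨y, hy, h⟩; rw [h]; exact hy

theorem nodup (hS : Idl S) {g : α → List β} (hg : Computable g) : PS S (fun x => (g x).Nodup) := by
  have h1 : PS S (fun z : (α × ℕ) × ℕ => (g z.1.1)[z.2]? = (g z.1.1)[z.1.2]?) :=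
    eq hS
      (Primrec.list_getElem?.to_comp.comp (hg.comp (Computable.fst.comp Computable.fst)) Computable.snd)
      (Primrec.list_getElem?.to_comp.comp (hg.comp (Computable.fst.comp Computable.fst))
        (Computable.snd.comp Computable.fst))
  have h2 := ball hS (p := fun (z : α × ℕ) i => ¬ (g z.1)[i]? = (g z.1)[z.2]?) (not hS h1)
    (Computable.snd (α := α) (β := ℕ))
  have h3 := ball hS (p := fun x j => ∀ i < j, ¬ (g x)[i]? = (g x)[j]?) h2
    (Primrec.list_length.to_comp.comp hg)
  refine h3.congr (fun x => ?_)
  rw [List.nodup_iff_getElem?_ne_getElem?]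
  constructor
  · intro h j hj i hij
    exact h i j hij hj
  · intro h i j hij hj
    exact h j hj i hij

theorem forall₂ (hS : Idl S) {R : α → β → γ → Prop}
    (hR : PS S (fun x : α × β × γ => R x.1 x.2.1 x.2.2)) {f : α → List β} (hf : Computable f)
    {g : α → List γ} (hg : Computable g) : PS S (fun x => List.Forall₂ (R x) (f x) (g x)) := by
  have h0 : PS S (fun x => (f x).length = (g x).length) :=
    eq hS (Primrec.list_length.to_comp.comp hf) (Primrec.list_length.to_comp.comp hg)
  have h1 : PS S (fun z : (α × ℕ) × β => ∀ c, (g z.1.1)[z.1.2]? = some c → R z.1.1 z.2 c) :=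
    optAll hS (p := fun (z : (α × ℕ) × β) c => R z.1.1 z.2 c)
      (comp hS hR ((Computable.fst.comp (Computable.fst.comp Computable.fst)).pair
        ((Computable.snd.comp Computable.fst).pair Computable.snd)))
      (Primrec.list_getElem?.to_comp.comp (hg.comp (Computable.fst.comp Computable.fst))
        (Computable.snd.comp Computable.fst))
  have h2 : PS S (fun z : α × ℕ => ∀ b, (f z.1)[z.2]? = some b → ∀ c, (g z.1)[z.2]? = some c →
      R z.1 b c) :=
    optAll hS (p := fun (z : α × ℕ) b => ∀ c, (g z.1)[z.2]? = some c → R z.1 b c) h1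
      (Primrec.list_getElem?.to_comp.comp (hf.comp Computable.fst) Computable.snd)
  have h3 := ball hS (p := fun x n => ∀ b, (f x)[n]? = some b → ∀ c, (g x)[n]? = some c → R x b c)
    h2 (Primrec.list_length.to_comp.comp hf)
  refine (and hS h0 h3).congr (fun x => ?_)
  rw [List.forall₂_iff_get]
  constructor
  · rintro ⟨h4, h5⟩
    refine ⟨h4, fun n hn b hb c hc => ?_⟩
    have hn' : n < (g x).length := by rw [← h4]; exact hn
    rw [List.getElem?_eq_getElem hn, Option.some.injEq] at hb
    rw [List.getElem?_eq_getElem hn', Option.some.injEq] at hc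
    rw [← hb, ← hc]
    exact h5 n hn hn'
  · rintro ⟨h4, h5⟩
    refine ⟨h4, fun n hn hn' => ?_⟩
    exact h5 n hn _ (List.getElem?_eq_getElem hn) _ (List.getElem?_eq_getElem hn')

/-- prefixes -/
theorem prefix_ (hS : Idl S) {f g : α → List β} (hf : Computable f) (hg : Computable g) :
    PS S (fun x => f x <+: g x) := by
  have h1 : PS S (fun x => f x = (g x).take (f x).length) :=
    eq hS hf (Primrec.list_take.to_comp.comp (Primrec.list_length.to_comp.comp hf) hg)
  exact h1.congr (fun x => List.prefix_iff_eq_take)

/-- decoding -/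
theorem encode_comp {X : Set ℕ} (hS : Idl S) (hX : X ∈ S) {f : α → β} (hf : Computable f) :
    PS S (fun x => encode (f x) ∈ X) :=
  comp hS (mem hX) (Computable.encode.comp hf)

end PS

end Pool.Agent.Work.MP_e5ffe1_gen
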