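import Pool.Agent.Work.MP_e5ffe1_gen.Defs
import Pool.Agent.Work.MP_e5ffe1_gen.Calc2

/-!
`Cl Ari`, and substitution of functions with arithmetical graphs.
-/

set_option autoImplicit false

namespace Pool.Agent.Work.MP_e5ffe1_gen

open Pool.Agent.Work.MP_e5ffe1_h93 (le J TR orc ch ch_of_mem ch_of_notMem le_iff orc_self le_refl'
  le_trans' le_J_left le_J_right two_mul_mem_J two_mul_add_one_mem_J)
open Encodable

theorem le_empty (X : Set ℕ) : le ∅ X := by
  rw [le_iff]
  exact (TR.const 0).of_eq (fun n => (ch_of_notMem (Set.notMem_empty n)).symm)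

theorem cl_ari : Cl Ari where
  ne := by
    refine ⟨∅, fun S hS => ?_⟩
    obtain ⟨X, hX⟩ := hS.ne
    exact hS.tr X hX _ (le_empty X)
  tr := fun X hX Y hY S hS => hS.tr X (hX S hS) Y hY
  join := fun X hX Y hY S hS => hS.join X (hX S hS) Y (hY S hS)
  proj := fun X hX S hS => hS.proj X (hX S hS)

theorem idl_ari : Idl Ari := cl_ari.toIdl

theorem ari_sub {S : Set (Set ℕ)} (hS : Cl S) : Ari ⊆ S := fun _ hX => hX S hS

variable {α β γ : Type} [Primcodable α] [Primcodable β] [Primcodable γ]

theorem ArG.of_computable {h : α → β} (hh : Computable h) : ArG h :=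
  PS.eq idl_ari (hh.comp Computable.fst) Computable.snd

theorem ArG.of_primrec {h : α → β} (hh : Primrec h) : ArG h := ArG.of_computable hh.to_comp

/-- substitution of a function with arithmetical graph -/
theorem ArG.subst {p : β → Prop} (hp : PS Ari p) {h : α → β} (hh : ArG h) :
    PS Ari (fun x => p (h x)) := by
  have h1 : PS Ari (fun x : α × β => h x.1 = x.2 ∧ p x.2) :=
    PS.and idl_ari hh (PS.comp idl_ari hp Computable.snd)
  refine (PS.ex cl_ari (p := fun x y => h x = y ∧ p y) h1).congr (fun x => ?_)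
  constructor
  · intro h2; exact ⟨_, rfl, h2⟩
  · rintro ⟨y, h2, h3⟩; rw [h2]; exact h3

theorem ArG.pair {h : α → β} (hh : ArG h) {g : α → γ} (hg : ArG g) :
    ArG (fun x => (h x, g x)) := by
  have h1 : PS Ari (fun x : α × β × γ => h x.1 = x.2.1) :=
    PS.comp idl_ari hh (Computable.fst.pair (Computable.fst.comp Computable.snd))
  have h2 : PS Ari (fun x : α × β × γ => g x.1 = x.2.2) :=
    PS.comp idl_ari hg (Computable.fst.pair (Computable.snd.comp Computable.snd))
  exact (PS.and idl_ari h1 h2).congr (fun x => Prod.ext_iff)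

theorem ArG.comp {g : β → γ} (hg : ArG g) {h : α → β} (hh : ArG h) : ArG (fun x => g (h x)) := by
  have h1 : ArG (fun x : α × γ => h x.1) := by
    have : PS Ari (fun x : (α × γ) × β => h x.1.1 = x.2) :=
      PS.comp idl_ari hh ((Computable.fst.comp Computable.fst).pair Computable.snd)
    exact this
  have h2 : ArG (fun x : α × γ => (h x.1, x.2)) := h1.pair (ArG.of_computable Computable.snd)
  exact ArG.subst (p := fun y : β × γ => g y.1 = y.2) hg h2

/-- functions given by a unique arithmetical description -/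
theorem ArG.of_unique {h : α → β} {p : α → β → Prop} (hp : PS Ari (fun x : α × β => p x.1 x.2))
    (h1 : ∀ x y, p x y ↔ y = h x) : ArG h :=
  hp.congr (fun x => by rw [h1]; exact eq_comm)

end Pool.Agent.Work.MP_e5ffe1_gen
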