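import Pool.Agent.Work.MP_e5ffe1_gen.Interface

/-! # Block DECV: a maximal good set of decided predicates (Zorn) -/

set_option autoImplicit false

namespace Pool.Agent.Work.MP_e5ffe1_gen
namespace DECV

open Encodable

variable {I V : Type}

lemma LE.refl (σ : V → Option Str) : LE σ σ := fun _ l h => ⟨l, h, List.prefix_refl l⟩

lemma LE.trans {σ σ' σ'' : V → Option Str} (h : LE σ σ') (h' : LE σ' σ'') : LE σ σ'' := by
  intro v l hl
  obtain ⟨l', hl', hp⟩ := h v l hl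
  obtain ⟨l'', hl'', hp'⟩ := h' v l' hl'
  exact ⟨l'', hl'', hp.trans hp'⟩

lemma SatV.mono {P P' : Set (Prom I)} (hP : P' ⊆ P) {σ σ' : V → Option Str} (h : LE σ σ')
    {a : I → ℕ} {z : V → ℕ} (hz : SatV P σ' a z) : SatV P' σ a z := by
  intro π hπ i hi hp
  refine hz π (hP hπ) i hi (hp.imp ?_)
  rintro p v ⟨l, hl, hpl⟩
  obtain ⟨l', hl', hp'⟩ := h v l hl
  exact ⟨l', hl', hpl.trans hp'⟩

/-- good sets -/
def Good (P : Set (Prom I)) (Θ : Set ((V → Option Str) × ((I → ℕ) → (V → ℕ) → Prop))) : Prop :=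
  ∀ P0, P0 ⊆ P → P0.Finite → ∀ Θ0, Θ0 ⊆ Θ → Θ0.Finite → ∀ σ, FinS σ →
    ∃ a z, SatV P0 σ a z ∧ ∀ x ∈ Θ0, LE x.1 σ → x.2 a z

lemma satV_of_cons {P : Set (Prom I)} (hP : Cons P) {P0 : Set (Prom I)} (h0 : P0 ⊆ P)
    (hf : P0.Finite) {σ : V → Option Str} (hσ : FinS σ) : ∃ a z, SatV P0 σ a z := by
  classical
  have : Finite {v // σ v ≠ none} := hσ
  have hne : ∀ v : {v // σ v ≠ none}, (σ v.1).isSome := fun v => Option.isSome_iff_ne_none.2 v.2
  obtain ⟨a, z', hz⟩ := hP.fin (ι := {v // σ v ≠ none}) h0 hf (fun v => (σ v.1).get (hne v))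
  refine ⟨a, fun v => if h : σ v ≠ none then z' ⟨v, h⟩ else 0, ?_⟩
  intro π hπ i hi hp
  have hmem : ∀ v ∈ i, σ v ≠ none := by
    intro v hv
    obtain ⟨k, hk, rfl⟩ := List.mem_iff_getElem.1 hv
    have h1 := List.forall₂_iff_get.1 hp
    obtain ⟨l, hl, _⟩ := h1.2 k (by rw [h1.1]; exact hk) hk
    intro h
    have h2 : σ i[k] = some l := hl
    rw [h] at h2
    exact Option.some_ne_none l h2.symm
  obtain ⟨i', hi'⟩ : ∃ i' : List {v // σ v ≠ none}, i'.map Subtype.val = i :=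
    ⟨i.attach.map (fun x => ⟨x.1, hmem x.1 x.2⟩), by simp [List.map_map, Function.comp_def]⟩
  have hnd : i'.Nodup := List.Nodup.of_map Subtype.val (by rw [hi']; exact hi)
  have h1 := hz π hπ i' hnd (by
    rw [← hi', List.forall₂_map_right_iff] at hp
    refine hp.imp ?_
    rintro p v ⟨l, hl, hpl⟩
    have h2 : (σ v.1).get (hne v) = l := by
      apply Option.get_of_eq_some
      exact hl
    show p <+: (σ v.1).get (hne v)
    rw [h2]
    exact hpl)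
  have h2 : i'.map z' = i.map (fun v => if h : σ v ≠ none then z' ⟨v, h⟩ else 0) := by
    rw [← hi', List.map_map]
    apply List.map_congr_left
    intro v _
    simp only [Function.comp]
    rw [dif_pos v.2]
  rw [← h2]
  exact h1

end DECV

open DECV in
theorem blk_DECV : Stmt_DECV := by
  intro I V P hP
  have hempty : Good P (∅ : Set ((V → Option Str) × ((I → ℕ) → (V → ℕ) → Prop))) := by
    intro P0 h0 hf Θ0 hΘ _ σ hσ
    obtain ⟨a, z, hz⟩ := satV_of_cons hP h0 hf hσ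
    exact ⟨a, z, hz, fun x hx => absurd (hΘ hx) (Set.notMem_empty x)⟩
  obtain ⟨Θ, _, hmax⟩ := zorn_subset_nonempty
    {Θ : Set ((V → Option Str) × ((I → ℕ) → (V → ℕ) → Prop)) | Good P Θ} (by
      intro c hc hchain hne
      refine ⟨⋃₀ c, ?_, fun s hs => Set.subset_sUnion_of_mem hs⟩
      intro P0 h0 hf Θ0 hΘ hΘf σ hσ
      obtain ⟨Q, hQ, hQ'⟩ :=
        hchain.directedOn.exists_mem_subset_of_finite_of_subset_sUnion hne hΘf hΘ
      exact hc hQ P0 h0 hf Θ0 hQ' hΘf σ hσ) ∅ hempty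
  have hgood : Good P Θ := hmax.prop
  refine ⟨Θ, hgood, ?_⟩
  intro σ hσ ψ
  by_cases hmem : (σ, ψ) ∈ Θ
  · exact ⟨σ, LE.refl σ, hσ, Or.inl hmem⟩
  have hng : ¬ Good P (insert (σ, ψ) Θ) := by
    intro h
    apply hmem
    exact hmax.le_of_ge h (Set.subset_insert _ _) (Set.mem_insert _ _)
  unfold Good at hng
  push Not at hng
  obtain ⟨P0, hP0, hP0f, Θ0', hΘ0', hΘ0f, σ1, hσ1, hbad⟩ := hng
  set Θ0 := Θ0' ∩ Θ with hΘ0
  have hkey : ∀ a z, SatV P0 σ1 a z → (∀ x ∈ Θ0, LE x.1 σ1 → x.2 a z) → LE σ σ1 ∧ ¬ ψ a z := by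
    intro a z h1 h2
    obtain ⟨x, hx, hx1, hx2⟩ := hbad a z h1
    rcases hΘ0' hx with h3 | h3
    · rw [h3] at hx1 hx2
      exact ⟨hx1, hx2⟩
    · exact absurd (h2 x ⟨hx, h3⟩ hx1) hx2
  obtain ⟨a0, z0, g1, g2⟩ := hgood P0 hP0 hP0f Θ0 (Set.inter_subset_right)
    (hΘ0f.subset Set.inter_subset_left) σ1 hσ1
  have hLE : LE σ σ1 := (hkey a0 z0 g1 g2).1
  refine ⟨σ1, hLE, hσ1, Or.inr ?_⟩
  have hg : Good P (insert (σ1, fun a z => ¬ ψ a z) Θ) := by
    intro P1 hP1 hP1f Θ1 hΘ1 hΘ1f σ2 hσ2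
    obtain ⟨a, z, g3, g4⟩ := hgood (P0 ∪ P1) (Set.union_subset hP0 hP1) (hP0f.union hP1f)
      (Θ0 ∪ (Θ1 ∩ Θ)) (Set.union_subset Set.inter_subset_right Set.inter_subset_right)
      ((hΘ0f.subset Set.inter_subset_left).union (hΘ1f.subset Set.inter_subset_left)) σ2 hσ2
    refine ⟨a, z, SatV.mono Set.subset_union_right (LE.refl σ2) g3, ?_⟩
    intro x hx hx'
    rcases hΘ1 hx with h3 | h3
    · rw [h3] at hx' ⊢
      exact (hkey a z (SatV.mono Set.subset_union_left hx' g3)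
        (fun y hy hy' => g4 y (Or.inl hy) (DECV.LE.trans hy' hx'))).2
    · exact g4 x (Or.inr ⟨hx, h3⟩) hx'
  exact hmax.le_of_ge hg (Set.subset_insert _ _) (Set.mem_insert _ _)

end Pool.Agent.Work.MP_e5ffe1_gen
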