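import Pool.Agent.Work.MP_e5ffe1_gen.Interface

/-! Traces of definable sets. -/

set_option autoImplicit false

namespace Pool.Agent.Work.MP_e5ffe1_gen

open Pool.Agent.Work.MP_e5ffe1_h93 (LL zRing zOrd)
open FirstOrder FirstOrder.Language FirstOrder.Ring Encodable

attribute [local instance] zRing zOrd

theorem blk_DF1 (hN : Stmt_NUM) (hCMF : Stmt_CMF) (hSATF : Stmt_SATF) : Stmt_DF1 := by
  intro I G W m φ f hf
  obtain ⟨α, γ, hγ, h, hh, he⟩ := hCMF f hf
  let h' : Fin (m + 1) → ℕ × List ℕ × List ℕ → ℤ :=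
    Fin.snoc (α := fun _ => ℕ × List ℕ × List ℕ → ℤ) (fun i x => h i x.2) (fun x => (x.1 : ℤ))
  have h1 : ∀ i, ArG (h' i) := by
    intro i
    refine Fin.lastCases ?_ (fun j => ?_) i
    · simp only [h', Fin.snoc_last]
      exact ArG.of_primrec (hN.2.2.2.2.1.comp Primrec.fst)
    · simp only [h', Fin.snoc_castSucc]
      exact ArG.comp (hh j) (ArG.of_computable Computable.snd)
  have h2 := hSATF φ h' h1
  have h3 : ∀ x : ℕ × List ℕ × List ℕ,
      (fun i => h' i x) = (Fin.snoc (fun i => h i x.2) (x.1 : ℤ) : Fin (m + 1) → ℤ) := by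
    intro x
    funext i
    refine Fin.lastCases ?_ (fun j => ?_) i
    · simp only [h', Fin.snoc_last]
    · simp only [h', Fin.snoc_castSucc]
  simp only [h3] at h2
  refine ⟨fun n A C => φ.Realize (M := ℤ) default
    (Fin.snoc (fun i => h i (A, C)) (n : ℤ) : Fin (m + 1) → ℤ), h2, α, γ, hγ, ?_⟩
  ext n
  have h4 : ∀ ω : Om I G, (fun i => f i ω) = fun i => h i (α.map ω.1, γ.map ω.2) := by
    intro ω
    funext i
    exact he i ω
  change (∀ᶠ ω in (W : Filter (Om I G)), φ.Realize (M := ℤ) default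
      (Fin.snoc (fun i => f i ω) (n : ℤ) : Fin (m + 1) → ℤ)) ↔
    ∀ᶠ ω in (W : Filter (Om I G)), φ.Realize (M := ℤ) default
      (Fin.snoc (fun i => h i (α.map ω.1, γ.map ω.2)) (n : ℤ) : Fin (m + 1) → ℤ)
  simp only [h4]

end Pool.Agent.Work.MP_e5ffe1_gen
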