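import Pool.Agent.Work.MP_e5ffe1_gen.Interface

/-! Block DF2. -/

set_option autoImplicit false

namespace Pool.Agent.Work.MP_e5ffe1_gen

open Encodable

namespace DF2

theorem rec_prod (F : ℕ → ℕ) (k : ℕ) :
    (Nat.rec 1 (fun i r => r * F i) k : ℕ) = ∏ i ∈ Finset.range k, F i := by
  induction k with
  | zero => simp
  | succ k ih => rw [Finset.prod_range_succ, ← ih]

theorem coprime_aux {a m n : ℕ} (hmn : m < n) (h : n - m ∣ a) :
    Nat.Coprime (1 + (m + 1) * a) (1 + (n + 1) * a) := by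
  rw [Nat.coprime_iff_gcd_eq_one]
  by_contra hne
  obtain ⟨p, hp, hpd⟩ := Nat.exists_prime_and_dvd hne
  have h1 : p ∣ 1 + (m + 1) * a := hpd.trans (Nat.gcd_dvd_left _ _)
  have h2 : p ∣ 1 + (n + 1) * a := hpd.trans (Nat.gcd_dvd_right _ _)
  have h3 : p ∣ (1 + (n + 1) * a) - (1 + (m + 1) * a) := Nat.dvd_sub h2 h1
  have h4 : (1 + (n + 1) * a) - (1 + (m + 1) * a) = (n - m) * a := by
    have : n + 1 = (m + 1) + (n - m) := by omega
    rw [this, add_mul (m + 1)]
    omega
  rw [h4, hp.dvd_mul] at h3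
  have h5 : p ∣ a := by
    rcases h3 with h3 | h3
    · exact h3.trans h
    · exact h3
  have h6 : p ∣ 1 := (Nat.dvd_add_left (h5.mul_left (m + 1))).1 h1
  exact hp.one_lt.ne' (Nat.dvd_one.1 h6)

theorem dvd_iff (N : ℕ) (P : ℕ → Prop) [DecidablePred P] (n : ℕ) (hn : n < N) :
    (1 + (n + 1) * N.factorial) ∣ ∏ i ∈ Finset.range N,
      (if P i then 1 + (i + 1) * N.factorial else 1) ↔ P n := by
  constructor
  · intro h
    by_contra hP
    have h1 : Nat.Coprime (1 + (n + 1) * N.factorial) (∏ i ∈ Finset.range N,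
        (if P i then 1 + (i + 1) * N.factorial else 1)) := by
      refine Nat.Coprime.prod_right (fun i hi => ?_)
      have hi' := Finset.mem_range.1 hi
      split_ifs with h2
      · have hne : i ≠ n := by
          rintro rfl
          exact hP h2
        rcases lt_or_gt_of_ne hne with h3 | h3
        · exact (coprime_aux h3 (Nat.dvd_factorial (by omega) (by omega))).symm
        · exact coprime_aux h3 (Nat.dvd_factorial (by omega) (by omega))
      · exact Nat.coprime_one_right _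
    have h2 := Nat.Coprime.eq_one_of_dvd h1 h
    have h3 : 0 < (n + 1) * N.factorial := Nat.mul_pos (Nat.succ_pos _) (Nat.factorial_pos _)
    omega
  · intro h
    have h1 := Finset.dvd_prod_of_mem (fun i => if P i then 1 + (i + 1) * N.factorial else 1)
      (Finset.mem_range.2 hn)
    simp only [if_pos h] at h1
    exact h1

/-- the product -/
def pr (z : (List ℕ × List ℕ) × ℕ) : ℕ :=
  Nat.rec 1 (fun i r => r * (if z.2.testBit i = true then
    1 + (i + 1) * (z.1.1.headI).factorial else 1)) z.1.1.headI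

theorem pr_primrec (hN : Stmt_NUM) : Primrec pr := by
  obtain ⟨_, _, _, _, hcast, _, hpow, hbit, hfac⟩ := hN
  unfold pr
  refine Primrec.nat_rec' (f := fun z : (List ℕ × List ℕ) × ℕ => z.1.1.headI)
    (g := fun _ => 1) (h := fun z y => y.2 * (if z.2.testBit y.1 = true then
      1 + (y.1 + 1) * (z.1.1.headI).factorial else 1)) ?_ (Primrec.const 1) ?_
  · exact Primrec.list_headI.comp (Primrec.fst.comp Primrec.fst)
  · refine Primrec.nat_mul.comp (Primrec.snd.comp Primrec.snd) ?_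
    refine Primrec.ite ?_ ?_ (Primrec.const 1)
    · exact PrimrecRel.comp Primrec.eq
        (hbit.comp (Primrec.snd.comp Primrec.fst) (Primrec.fst.comp Primrec.snd))
        (Primrec.const true)
    · refine Primrec.nat_add.comp (Primrec.const 1) (Primrec.nat_mul.comp
        (Primrec.nat_add.comp (Primrec.fst.comp Primrec.snd) (Primrec.const 1)) ?_)
      exact hfac.comp (Primrec.list_headI.comp (Primrec.fst.comp (Primrec.fst.comp Primrec.fst)))

open Classical in
/-- the code of the set -/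
noncomputable def bits (t : Task) (y : List ℕ × List ℕ) : ℕ :=
  Nat.ofBits (n := y.1.headI) (fun i => decide (t i y.1.tail y.2))

theorem bits_lt (t : Task) (y : List ℕ × List ℕ) : bits t y < 2 ^ y.1.headI :=
  Nat.ofBits_lt_two_pow _

theorem testBit_bits (t : Task) (y : List ℕ × List ℕ) (i : ℕ) (hi : i < y.1.headI) :
    ((bits t y).testBit i = true ↔ t i y.1.tail y.2) := by
  unfold bits
  rw [Nat.testBit_ofBits_lt _ _ hi]
  simp

theorem bits_arg (hN : Stmt_NUM) {t : Task} (ht : IsT t) : ArG (bits t) := by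
  obtain ⟨_, _, _, _, hcast, _, hpow, hbit, hfac⟩ := hN
  have h1 : PS Ari (fun x : (List ℕ × List ℕ) × ℕ => x.2 < 2 ^ x.1.1.headI) :=
    PS.primrec idl_ari (PrimrecRel.comp Primrec.nat_lt Primrec.snd
      (hpow.comp (Primrec.const 2) (Primrec.list_headI.comp (Primrec.fst.comp Primrec.fst))))
  have h2 : PS Ari (fun x : ((List ℕ × List ℕ) × ℕ) × ℕ => x.1.2.testBit x.2 = true) :=
    PS.computable idl_ari (hbit.comp (Primrec.snd.comp Primrec.fst) Primrec.snd).to_comp
  have h3 : PS Ari (fun x : ((List ℕ × List ℕ) × ℕ) × ℕ => t x.2 x.1.1.1.tail x.1.1.2) :=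
    PS.comp idl_ari (f := fun x : ((List ℕ × List ℕ) × ℕ) × ℕ => (x.2, x.1.1.1.tail, x.1.1.2)) ht
      (Primrec.snd.pair ((Primrec.list_tail.comp
        (Primrec.fst.comp (Primrec.fst.comp Primrec.fst))).pair
        (Primrec.snd.comp (Primrec.fst.comp Primrec.fst)))).to_comp
  have h4 := PS.ball idl_ari (p := fun (x : (List ℕ × List ℕ) × ℕ) i =>
    (x.2.testBit i = true ↔ t i x.1.1.tail x.1.2)) (PS.iff idl_ari h2 h3)
    (f := fun x => x.1.1.headI) (Primrec.list_headI.comp (Primrec.fst.comp Primrec.fst)).to_comp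
  refine ArG.of_unique (p := fun y m => m < 2 ^ y.1.headI ∧ ∀ i < y.1.headI,
    (m.testBit i = true ↔ t i y.1.tail y.2)) (PS.and idl_ari h1 h4) (fun y m => ?_)
  constructor
  · rintro ⟨h5, h6⟩
    apply Nat.eq_of_testBit_eq
    intro i
    by_cases hi : i < y.1.headI
    · rw [Bool.eq_iff_iff, h6 i hi, testBit_bits t y i hi]
    · have h7 : 2 ^ y.1.headI ≤ 2 ^ i := Nat.pow_le_pow_right (by norm_num) (not_lt.1 hi)
      rw [Nat.testBit_lt_two_pow (lt_of_lt_of_le h5 h7),
        Nat.testBit_lt_two_pow (lt_of_lt_of_le (bits_lt t y) h7)]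
  · rintro rfl
    exact ⟨bits_lt t y, fun i hi => testBit_bits t y i hi⟩

end DF2

theorem blk_DF2 (hN : Stmt_NUM) : Stmt_DF2 := by
  classical
  intro I G W x hx X hX
  obtain ⟨t, ht, α, γ, hγ, rfl⟩ := hX
  have hcast : Primrec (fun n : ℕ => (n : ℤ)) := hN.2.2.2.2.1
  have hfac : Primrec Nat.factorial := hN.2.2.2.2.2.2.2.2
  let d : List ℕ × List ℕ → ℤ := fun y => ((y.1.headI).factorial : ℤ)
  let e : List ℕ × List ℕ → ℤ := fun y => (DF2.pr (y, DF2.bits t y) : ℤ)
  have hd : ArG d := ArG.of_primrec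
    (hcast.comp (hfac.comp (Primrec.list_headI.comp Primrec.fst)))
  have he : ArG e := by
    have h1 : ArG (fun z : (List ℕ × List ℕ) × ℕ => (DF2.pr z : ℤ)) :=
      ArG.of_primrec (hcast.comp (DF2.pr_primrec hN))
    exact ArG.comp h1 (ArG.pair (ArG.of_primrec Primrec.id) (DF2.bits_arg hN ht))
  refine ⟨fun ω => d ((x :: α).map ω.1, γ.map ω.2), ⟨x :: α, γ, d, hγ, hd, fun _ => rfl⟩,
    fun ω => e ((x :: α).map ω.1, γ.map ω.2), ⟨x :: α, γ, e, hγ, he, fun _ => rfl⟩, fun n => ?_⟩
  refine Filter.eventually_congr ?_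
  refine (hx (n + 1)).mono (fun ω hω => ?_)
  have h1 : n < ((x :: α).map ω.1).headI := by
    simp only [List.map_cons, List.headI_cons]
    omega
  have h2 := DF2.dvd_iff ((x :: α).map ω.1).headI
    (fun i => (DF2.bits t ((x :: α).map ω.1, γ.map ω.2)).testBit i = true) n h1
  rw [DF2.testBit_bits t ((x :: α).map ω.1, γ.map ω.2) n h1] at h2
  have h3 : ((x :: α).map ω.1).tail = α.map ω.1 := by simp
  rw [← h3]
  refine h2.symm.trans ?_
  have h4 : DF2.pr (((x :: α).map ω.1, γ.map ω.2), DF2.bits t ((x :: α).map ω.1, γ.map ω.2)) =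
      ∏ i ∈ Finset.range ((x :: α).map ω.1).headI,
        (if (DF2.bits t ((x :: α).map ω.1, γ.map ω.2)).testBit i = true then
          1 + (i + 1) * (((x :: α).map ω.1).headI).factorial else 1) := by
    unfold DF2.pr
    exact DF2.rec_prod _ _
  rw [← h4]
  show _ ↔ (1 + ((n : ℤ) + 1) * ((((x :: α).map ω.1).headI).factorial : ℤ)) ∣
    ((DF2.pr (((x :: α).map ω.1, γ.map ω.2),
      DF2.bits t ((x :: α).map ω.1, γ.map ω.2)) : ℕ) : ℤ)
  rw [← Int.natCast_dvd_natCast]
  push_cast
  exact Iff.rfl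

end Pool.Agent.Work.MP_e5ffe1_gen
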