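import Pool.Agent.Work.MP_e5ffe1_gen.Calc
import Pool.Agent.Work.MP_e5ffe1_lc_helper93.Model
import Pool.Agent.Work.MP_e5ffe1_lc_helper93.Arith

/-!
Definitions for Theorem K: promises, tasks, codes.
-/

set_option autoImplicit false

namespace Pool.Agent.Work.MP_e5ffe1_gen

open Pool.Agent.Work.MP_e5ffe1_h93 (le J LL zRing zOrd)
open Encodable

/-- arithmetical sets: members of all closed families -/
def Ari : Set (Set ℕ) := {X | ∀ S, Cl S → X ∈ S}

/-- labels: finite pieces of reals -/
abbrev Str := List Bool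

/-! ## Promises -/

/-- A promise about the values `a : I → ℕ` of the `a`-variables and the values of the
`c`-variables: for all tuples of distinct `c`-variables whose labels extend `p`, the predicate `φ`
holds. -/
structure Prom (I : Type) where
  p : List Str
  φ : (I → ℕ) → List ℕ → Prop

/-- `a`, `z` keep the promises in `P` for the `c`-variables in `ι` with labels `s` -/
def Sat {I ι : Type} (P : Set (Prom I)) (s : ι → Str) (a : I → ℕ) (z : ι → ℕ) : Prop :=
  ∀ π ∈ P, ∀ i : List ι, i.Nodup → List.Forall₂ (fun p l => p <+: s l) π.p i → π.φ a (i.map z)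

/-- finitely many promises can be kept for finitely many `c`-variables with any labels -/
def Cons {I : Type} (P : Set (Prom I)) : Prop :=
  ∀ P0 : Set (Prom I), P0 ⊆ P → P0.Finite → ∀ (n : ℕ) (s : Fin n → Str),
    ∃ (a : I → ℕ) (z : Fin n → ℕ), Sat P0 s a z

/-- `π` depends only on the `a`-variables in `K` -/
def DepOn {I : Type} (K : Set I) (π : Prom I) : Prop :=
  ∀ a a' : I → ℕ, (∀ y ∈ K, a y = a' y) → ∀ c, π.φ a c → π.φ a' c

/-! ## Tasks -/

/-- A task: `t j A C` is the literal number `j` for the values `A` of some `a`-variables and the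
values `C` of some `c`-variables. -/
abbrev Task := ℕ → List ℕ → List ℕ → Prop

/-- arithmetical tasks -/
def IsT (t : Task) : Prop := PS Ari (fun x : ℕ × List ℕ × List ℕ => t x.1 x.2.1 x.2.2)

/-- number of a literal, labels, truth value -/
abbrev Code := ℕ × List Str × Bool

/-- the promise of a code for the task `q.1` with the `a`-variables `q.2` -/
def prom {I : Type} (q : Task × List I) (x : Code) : Prom I :=
  ⟨x.2.1, fun a c => (q.1 x.1 (q.2.map a) c ↔ x.2.2 = true)⟩

/-- the promises of the codes in `D` -/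
def promS {I : Type} (q : Task × List I) (D : Set ℕ) : Set (Prom I) :=
  {π | ∃ x : Code, encode x ∈ D ∧ π = prom q x}

/-- the promises of the codes in the list `F` -/
def promL {I : Type} (q : Task × List I) (F : List Code) : Set (Prom I) :=
  {π | ∃ x ∈ F, π = prom q x}

/-- componentwise extension of labels -/
abbrev Ext (μ ν : List Str) : Prop := List.Forall₂ (fun p q => p <+: q) μ ν

/-- every literal is decided densely by the codes in `D` -/
def Dns (D : Set ℕ) : Prop :=
  ∀ (j : ℕ) (μ : List Str), ∃ (ν : List Str) (b : Bool), Ext μ ν ∧ encode ((j, ν, b) : Code) ∈ D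

/-- the arithmetical tasks with `a`-variables in `K` are decided by `P`, with codes in `S` -/
def Dcd {I : Type} (S : Set (Set ℕ)) (K : Set I) (P : Set (Prom I)) : Prop :=
  ∀ t, IsT t → ∀ α : List I, (∀ y ∈ α, y ∈ K) → ∃ D ∈ S, promS (t, α) D ⊆ P ∧ Dns D

/-! ## The tasks of the steps -/

/-- number of a literal, places of `c`-values, truth value -/
abbrev Lit := ℕ × List ℕ × Bool

/-- some `w` satisfies the literals in the list number `m` -/
def th (t : Task) : Task := fun m A C =>
  ∃ w : ℕ, ∀ y ∈ ((decode m : Option (List Lit)).getD []),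
    (t y.1 (w :: A) (y.2.1.map (fun i => C.getD i 0)) ↔ y.2.2 = true)

/-- join of two tasks, for the lists `x :: β` and `x :: β'` with `n = |β|` -/
def jn (n : ℕ) (t t' : Task) : Task := fun j A C =>
  if j % 2 = 0 then t (j / 2) (A.take (n + 1)) C
  else t' (j / 2) (A.take 1 ++ A.drop (n + 1)) C

/-- The literal `y` is an instance, for variables with labels `μ`, of a code in `D` or `F`. -/
def Inst (D : Set ℕ) (F : List Code) (μ : List Str) (y : Lit) : Prop :=
  y.2.1.Nodup ∧ ∃ p : List Str,
    (encode ((y.1, p, y.2.2) : Code) ∈ D ∨ ((y.1, p, y.2.2) : Code) ∈ F) ∧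
    List.Forall₂ (fun (q : Str) (i : ℕ) => i < μ.length ∧ q <+: μ.getD i []) p y.2.1

/-- bits and size of the first `a`-value -/
def tb : Task := fun m A _ =>
  if m % 2 = 0 then (A.headD 0).testBit (m / 2) = true else m / 2 ≤ A.headD 0

/-- bits and size of the first `c`-value -/
def tc : Task := fun m _ C =>
  if m % 2 = 0 then (C.headD 0).testBit (m / 2) = true else m / 2 ≤ C.headD 0

/-- the bits of the `a`-value form the set `X`, and it is infinite -/
def eb (X : Set ℕ) : Set ℕ := {n | ∃ x : Code, encode x = n ∧ x.2.1 = [] ∧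
  ((x.1 % 2 = 0 ∧ (x.2.2 = true ↔ x.1 / 2 ∈ X)) ∨ (x.1 % 2 = 1 ∧ x.2.2 = true))}

/-- the bits of the `c`-value are as in its label, and it is at least the length of the label -/
def ec : Set ℕ := {n | ∃ x : Code, encode x = n ∧ ∃ s : Str, x.2.1 = [s] ∧ x.1 / 2 < s.length ∧
  ((x.1 % 2 = 0 ∧ x.2.2 = s.getD (x.1 / 2) false) ∨ (x.1 % 2 = 1 ∧ x.2.2 = true))}

/-! ## Generic reals -/

/-- `p` is a finite piece of the real `g` -/
def pre (p : Str) (g : ℕ → Bool) : Prop := p = (List.range p.length).map g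

/-- `G` is a set of mutually Cohen-generic reals over `S`: every tuple of distinct members of `G`
meets all dense sets of finite conditions (tuples of finite strings) coded in `S`. -/
def MutGen (S : Set (Set ℕ)) (G : Set (ℕ → Bool)) : Prop :=
  ∀ γ : List (ℕ → Bool), γ.Nodup → (∀ g ∈ γ, g ∈ G) → ∀ D ∈ S,
    (∀ μ : List (List Bool), μ.length = γ.length →
      ∃ ν, List.Forall₂ (fun p q => p <+: q) μ ν ∧ encode ν ∈ D) →
    ∃ ν : List (List Bool), List.Forall₂ pre ν γ ∧ encode ν ∈ D

/-- the assignments -/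
abbrev Om (I : Type) (G : Set (ℕ → Bool)) : Type := (I → ℕ) × (G → ℕ)

/-- the set of the numbers of the true literals -/
def trc {I : Type} {G : Set (ℕ → Bool)} (W : Ultrafilter (Om I G)) (t : Task) (α : List I)
    (γ : List G) : Set ℕ :=
  {j | ∀ᶠ ω in (W : Filter (Om I G)), t j (α.map ω.1) (γ.map ω.2)}

/-- the family of these sets -/
def Trc {I : Type} {G : Set (ℕ → Bool)} (W : Ultrafilter (Om I G)) : Set (Set ℕ) :=
  {X | ∃ t, IsT t ∧ ∃ (α : List I) (γ : List G), γ.Nodup ∧ X = trc W t α γ}

/-- all promises in `P` are kept -/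
def Kept {I : Type} {G : Set (ℕ → Bool)} (W : Ultrafilter (Om I G)) (P : Set (Prom I)) : Prop :=
  ∀ π ∈ P, ∀ γ : List G, γ.Nodup → List.Forall₂ (fun p (g : G) => pre p g.1) π.p γ →
    ∀ᶠ ω in (W : Filter (Om I G)), π.φ ω.1 (γ.map ω.2)

/-! ## The models -/

/-- graph given by an arithmetical set -/
def ArG {α β : Type} [Primcodable α] [Primcodable β] (h : α → β) : Prop :=
  PS Ari (fun x : α × β => h x.1 = x.2)

section

attribute [local instance] zRing zOrd

/-- a class of integer functions closed under the ring operations and choice functions -/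
structure SkC {Ω : Type} (F : Set (Ω → ℤ)) : Prop where
  zero : (fun _ => 0) ∈ F
  one : (fun _ => 1) ∈ F
  neg : ∀ f ∈ F, (fun ω => - f ω) ∈ F
  add : ∀ f ∈ F, ∀ g ∈ F, (fun ω => f ω + g ω) ∈ F
  mul : ∀ f ∈ F, ∀ g ∈ F, (fun ω => f ω * g ω) ∈ F
  sk : ∀ (m : ℕ) (φ : LL.BoundedFormula Empty (m + 1)) (f : Fin m → Ω → ℤ), (∀ i, f i ∈ F) →
    ∃ h ∈ F, ∀ ω, (∃ y : ℤ, φ.Realize (M := ℤ) default (Fin.snoc (fun i => f i ω) y)) →
      φ.Realize (M := ℤ) default (Fin.snoc (fun i => f i ω) (h ω))

/-- the functions with arithmetical definitions -/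
def Fn (I : Type) (G : Set (ℕ → Bool)) : Set (Om I G → ℤ) :=
  {f | ∃ (α : List I) (γ : List G) (h : List ℕ × List ℕ → ℤ), γ.Nodup ∧ ArG h ∧
    ∀ ω, f ω = h (α.map ω.1, γ.map ω.2)}

end

end Pool.Agent.Work.MP_e5ffe1_gen
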