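import Pool.Agent.Work.MP_e5ffe1_gen.Interface

/-! Block EBC: the codes of the bits are in every ideal. -/

set_option autoImplicit false

namespace Pool.Agent.Work.MP_e5ffe1_gen

open Encodable

namespace EBC

theorem num : Computable (fun x : Code => x.1) := Computable.fst

theorem lab : Computable (fun x : Code => x.2.1) := Computable.fst.comp Computable.snd

theorem val : Computable (fun x : Code => x.2.2) := Computable.snd.comp Computable.snd

theorem half : Computable (fun x : Code => x.1 / 2) :=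
  (Primrec.nat_div.comp Primrec.fst (Primrec.const 2)).to_comp

theorem par : Computable (fun x : Code => x.1 % 2) :=
  (Primrec.nat_mod.comp Primrec.fst (Primrec.const 2)).to_comp

theorem hd : Primrec (fun x : Code => x.2.1.getD 0 []) :=
  (Primrec.list_getD []).comp (Primrec.fst.comp Primrec.snd) (Primrec.const 0)

theorem ec_mem {S : Set (Set ℕ)} (hS : Idl S) : ec ∈ S := by
  have h1 : PS S (fun x : Code => x.2.1 = [x.2.1.getD 0 []]) :=
    PS.eq hS lab (Primrec.list_cons.comp hd (Primrec.const [])).to_comp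
  have h2 : PS S (fun x : Code => x.1 / 2 < (x.2.1.getD 0 []).length) :=
    PS.primrec hS (PrimrecRel.comp Primrec.nat_lt
      (Primrec.nat_div.comp Primrec.fst (Primrec.const 2)) (Primrec.list_length.comp hd))
  have h3 : PS S (fun x : Code => x.1 % 2 = 0) := PS.eq hS par (Computable.const 0)
  have h4 : PS S (fun x : Code => x.1 % 2 = 1) := PS.eq hS par (Computable.const 1)
  have h5 : PS S (fun x : Code => x.2.2 = (x.2.1.getD 0 []).getD (x.1 / 2) false) :=
    PS.eq hS val ((Primrec.list_getD false).comp hd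
      (Primrec.nat_div.comp Primrec.fst (Primrec.const 2))).to_comp
  have h6 : PS S (fun x : Code => x.2.2 = true) := PS.eq hS val (Computable.const true)
  have h7 := PS.toSet' hS (PS.and hS h1 (PS.and hS h2 (PS.or hS (PS.and hS h3 h5)
    (PS.and hS h4 h6))))
  have h8 : ec = {n | ∃ x : Code, encode x = n ∧ (x.2.1 = [x.2.1.getD 0 []] ∧
      (x.1 / 2 < (x.2.1.getD 0 []).length ∧
      ((x.1 % 2 = 0 ∧ x.2.2 = (x.2.1.getD 0 []).getD (x.1 / 2) false) ∨
        (x.1 % 2 = 1 ∧ x.2.2 = true))))} := by
    ext n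
    constructor
    · rintro ⟨x, hx, s, hs, hlt, hr⟩
      have hg : x.2.1.getD 0 [] = s := by rw [hs]; rfl
      refine ⟨x, hx, ?_, ?_, ?_⟩
      · rw [hg]; exact hs
      · rw [hg]; exact hlt
      · rw [hg]; exact hr
    · rintro ⟨x, hx, hs, hlt, hr⟩
      exact ⟨x, hx, _, hs, hlt, hr⟩
  rw [h8]
  exact h7

theorem eb_mem {S : Set (Set ℕ)} (hS : Idl S) {X : Set ℕ} (hX : X ∈ S) : eb X ∈ S := by
  have h1 : PS S (fun x : Code => x.2.1 = []) := PS.eq hS lab (Computable.const [])
  have h3 : PS S (fun x : Code => x.1 % 2 = 0) := PS.eq hS par (Computable.const 0)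
  have h4 : PS S (fun x : Code => x.1 % 2 = 1) := PS.eq hS par (Computable.const 1)
  have h5 : PS S (fun x : Code => x.1 / 2 ∈ X) := PS.comp hS (PS.mem hX) half
  have h6 : PS S (fun x : Code => x.2.2 = true) := PS.eq hS val (Computable.const true)
  have h7 := PS.toSet' hS (PS.and hS h1 (PS.or hS (PS.and hS h3 (PS.iff hS h6 h5))
    (PS.and hS h4 h6)))
  exact h7

end EBC

theorem blk_EBC : Stmt_EBC := fun _ hS => ⟨EBC.ec_mem hS, fun _ hX => EBC.eb_mem hS hX⟩

end Pool.Agent.Work.MP_e5ffe1_gen
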