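import Pool.Agent.Work.MP_e5ffe1_gen.Interface
import Pool.Agent.Work.MP_e5ffe1_gen.COMP

/-! # Block EXT: deciding a predicate of the variables by extending the labels -/

set_option autoImplicit false

namespace Pool.Agent.Work.MP_e5ffe1_gen

open Cardinal

namespace EXT

lemma prefix_eq {a b s : Str} (ha : a <+: s) (hb : b <+: s) (h : a.length = b.length) : a = b := by
  rw [List.prefix_iff_eq_take.1 ha, List.prefix_iff_eq_take.1 hb, h]

/-- pairwise incomparable extensions -/
lemma incomp (μ : List Str) : ∃ μ' : Fin μ.length → Str, (∀ l, μ.get l <+: μ' l) ∧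
    ∀ l l' s, μ' l <+: s → μ' l' <+: s → l = l' := by
  obtain ⟨L, hL⟩ : ∃ L, ∀ l : Fin μ.length, (μ.get l).length ≤ L := by
    refine ⟨Finset.univ.sup (fun l : Fin μ.length => (μ.get l).length), fun l => ?_⟩
    exact Finset.le_sup (f := fun l : Fin μ.length => (μ.get l).length) (Finset.mem_univ l)
  refine ⟨fun l => (μ.get l ++ List.replicate (L - (μ.get l).length) false) ++
    List.ofFn (fun k : Fin μ.length => decide (k = l)), fun l => ?_, fun l l' s h1 h2 => ?_⟩
  · beta_reduce
    rw [List.append_assoc]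
    exact List.prefix_append _ _
  · have hlen : ∀ l : Fin μ.length,
        (μ.get l ++ List.replicate (L - (μ.get l).length) false).length = L := by
      intro l
      rw [List.length_append, List.length_replicate]
      have := hL l
      omega
    beta_reduce at h1 h2
    have h3 := prefix_eq h1 h2 (by
      rw [List.length_append, hlen, List.length_append (bs := List.ofFn _), hlen,
        List.length_ofFn, List.length_ofFn])
    have h4 := (List.append_inj h3 (by rw [hlen, hlen])).2
    have h5 := congrFun (List.ofFn_injective h4) l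
    simp only [decide_true] at h5
    exact of_decide_eq_true h5.symm

lemma main {I T : Type} [Infinite T] {d : ℕ} (P : Set (Prom I))
    (Θ : Set ((((Fin d × T) ⊕ T) → Option Str) ×
      ((I → ℕ) → (((Fin d × T) ⊕ T) → ℕ) → Prop)))
    (hΘ : ∀ P0, P0 ⊆ P → P0.Finite → ∀ Θ0, Θ0 ⊆ Θ → Θ0.Finite → ∀ σ, FinS σ →
        ∃ a z, SatV P0 σ a z ∧ ∀ x ∈ Θ0, LE x.1 σ → x.2 a z)
    (ν : Fin d → Str) (hν : ∀ l l' s, ν l <+: s → ν l' <+: s → l = l')
    (h : Fin d → ℕ → T) (hh : ∀ i, Function.Injective (h i))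
    (τ : (Fin d → ℕ) → ((Fin d × T) ⊕ T) → Option Str) (hfin : ∀ n, FinS (τ n))
    (hcomp : ∀ n m v x y, τ n v = some x → τ m v = some y → x = y)
    (hflag : ∀ n l k x, τ n (Sum.inl (l, h l k)) = some x → x = ν l ∧ n l = k)
    (ψ : (I → ℕ) → List ℕ → Prop)
    (hmem : ∀ n, (τ n, fun a z => ψ a (List.ofFn fun l => z (Sum.inl (l, h l (n l))))) ∈ Θ) :
    Cons (insert ⟨List.ofFn ν, ψ⟩ P) := by
  classical
  intro P0 hP0 hP0f N s
  -- fresh points
  set B : Set T := {x | ∃ m : Fin d → Fin N, τ (fun l => (m l : ℕ)) (Sum.inr x) ≠ none} with hB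
  have hBf : B.Finite := by
    have h1 : B = ⋃ m : Fin d → Fin N,
        Sum.inr ⁻¹' {v | τ (fun l => (m l : ℕ)) v ≠ none} := by
      ext x; simp [hB]
    rw [h1]
    exact Set.finite_iUnion (fun m => (hfin _).preimage (Sum.inr_injective.injOn))
  have hBi : (Bᶜ).Infinite := hBf.infinite_compl
  let x : ℕ ↪ (Bᶜ : Set T) := hBi.natEmbedding
  let e : Fin N → (Fin d × T) ⊕ T := fun i =>
    if q : ∃ l, ν l <+: s i then Sum.inl (q.choose, h q.choose i) else Sum.inr (x i).1
  have e1 : ∀ i l, ν l <+: s i → e i = Sum.inl (l, h l i) := by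
    intro i l hl
    have q : ∃ l, ν l <+: s i := ⟨l, hl⟩
    have h2 : q.choose = l := hν _ _ _ q.choose_spec hl
    show (if q : ∃ l, ν l <+: s i then Sum.inl (q.choose, h q.choose i) else Sum.inr (x i).1) = _
    rw [dif_pos q, h2]
  have e2 : ∀ i, (¬ ∃ l, ν l <+: s i) → e i = Sum.inr (x i).1 := by
    intro i q
    show (if q : ∃ l, ν l <+: s i then Sum.inl (q.choose, h q.choose i) else Sum.inr (x i).1) = _
    rw [dif_neg q]
  have einj : Function.Injective e := by
    intro i j hij
    by_cases qi : ∃ l, ν l <+: s i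
    · obtain ⟨l, hl⟩ := qi
      rw [e1 i l hl] at hij
      by_cases qj : ∃ l, ν l <+: s j
      · obtain ⟨l', hl'⟩ := qj
        rw [e1 j l' hl'] at hij
        have h3 := Sum.inl_injective hij
        have h4 : l = l' := congrArg Prod.fst h3
        subst h4
        have h5 : h l i = h l j := congrArg Prod.snd h3
        exact Fin.ext (hh l h5)
      · rw [e2 j qj] at hij
        exact absurd hij Sum.inl_ne_inr
    · rw [e2 i qi] at hij
      by_cases qj : ∃ l, ν l <+: s j
      · obtain ⟨l', hl'⟩ := qj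
        rw [e1 j l' hl'] at hij
        exact absurd hij Sum.inr_ne_inl
      · rw [e2 j qj] at hij
        have h3 := Sum.inr_injective hij
        exact Fin.ext (x.injective (Subtype.ext h3))
  -- the labelling
  let g : (Fin d → Fin N) → ((Fin d × T) ⊕ T) → Option Str := fun m => τ (fun l => (m l : ℕ))
  let σ : ((Fin d × T) ⊕ T) → Option Str := fun v =>
    if q : ∃ i, e i = v then some (s q.choose) else COMP.un g v
  have s1 : ∀ i, σ (e i) = some (s i) := by
    intro i
    have q : ∃ j, e j = e i := ⟨i, rfl⟩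
    have h2 : q.choose = i := einj q.choose_spec
    show (if q : ∃ j, e j = e i then some (s q.choose) else COMP.un g (e i)) = _
    rw [dif_pos q, h2]
  have s2 : ∀ v, (¬ ∃ i, e i = v) → σ v = COMP.un g v := by
    intro v q
    show (if q : ∃ i, e i = v then some (s q.choose) else COMP.un g v) = _
    rw [dif_neg q]
  have hσf : FinS σ := by
    have h1 : {v | σ v ≠ none} ⊆ Set.range e ∪ ⋃ m, {v | g m v ≠ none} := by
      intro v hv
      by_cases q : ∃ i, e i = v
      · exact Or.inl q
      · right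
        apply COMP.un_dom g
        show COMP.un g v ≠ none
        rw [← s2 v q]
        exact hv
    exact ((Set.finite_range e).union (Set.finite_iUnion (fun m => hfin _))).subset h1
  have hLE : ∀ m : Fin d → Fin N, LE (g m) σ := by
    intro m v y hv
    by_cases q : ∃ i, e i = v
    · obtain ⟨i, rfl⟩ := q
      refine ⟨s i, s1 i, ?_⟩
      by_cases qi : ∃ l, ν l <+: s i
      · obtain ⟨l, hl⟩ := qi
        rw [e1 i l hl] at hv
        have h2 := (hflag _ l i y hv).1
        rw [h2]; exact hl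
      · rw [e2 i qi] at hv
        exfalso
        apply (x i).2
        exact ⟨m, by
          show g m _ ≠ none
          rw [hv]; exact Option.some_ne_none y⟩
    · refine ⟨y, ?_, List.prefix_rfl⟩
      rw [s2 v q]
      exact COMP.un_eq g (fun n m v x y h1 h2 => hcomp _ _ v x y h1 h2) m v y hv
  obtain ⟨a, z, hz, hzΘ⟩ := hΘ (P0 ∩ P) Set.inter_subset_right (hP0f.inter_of_left _)
    (Set.range (fun m : Fin d → Fin N => (g m,
      fun (a : I → ℕ) (z : ((Fin d × T) ⊕ T) → ℕ) =>
        ψ a (List.ofFn fun l => z (Sum.inl (l, h l (m l)))))))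
    (by rintro _ ⟨m, rfl⟩; exact hmem _) (Set.finite_range _) σ hσf
  refine ⟨a, fun i => z (e i), ?_⟩
  intro π hπ i hi hp
  by_cases hπP : π ∈ P
  · have h1 := hz π ⟨hπ, hπP⟩ (i.map e) (hi.map einj) (by
      rw [List.forall₂_map_right_iff]
      exact hp.imp (fun p l hpl => ⟨s l, s1 l, hpl⟩))
    rw [List.map_map] at h1
    exact h1
  · have h1 : π = ⟨List.ofFn ν, ψ⟩ := by
      rcases Set.mem_insert_iff.1 (hP0 hπ) with h2 | h2
      · exact h2
      · exact absurd h2 hπP
    subst h1
    have hp' : List.Forall₂ (fun (p : Str) l => p <+: s l) (List.ofFn ν) i := hp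
    have h2 := List.forall₂_iff_get.1 hp'
    have hlen : i.length = d := by rw [← h2.1, List.length_ofFn]
    let m : Fin d → Fin N := fun l => i.get ⟨l.1, by rw [hlen]; exact l.2⟩
    have hm : ∀ l, ν l <+: s (m l) := by
      intro l
      have h3 := h2.2 l.1 (by rw [List.length_ofFn]; exact l.2) (by rw [hlen]; exact l.2)
      rw [List.get_ofFn] at h3
      exact h3
    have h3 := hzΘ _ ⟨m, rfl⟩ (hLE m)
    have h4 : i.map (fun i => z (e i)) = List.ofFn fun l => z (Sum.inl (l, h l (m l))) := by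
      apply List.ext_get
      · rw [List.length_map, List.length_ofFn, hlen]
      · intro k hk1 hk2
        rw [List.length_ofFn] at hk2
        rw [List.get_ofFn]
        simp only [List.get_eq_getElem, List.getElem_map]
        have h5 := e1 (m ⟨k, hk2⟩) ⟨k, hk2⟩ (hm ⟨k, hk2⟩)
        have h6 : m ⟨k, hk2⟩ = i[k] := rfl
        rw [← h6, h5]
        rfl
    show ψ a (i.map fun i => z (e i))
    rw [h4]
    exact h3

end EXT

open EXT in
theorem blk_EXT (hCOMP : Stmt_COMP) (hDECV : Stmt_DECV) : Stmt_EXT := by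
  classical
  intro I P hP ψ μ
  obtain ⟨μ', hμ1, hμ2⟩ := incomp μ
  obtain ⟨κ, hκ⟩ := hCOMP μ.length
  let T : Type := (max κ ℵ₀).out
  have hT : #T = max κ ℵ₀ := Cardinal.mk_out _
  have : Infinite T := Cardinal.infinite_iff.2 (by rw [hT]; exact le_max_right _ _)
  let V : Type := (Fin μ.length × T) ⊕ T
  obtain ⟨Θ, hΘ1, hΘ2⟩ := hDECV (I := I) (V := V) P hP
  let σ0 : (Fin μ.length → T) → V → Option Str := fun t v =>
    match v with
    | Sum.inl y => if y.2 = t y.1 then some (μ' y.1) else none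
    | Sum.inr _ => none
  have hσ0 : ∀ t, FinS (σ0 t) := by
    intro t
    refine (Set.finite_range (fun l : Fin μ.length => (Sum.inl (l, t l) : V))).subset ?_
    rintro (⟨l, y⟩ | y) hv
    · have h1 : y = t l := by
        by_contra h2
        exact hv (if_neg h2)
      exact ⟨l, by rw [h1]⟩
    · exact absurd rfl hv
  have h1 : ∀ t : Fin μ.length → T, ∃ σ' : V → Option Str, ∃ b : Bool, LE (σ0 t) σ' ∧ FinS σ' ∧
      (b = true → (σ', fun a z => ψ a (List.ofFn fun l => z (Sum.inl (l, t l)))) ∈ Θ) ∧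
      (b = false → (σ', fun a z => ¬ ψ a (List.ofFn fun l => z (Sum.inl (l, t l)))) ∈ Θ) := by
    intro t
    obtain ⟨σ', g1, g2, g3⟩ := hΘ2 (σ0 t) (hσ0 t)
      (fun a z => ψ a (List.ofFn fun l => z (Sum.inl (l, t l))))
    rcases g3 with g3 | g3
    · exact ⟨σ', true, g1, g2, fun _ => g3, fun h => absurd h (by decide)⟩
    · exact ⟨σ', false, g1, g2, fun h => absurd h (by decide), fun _ => g3⟩
  choose σ b hσ1 hσ2 hσ3 hσ4 using h1
  let C : Type := (Bool × List Str) ⊕ (Str × Bool)
  let f : (Fin μ.length → T) → Option V → Option C := fun t v =>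
    match v with
    | none => some (Sum.inl (b t, List.ofFn fun l => (σ t (Sum.inl (l, t l))).getD []))
    | some v => (σ t v).map (fun x => Sum.inr (x, decide (∃ l, v = Sum.inl (l, t l))))
  obtain ⟨h, hh, hc⟩ := hκ T (Option V) C f (by rw [hT]; exact le_max_left _ _)
    ((Cardinal.mk_le_aleph0 (α := C)).trans Cardinal.aleph0_le_continuum) (by
      intro t
      refine Set.Finite.countable ?_
      refine ((Set.finite_singleton (none : Option V)).union ((hσ2 t).image some)).subset ?_
      rintro (_ | v) hv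
      · exact Or.inl rfl
      · refine Or.inr ⟨v, fun h0 => hv ?_, rfl⟩
        show (σ t v).map _ = none
        rw [h0]
        rfl)
  have hA : ∀ n m : Fin μ.length → ℕ, b (fun i => h i (n i)) = b (fun i => h i (m i)) ∧
      ∀ l, (σ (fun i => h i (n i)) (Sum.inl (l, h l (n l)))).getD [] =
        (σ (fun i => h i (m i)) (Sum.inl (l, h l (m l)))).getD [] := by
    intro n m
    have g := Sum.inl_injective (hc n m none _ _ rfl rfl)
    exact ⟨congrArg Prod.fst g, fun l => congrFun (List.ofFn_injective (congrArg Prod.snd g)) l⟩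
  have hB : ∀ (n m : Fin μ.length → ℕ) (v : V) (x y : Str), σ (fun i => h i (n i)) v = some x →
      σ (fun i => h i (m i)) v = some y → x = y ∧
      ((∃ l, v = Sum.inl (l, h l (m l))) → ∃ l, v = Sum.inl (l, h l (n l))) := by
    intro n m v x y g1 g2
    have g := Sum.inr_injective (hc n m (some v)
      (Sum.inr (x, decide (∃ l, v = Sum.inl (l, h l (n l)))))
      (Sum.inr (y, decide (∃ l, v = Sum.inl (l, h l (m l)))))
      (by show (σ _ v).map _ = _; rw [g1]; rfl) (by show (σ _ v).map _ = _; rw [g2]; rfl))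
    refine ⟨congrArg Prod.fst g, fun g3 => ?_⟩
    have g4 : decide (∃ l, v = Sum.inl (l, h l (n l))) = decide (∃ l, v = Sum.inl (l, h l (m l))) :=
      congrArg Prod.snd g
    rw [decide_eq_true g3] at g4
    exact of_decide_eq_true g4
  let ν : Fin μ.length → Str := fun l =>
    (σ (fun i => h i 0) (Sum.inl (l, h l 0))).getD []
  have hval : ∀ (n : Fin μ.length → ℕ) l, σ (fun i => h i (n i)) (Sum.inl (l, h l (n l))) =
      some (ν l) ∧ μ' l <+: ν l := by
    intro n l
    obtain ⟨x, g1, g2⟩ := hσ1 (fun i => h i (n i)) (Sum.inl (l, h l (n l))) (μ' l)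
      (by show (if h l (n l) = h l (n l) then some (μ' l) else none) = _; rw [if_pos rfl])
    have g3 := (hA n (fun _ => 0)).2 l
    rw [g1] at g3
    have g4 : x = ν l := g3
    rw [← g4]
    exact ⟨g1, g2⟩
  have hflag : ∀ (n : Fin μ.length → ℕ) l k x,
      σ (fun i => h i (n i)) (Sum.inl (l, h l k)) = some x → x = ν l ∧ n l = k := by
    intro n l k x g1
    have g2 := (hval (fun _ => k) l).1
    have g3 := hB n (fun _ => k) _ x _ g1 g2
    refine ⟨g3.1, ?_⟩
    obtain ⟨l', g4⟩ := g3.2 ⟨l, rfl⟩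
    have g5 := Sum.inl_injective g4
    have g6 : l = l' := congrArg Prod.fst g5
    subst g6
    exact (hh l (congrArg Prod.snd g5)).symm
  have hν : ∀ l l' s, ν l <+: s → ν l' <+: s → l = l' := fun l l' s g1 g2 =>
    hμ2 l l' s ((hval (fun _ => 0) l).2.trans g1) ((hval (fun _ => 0) l').2.trans g2)
  refine ⟨List.ofFn ν, ?_, ?_⟩
  · rw [Ext, List.forall₂_iff_get]
    refine ⟨by rw [List.length_ofFn], fun k hk1 hk2 => ?_⟩
    rw [List.get_ofFn]
    exact (hμ1 ⟨k, hk1⟩).trans (hval (fun _ => 0) ⟨k, hk1⟩).2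
  · rcases Bool.eq_false_or_eq_true (b (fun i => h i 0)) with hb | hb
    · left
      exact main P Θ hΘ1 ν hν h hh (fun n => σ (fun i => h i (n i))) (fun n => hσ2 _)
        (fun n m v x y g1 g2 => (hB n m v x y g1 g2).1) hflag ψ
        (fun n => hσ3 _ (by rw [(hA n (fun _ => 0)).1]; exact hb))
    · right
      exact main P Θ hΘ1 ν hν h hh (fun n => σ (fun i => h i (n i))) (fun n => hσ2 _)
        (fun n m v x y g1 g2 => (hB n m v x y g1 g2).1) hflag (fun a c => ¬ ψ a c)
        (fun n => hσ4 _ (by rw [(hA n (fun _ => 0)).1]; exact hb))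

end Pool.Agent.Work.MP_e5ffe1_gen
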