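import Pool.Agent.Work.MP_e5ffe1_gen.Interface

/-! The assembly of Theorem K. -/

set_option autoImplicit false

namespace Pool.Agent.Work.MP_e5ffe1_gen

open Pool.Agent.Work.MP_e5ffe1_h93 (le J LL zRing zOrd def_repr ble)
open Encodable Cardinal FirstOrder FirstOrder.Language FirstOrder.Ring

/-- sums, products and one as terms -/
def addT {α : Type} (t s : LL.Term α) : LL.Term α :=
  Term.func (l := 2) (Sum.inl ringFunc.add : LL.Functions 2) ![t, s]

def mulT {α : Type} (t s : LL.Term α) : LL.Term α :=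
  Term.func (l := 2) (Sum.inl ringFunc.mul : LL.Functions 2) ![t, s]

def oneT {α : Type} : LL.Term α := Term.func (l := 0) (Sum.inl ringFunc.one : LL.Functions 0) ![]

/-- `1 + (v 2 + 1) v 0 ∣ v 1` in the variables `v 0`, `v 1`, `v 2` -/
def divF : LL.BoundedFormula Empty 3 :=
  ∃' (BoundedFormula.equal (L := LL) (α := Empty) (n := 4)
      (Term.var (Sum.inr 1))
      (mulT (addT oneT (mulT (addT (Term.var (Sum.inr 2)) oneT) (Term.var (Sum.inr 0))))
        (Term.var (Sum.inr 3))))

/-- `v 0 ≤ v 1` -/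
def leF : LL.BoundedFormula Empty 2 := ble (Term.var (Sum.inr 0)) (Term.var (Sum.inr 1))

section

variable {R : Type} [CommRing R] [FirstOrder.Ring.CompatibleRing R]
  [FirstOrder.Language.order.Structure R]

theorem real_addT {α : Type} (t s : LL.Term α) (v : α → R) :
    (addT t s).realize v = t.realize v + s.realize v := by
  have h := CompatibleRing.funMap_add (R := R) ![t.realize v, s.realize v]
  unfold addT
  rw [Term.realize_func]
  have e : (fun i => ((![t, s] : Fin 2 → LL.Term α) i).realize v) = ![t.realize v, s.realize v] := by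
    funext i
    fin_cases i <;> rfl
  rw [e]
  exact h

theorem real_mulT {α : Type} (t s : LL.Term α) (v : α → R) :
    (mulT t s).realize v = t.realize v * s.realize v := by
  have h := CompatibleRing.funMap_mul (R := R) ![t.realize v, s.realize v]
  unfold mulT
  rw [Term.realize_func]
  have e : (fun i => ((![t, s] : Fin 2 → LL.Term α) i).realize v) = ![t.realize v, s.realize v] := by
    funext i
    fin_cases i <;> rfl
  rw [e]
  exact h

theorem real_oneT {α : Type} (v : α → R) : (oneT : LL.Term α).realize v = 1 := by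
  have h := CompatibleRing.funMap_one (R := R) ![]
  unfold oneT
  rw [Term.realize_func]
  have e : (fun i => ((![] : Fin 0 → LL.Term α) i).realize v) = ![] := by
    funext i
    exact i.elim0
  rw [e]
  exact h

theorem divF_iff (v : Fin 3 → R) :
    divF.Realize (M := R) default v ↔ (1 + (v 2 + 1) * v 0) ∣ v 1 := by
  have key : ∀ y : R, (BoundedFormula.equal (L := LL) (α := Empty) (n := 4)
      (Term.var (Sum.inr 1))
      (mulT (addT oneT (mulT (addT (Term.var (Sum.inr 2)) oneT) (Term.var (Sum.inr 0))))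
        (Term.var (Sum.inr 3)))).Realize (M := R) default (Fin.snoc v y : Fin 4 → R) ↔
      v 1 = (1 + (v 2 + 1) * v 0) * y := by
    intro y
    simp only [BoundedFormula.Realize, real_mulT, real_addT, real_oneT, Term.realize_var]
    exact Iff.rfl
  unfold divF
  rw [BoundedFormula.realize_ex]
  constructor
  · rintro ⟨y, hy⟩
    exact ⟨y, (key y).1 hy⟩
  · rintro ⟨y, hy⟩
    exact ⟨y, (key y).2 hy⟩

theorem leF_iff [LinearOrder R] [FirstOrder.Language.OrderedStructure FirstOrder.Language.order R]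
    (v : Fin 2 → R) : leF.Realize (M := R) default v ↔ v 0 ≤ v 1 := by
  have h := FirstOrder.Language.OrderedStructure.relMap_leSymb (L := FirstOrder.Language.order)
    (M := R) (fun i => ((![Term.var (Sum.inr 0), Term.var (Sum.inr 1)] :
      Fin 2 → LL.Term (Empty ⊕ Fin 2)) i).realize (Sum.elim default v))
  exact h

/-- sets of divisors are definable -/
theorem div_def (d e : R) : (Set.univ : Set R).Definable LL
    {v : Fin 1 → R | (1 + (v 0 + 1) * d) ∣ e} := by
  rw [Set.definable_iff_exists_formula_sum]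
  let φ : LL.Formula ((Set.univ : Set R) ⊕ Fin 1) :=
    ∃' (BoundedFormula.equal (L := LL) (α := (Set.univ : Set R) ⊕ Fin 1) (n := 1)
      (Term.var (Sum.inl (Sum.inl ⟨e, Set.mem_univ e⟩)))
      (mulT (addT oneT (mulT (addT (Term.var (Sum.inl (Sum.inr 0))) oneT)
        (Term.var (Sum.inl (Sum.inl ⟨d, Set.mem_univ d⟩))))) (Term.var (Sum.inr 0))))
  refine ⟨φ, ?_⟩
  ext v
  change (1 + (v 0 + 1) * d) ∣ e ↔ φ.Realize (Sum.elim (↑) v)
  unfold φ
  rw [Formula.Realize, BoundedFormula.realize_ex]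
  have key : ∀ y : R, (BoundedFormula.equal (L := LL) (α := (Set.univ : Set R) ⊕ Fin 1) (n := 1)
      (Term.var (Sum.inl (Sum.inl ⟨e, Set.mem_univ e⟩)))
      (mulT (addT oneT (mulT (addT (Term.var (Sum.inl (Sum.inr 0))) oneT)
        (Term.var (Sum.inl (Sum.inl ⟨d, Set.mem_univ d⟩))))) (Term.var (Sum.inr 0)))).Realize
        (Sum.elim (↑) v) (Fin.snoc default y : Fin 1 → R) ↔ e = (1 + (v 0 + 1) * d) * y := by
    intro y
    simp only [BoundedFormula.Realize, real_mulT, real_addT, real_oneT, Term.realize_var]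
    exact Iff.rfl
  constructor
  · rintro ⟨y, hy⟩
    exact ⟨y, (key y).2 hy⟩
  · rintro ⟨y, hy⟩
    exact ⟨y, (key y).1 hy⟩

end

attribute [local instance] zRing zOrd

theorem main (hNUM : Stmt_NUM) (hTRF : Stmt_TRF) (hULT : Stmt_ULT) (hMOD : Stmt_MOD) (hSKC : Stmt_SKC)
    (hDF1 : Stmt_DF1) (hDF2 : Stmt_DF2) (hTRC : Stmt_TRC) (hGEN : Stmt_GEN) (hTUR : Stmt_TUR)
    (S : Set (Set ℕ)) (hS : Cl S) (hcard : #S ≤ ℵ₁) (G : Set (ℕ → Bool)) (hG : MutGen S G) :
    ∃ (R : Type) (_ : CommRing R) (_ : LinearOrder R) (_ : IsStrictOrderedRing R)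
      (_ : FirstOrder.Ring.CompatibleRing R)
      (_ : FirstOrder.Language.order.Structure R)
      (_ : FirstOrder.Language.OrderedStructure FirstOrder.Language.order R),
      (∀ x : R, 0 < x → 1 ≤ x) ∧
      (∀ D : Set (Fin 1 → R), (Set.univ : Set R).Definable LL D →
        (fun _ : Fin 1 => (0 : R)) ∈ D →
        (∀ x : R, 0 ≤ x → (fun _ : Fin 1 => x) ∈ D → (fun _ : Fin 1 => x + 1) ∈ D) →
        ∀ x : R, 0 ≤ x → (fun _ : Fin 1 => x) ∈ D) ∧
      (∃ c : R, ∀ n : ℕ, (n : R) < c) ∧
      ∀ X : Set ℕ, (∀ T : Set (Set ℕ), Idl T → S ⊆ T → (∀ g ∈ G, {n | g n = true} ∈ T) → X ∈ T) ↔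
        ∃ D : Set (Fin 1 → R), (Set.univ : Set R).Definable LL D ∧
          ∀ n : ℕ, n ∈ X ↔ (fun _ : Fin 1 => (n : R)) ∈ D := by
  classical
  obtain ⟨P, hP, hPc, hPb, hPd⟩ := hTRF S hS hcard
  obtain ⟨W, hW⟩ := hULT G P hP
  obtain ⟨R, i1, i2, i3, i4, i5, i6, hdis, hind, r, hr, hrn, hlos⟩ :=
    hMOD W (Fn S G) hSKC
  have hkept : ∀ {Q : Set (Prom S)}, Q ⊆ P → Kept W Q := fun hQ π hπ => hW π (hQ hπ)
  obtain ⟨X0, hX0⟩ := hS.ne
  let x0 : S := ⟨X0, hX0⟩
  have hub := ((hGEN W).1 x0 X0 (hkept (hPb x0))).2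
  have hidl : Idl (Trc W) := hTUR W
  -- the infinite element
  let c : Om S G → ℤ := fun ω => (ω.1 x0 : ℤ)
  have hcF : c ∈ Fn S G := by
    refine ⟨[x0], [], fun z => ((z.1.getD 0 0 : ℕ) : ℤ), List.nodup_nil, ?_, fun ω => rfl⟩
    exact ArG.of_primrec (hNUM.2.2.2.2.1.comp
      ((Primrec.list_getD 0).comp Primrec.fst (Primrec.const 0)))
  have hconst : ∀ n : ℕ, (fun _ : Om S G => (n : ℤ)) ∈ Fn S G := by
    intro n
    exact ⟨[], [], fun _ => (n : ℤ), List.nodup_nil,
      ArG.of_computable (Computable.const _), fun ω => rfl⟩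
  refine ⟨R, i1, i2, i3, i4, i5, i6, hdis, hind, ⟨r c, fun n => ?_⟩, fun X => ?_⟩
  · -- nonstandard
    have h1 := hlos 2 leF ![fun _ => ((n + 1 : ℕ) : ℤ), c] (by
      intro i
      fin_cases i
      · exact hconst (n + 1)
      · exact hcF)
    have h2 : leF.Realize (M := R) default
        (fun i => r ((![fun _ => ((n + 1 : ℕ) : ℤ), c] : Fin 2 → Om S G → ℤ) i)) := by
      rw [h1]
      filter_upwards [hub (n + 1)] with ω hω
      change ((n + 1 : ℕ) : ℤ) ≤ (ω.1 x0 : ℤ)
      exact_mod_cast hω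
    have h3 : r (fun _ => ((n + 1 : ℕ) : ℤ)) ≤ r c := by
      exact (leF_iff _).1 h2
    rw [hrn, Nat.cast_add, Nat.cast_one] at h3
    have h4 : (n : R) < n + 1 := lt_add_one _
    exact lt_of_lt_of_le h4 h3
  · constructor
    · intro hX
      have hXT : X ∈ Trc W := by
        refine hX (Trc W) hidl ?_ ?_
        · intro Y hY
          exact ((hGEN W).1 ⟨Y, hY⟩ Y (hkept (hPb ⟨Y, hY⟩))).1
        · exact (hGEN W).2 (hkept hPc)
      obtain ⟨d, hd, e, he, hde⟩ := hDF2 W x0 hub X hXT
      refine ⟨{v | (1 + (v 0 + 1) * r d) ∣ r e}, ?_, fun n => ?_⟩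
      · exact div_def (r d) (r e)
      · rw [hde n]
        have h1 := hlos 3 divF ![d, e, fun _ => (n : ℤ)] (by
          intro i
          fin_cases i
          · exact hd
          · exact he
          · exact hconst n)
        have h2 : ∀ ω : Om S G, divF.Realize (M := ℤ) default
            (fun i => (![d, e, fun _ => (n : ℤ)] : Fin 3 → Om S G → ℤ) i ω) ↔
            (1 + ((n : ℤ) + 1) * d ω) ∣ e ω := fun ω => divF_iff (R := ℤ) _
        have h3 : divF.Realize (M := R) default
            (fun i => r ((![d, e, fun _ => (n : ℤ)] : Fin 3 → Om S G → ℤ) i)) ↔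
            (1 + (r (fun _ => (n : ℤ)) + 1) * r d) ∣ r e := divF_iff (R := R) _
        rw [h3, hrn n] at h1
        change _ ↔ (1 + ((n : R) + 1) * r d) ∣ r e
        rw [h1]
        exact Filter.eventually_congr (Filter.Eventually.of_forall (fun ω => (h2 ω).symm))
    · rintro ⟨D, hD, hn⟩ T hT hST hGT
      obtain ⟨m, φ, b, hb⟩ := def_repr hD
      choose f hf hbf using fun i => hr (b i)
      have hXT := hDF1 W φ f hf
      have hXeq : X = {n : ℕ | ∀ᶠ ω in (W : Filter (Om S G)),
          φ.Realize (M := ℤ) default (Fin.snoc (fun i => f i ω) (n : ℤ) : Fin (m + 1) → ℤ)} := by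
        ext n
        rw [hn n, hb]
        have h1 := hlos (m + 1) φ (Fin.snoc f (fun _ => (n : ℤ)) : Fin (m + 1) → Om S G → ℤ) (by
          intro i
          refine Fin.lastCases ?_ (fun j => ?_) i
          · rw [Fin.snoc_last]; exact hconst n
          · rw [Fin.snoc_castSucc]; exact hf j)
        have e1 : (fun i => r ((Fin.snoc f (fun _ => (n : ℤ)) : Fin (m + 1) → Om S G → ℤ) i)) =
            (Fin.snoc b (n : R) : Fin (m + 1) → R) := by
          funext i
          refine Fin.lastCases ?_ (fun j => ?_) i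
          · rw [Fin.snoc_last, Fin.snoc_last, hrn]
          · rw [Fin.snoc_castSucc, Fin.snoc_castSucc, hbf]
        have e2 : ∀ ω, (fun i => (Fin.snoc f (fun _ => (n : ℤ)) : Fin (m + 1) → Om S G → ℤ) i ω) =
            (Fin.snoc (fun i => f i ω) (n : ℤ) : Fin (m + 1) → ℤ) := by
          intro ω
          funext i
          refine Fin.lastCases ?_ (fun j => ?_) i
          · rw [Fin.snoc_last, Fin.snoc_last]
          · rw [Fin.snoc_castSucc, Fin.snoc_castSucc]
        rw [e1] at h1
        simp only [e2] at h1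
        exact h1
      rw [hXeq]
      obtain ⟨t, ht, α, γ, hγ, htr⟩ := hXT
      rw [htr]
      obtain ⟨D', hD', hsub, hdns⟩ := hPd t ht α (fun _ _ => Set.mem_univ _)
      exact hTRC S hS G hG W t α D' hD' hdns (hkept hsub) γ hγ T hT (hST hD')
        (fun g _ => hGT g.1 g.2)

end Pool.Agent.Work.MP_e5ffe1_gen
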