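import Pool.Agent.Work.MP_e5ffe1_gen.Interface

/-! Block GEN: the generating sets are traces. -/

set_option autoImplicit false

namespace Pool.Agent.Work.MP_e5ffe1_gen

open Encodable

namespace GEN

theorem isT_a (hNUM : Stmt_NUM) : IsT (fun j A _ => (A.headD 0).testBit j = true) := by
  have h1 := hNUM.2.2.2.2.2.2.2.1
  unfold IsT
  refine PS.computable idl_ari (f := fun x : ℕ × List ℕ × List ℕ => (x.2.1.headD 0).testBit x.1) ?_
  exact (h1.comp ((Primrec.option_getD.comp (Primrec.list_head?.comp
    (Primrec.fst.comp Primrec.snd)) (Primrec.const 0)).of_eq (fun x => by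
      cases x.2.1 <;> rfl)) Primrec.fst).to_comp

theorem isT_c (hNUM : Stmt_NUM) : IsT (fun j _ C => (C.headD 0).testBit j = true) := by
  have h1 := hNUM.2.2.2.2.2.2.2.1
  unfold IsT
  refine PS.computable idl_ari (f := fun x : ℕ × List ℕ × List ℕ => (x.2.2.headD 0).testBit x.1) ?_
  exact (h1.comp ((Primrec.option_getD.comp (Primrec.list_head?.comp
    (Primrec.snd.comp Primrec.snd)) (Primrec.const 0)).of_eq (fun x => by
      cases x.2.2 <;> rfl)) Primrec.fst).to_comp

end GEN

theorem blk_GEN (hNUM : Stmt_NUM) : Stmt_GEN := by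
  classical
  intro I G W
  refine ⟨fun x X hK => ⟨?_, ?_⟩, fun hK g hg => ?_⟩
  · refine ⟨fun j A _ => (A.headD 0).testBit j = true, GEN.isT_a hNUM, [x], [], List.nodup_nil, ?_⟩
    have key : ∀ j : ℕ, ∀ b : Bool, (b = true ↔ j ∈ X) →
        ∀ᶠ ω in (W : Filter (Om I G)), ((ω.1 x).testBit j = true ↔ b = true) := by
      intro j b hb
      have h1 := hK (prom (tb, [x]) ((2 * j, [], b) : Code)) ⟨(2 * j, [], b), ⟨(2 * j, [], b), rfl, rfl,
        Or.inl ⟨by simp, by simpa using hb⟩⟩, rfl⟩ [] List.nodup_nil List.Forall₂.nil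
      refine h1.mono (fun ω hω => ?_)
      simpa [prom, tb] using hω
    ext j
    change j ∈ X ↔ ∀ᶠ ω in (W : Filter (Om I G)), _
    by_cases hj : j ∈ X
    · refine iff_of_true hj ?_
      refine (key j true (by simp [hj])).mono (fun ω hω => ?_)
      simpa using hω
    · refine iff_of_false hj (fun h => ?_)
      have h2 := key j false (by simp [hj])
      obtain ⟨ω, h3, h4⟩ := (h.and h2).exists
      simp only [Bool.false_eq_true, iff_false] at h4
      exact h4 (by simpa using h3)
  · intro M
    have h1 := hK (prom (tb, [x]) ((2 * M + 1, [], true) : Code)) ⟨(2 * M + 1, [], true),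
      ⟨(2 * M + 1, [], true), rfl, rfl, Or.inr ⟨by omega, rfl⟩⟩, rfl⟩ [] List.nodup_nil
      List.Forall₂.nil
    refine h1.mono (fun ω hω => ?_)
    have e1 : (2 * M + 1) % 2 ≠ 0 := by omega
    have e2 : (2 * M + 1) / 2 = M := by omega
    simp only [prom, tb, if_neg e1, e2, iff_true] at hω
    simpa using hω
  · refine ⟨fun j _ C => (C.headD 0).testBit j = true, GEN.isT_c hNUM, [], [⟨g, hg⟩],
      List.nodup_singleton _, ?_⟩
    have key : ∀ j : ℕ, ∀ᶠ ω in (W : Filter (Om I G)), ((ω.2 ⟨g, hg⟩).testBit j = true ↔ g j = true) := by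
      intro j
      have hs : ((List.range (j + 1)).map g).getD j false = g j := by
        simp
      have h1 := hK (prom (tc, []) ((2 * j, [(List.range (j + 1)).map g], g j) : Code))
        ⟨(2 * j, [(List.range (j + 1)).map g], g j),
          ⟨(2 * j, [(List.range (j + 1)).map g], g j), rfl, (List.range (j + 1)).map g, rfl, by simp,
            Or.inl ⟨by simp, by simp⟩⟩, rfl⟩ [⟨g, hg⟩] (List.nodup_singleton _)
        (List.Forall₂.cons (by simp [pre]) List.Forall₂.nil)
      refine h1.mono (fun ω hω => ?_)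
      simpa [prom, tc] using hω
    ext j
    change g j = true ↔ ∀ᶠ ω in (W : Filter (Om I G)), _
    by_cases hj : g j = true
    · refine iff_of_true hj ?_
      refine (key j).mono (fun ω hω => ?_)
      simpa using hω.2 hj
    · refine iff_of_false hj (fun h => ?_)
      obtain ⟨ω, h3, h4⟩ := (h.and (key j)).exists
      exact hj (h4.1 (by simpa using h3))

end Pool.Agent.Work.MP_e5ffe1_gen
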