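import Pool.Agent.Work.MP_e5ffe1_gen.Interface

/-! Block GRD: greedy decisions. -/

set_option autoImplicit false

namespace Pool.Agent.Work.MP_e5ffe1_gen

open Encodable

namespace GRD

/-- the codes with numbers `i < |σ|`, `σ i = true` -/
def lst (σ : List Bool) : List Code :=
  (List.range σ.length).filterMap (fun i => if σ.getD i false = true then (decode i : Option Code)
    else none)

theorem lst_primrec : Primrec lst := by
  unfold lst
  refine Primrec.listFilterMap (Primrec.list_range.comp Primrec.list_length) ?_
  refine Primrec.ite ?_ (Primrec.decode.comp Primrec.snd) (Primrec.const none)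
  exact PrimrecRel.comp Primrec.eq
    ((Primrec.list_getD false).comp Primrec.fst Primrec.snd) (Primrec.const true)

theorem lst_append (σ : List Bool) (b : Bool) :
    lst (σ ++ [b]) = lst σ ++ (if b = true then (decode σ.length : Option Code) else none).toList := by
  unfold lst
  rw [List.length_append, List.length_singleton, List.range_succ, List.filterMap_append]
  congr 1
  · apply List.filterMap_congr
    intro i hi
    rw [List.mem_range] at hi
    have : (σ ++ [b]).getD i false = σ.getD i false := by
      rw [List.getD_append _ _ _ _ hi]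
    rw [this]
  · have : (σ ++ [b]).getD σ.length false = b := by
      rw [List.getD_append_right _ _ _ _ le_rfl]
      simp
    simp only [List.filterMap_cons, List.filterMap_nil, this]
    rcases (if b = true then (decode σ.length : Option Code) else none) with _ | y
    · rfl
    · rfl

variable (Inc : List Code → Prop)

/-- the number `n` is accepted after `σ` -/
def good (σ : List Bool) (n : ℕ) : Prop := ∃ x : Code, encode x = n ∧ ¬ Inc (x :: lst σ)

open Classical in
/-- the first `n` decisions -/
noncomputable def sq : ℕ → List Bool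
  | 0 => []
  | n + 1 => sq n ++ [decide (good Inc (sq n) n)]

theorem sq_length (n : ℕ) : (sq Inc n).length = n := by
  induction n with
  | zero => rfl
  | succ n ih => rw [sq, List.length_append, ih]; rfl

theorem sq_take {m n : ℕ} (h : m ≤ n) : (sq Inc n).take m = sq Inc m := by
  induction n with
  | zero =>
    obtain rfl : m = 0 := by omega
    rfl
  | succ n ih =>
    rcases Nat.lt_or_ge n m with h1 | h1
    · obtain rfl : m = n + 1 := by omega
      rw [List.take_of_length_le (by rw [sq_length])]
    · rw [sq, List.take_append_of_le_length (by rw [sq_length]; exact h1)]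
      exact ih h1

theorem sq_getD {m n : ℕ} (h : m < n) : (sq Inc n).getD m false = true ↔ good Inc (sq Inc m) m := by
  classical
  have h1 : (sq Inc n).take (m + 1) = sq Inc (m + 1) := sq_take Inc h
  have h2 : (sq Inc n).getD m false = (sq Inc (m + 1)).getD m false := by
    rw [← h1]
    simp [List.getD_eq_getElem?_getD]
  rw [h2, sq]
  have h3 : m = (sq Inc m).length := (sq_length Inc m).symm
  have h4 : (sq Inc m ++ [decide (good Inc (sq Inc m) m)]).getD m false =
      decide (good Inc (sq Inc m) m) := by
    rw [List.getD_append_right _ _ _ _ (by rw [sq_length])]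
    rw [sq_length]
    simp
  rw [h4, decide_eq_true_iff]

/-- uniqueness of the sequence -/
theorem sq_unique (n : ℕ) (σ : List Bool) (hl : σ.length = n)
    (h : ∀ m < n, (σ.getD m false = true ↔ good Inc (σ.take m) m)) : σ = sq Inc n := by
  classical
  have h1 : ∀ m ≤ n, σ.take m = sq Inc m := by
    intro m
    induction m with
    | zero => intro _; rw [List.take_zero]; rfl
    | succ m ih =>
      intro hm
      have h2 := ih (by omega)
      have h3 := h m (by omega)
      rw [h2] at h3
      have hml : m < σ.length := by omega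
      rw [List.take_succ_eq_append_getElem hml, h2, sq]
      congr 2
      rw [List.getD_eq_getElem _ _ hml] at h3
      rw [Bool.eq_iff_iff, h3]
      rw [decide_eq_true_iff]
  have h2 := h1 n le_rfl
  rwa [List.take_of_length_le (by omega)] at h2

theorem good_PS {S : Set (Set ℕ)} (hS : Cl S) (h : PS S Inc) :
    PS S (fun z : List Bool × ℕ => good Inc z.1 z.2) := by
  have h1 : PS S (fun w : (List Bool × ℕ) × Code => encode w.2 = w.1.2) :=
    PS.eq hS.toIdl (Computable.encode.comp Computable.snd) (Computable.snd.comp Computable.fst)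
  have h2 : PS S (fun w : (List Bool × ℕ) × Code => ¬ Inc (w.2 :: lst w.1.1)) :=
    PS.not hS.toIdl (PS.comp hS.toIdl h
      (Primrec.list_cons.comp Primrec.snd
        (lst_primrec.comp (Primrec.fst.comp Primrec.fst))).to_comp)
  exact PS.ex hS (p := fun (z : List Bool × ℕ) (x : Code) => encode x = z.2 ∧ ¬ Inc (x :: lst z.1))
    (PS.and hS.toIdl h1 h2)

theorem acc_PS {S : Set (Set ℕ)} (hS : Cl S) (h : PS S Inc) :
    PS S (fun n : ℕ => good Inc (sq Inc n) n) := by
  have hg := good_PS Inc hS h
  have h1 : PS S (fun z : ℕ × List Bool => z.2.length = z.1) :=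
    PS.eq hS.toIdl (Primrec.list_length.comp Primrec.snd).to_comp Computable.fst
  have h2 : PS S (fun z : ℕ × List Bool => good Inc z.2 z.1) :=
    PS.comp hS.toIdl hg (Computable.snd.pair Computable.fst)
  have h3 : PS S (fun z : (ℕ × List Bool) × ℕ =>
      (z.1.2.getD z.2 false = true ↔ good Inc (z.1.2.take z.2) z.2)) := by
    refine PS.iff hS.toIdl ?_ ?_
    · exact PS.eq hS.toIdl ((Primrec.list_getD false).comp (Primrec.snd.comp Primrec.fst)
        Primrec.snd).to_comp (Computable.const true)
    · exact PS.comp hS.toIdl hg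
        ((Primrec.list_take.comp Primrec.snd (Primrec.snd.comp Primrec.fst)).pair
          Primrec.snd).to_comp
  have h4 := PS.ball hS.toIdl
    (p := fun (z : ℕ × List Bool) m => (z.2.getD m false = true ↔ good Inc (z.2.take m) m)) h3
    (Computable.fst (α := ℕ) (β := List Bool))
  refine (PS.ex hS (p := fun (n : ℕ) (σ : List Bool) => σ.length = n ∧
    (∀ m < n, (σ.getD m false = true ↔ good Inc (σ.take m) m)) ∧ good Inc σ n)
    (PS.and hS.toIdl h1 (PS.and hS.toIdl h4 h2))).congr (fun n => ?_)
  constructor
  · intro h5
    refine ⟨sq Inc n, sq_length Inc n, fun m hm => ?_, h5⟩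
    rw [sq_take Inc hm.le]
    exact sq_getD Inc hm
  · rintro ⟨σ, hl, h5, h6⟩
    rw [← sq_unique Inc n σ hl h5]
    exact h6

theorem mem_lst_sq (n : ℕ) (x : Code) :
    x ∈ lst (sq Inc n) ↔ encode x < n ∧ good Inc (sq Inc (encode x)) (encode x) := by
  induction n with
  | zero => simp [sq, lst]
  | succ n ih =>
    rw [sq, lst_append, List.mem_append, ih, sq_length]
    by_cases hg : good Inc (sq Inc n) n
    · obtain ⟨y, hy, _⟩ := id hg
      have h1 : (decode n : Option Code) = some y := by rw [← hy, encodek]
      simp only [hg, decide_true, if_true, h1, Option.toList_some, List.mem_singleton]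
      constructor
      · rintro (⟨h2, h3⟩ | h2)
        · exact ⟨by omega, h3⟩
        · rw [h2, hy]
          exact ⟨by omega, hg⟩
      · rintro ⟨h2, h3⟩
        rcases Nat.lt_or_ge (encode x) n with h4 | h4
        · exact Or.inl ⟨h4, h3⟩
        · right
          apply encode_injective
          rw [hy]
          omega
    · simp only [hg, decide_false, Bool.false_eq_true, if_false, Option.toList_none,
        List.not_mem_nil, or_false]
      constructor
      · rintro ⟨h2, h3⟩
        exact ⟨by omega, h3⟩
      · rintro ⟨h2, h3⟩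
        refine ⟨?_, h3⟩
        rcases Nat.lt_or_ge (encode x) n with h4 | h4
        · exact h4
        · exfalso
          have h5 : encode x = n := by omega
          rw [h5] at h3
          exact hg h3

end GRD

theorem blk_GRD (hEXT : Stmt_EXT) : Stmt_GRD := by
  intro S hS I P q E hE hc hI
  set Inc : List Code → Prop := fun F => ¬ Cons (P ∪ promS q E ∪ promL q F) with hInc
  set D : Set ℕ := {n | n ∈ E ∨ GRD.good Inc (GRD.sq Inc n) n} with hD
  have hDS : D ∈ S := PS.toSet hS.toIdl
    (PS.or hS.toIdl (PS.mem hE) (GRD.acc_PS Inc hS hI))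
  have hcn : ∀ n, Cons (P ∪ promS q E ∪ promL q (GRD.lst (GRD.sq Inc n))) := by
    intro n
    induction n with
    | zero =>
      have : GRD.lst (GRD.sq Inc 0) = [] := rfl
      rw [this, promL_nil, Set.union_empty]
      exact hc
    | succ n ih =>
      by_cases hg : GRD.good Inc (GRD.sq Inc n) n
      · obtain ⟨y, hy, h1⟩ := id hg
        have h2 : Cons (P ∪ promS q E ∪ promL q (y :: GRD.lst (GRD.sq Inc n))) := not_not.1 h1
        refine h2.mono (Set.union_subset_union_right _ ?_)
        rintro π ⟨z, hz, rfl⟩
        refine ⟨z, ?_, rfl⟩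
        rw [GRD.mem_lst_sq] at hz
        rcases Nat.lt_or_ge (encode z) n with h4 | h4
        · exact List.mem_cons_of_mem _ ((GRD.mem_lst_sq Inc n z).2 ⟨h4, hz.2⟩)
        · have h5 : z = y := by
            apply encode_injective
            rw [hy]
            omega
          rw [h5]
          exact List.mem_cons_self
      · refine ih.mono (Set.union_subset_union_right _ ?_)
        rintro π ⟨z, hz, rfl⟩
        refine ⟨z, ?_, rfl⟩
        rw [GRD.mem_lst_sq] at hz ⊢
        refine ⟨?_, hz.2⟩
        rcases Nat.lt_or_ge (encode z) n with h4 | h4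
        · exact h4
        · exfalso
          have h5 : encode z = n := by omega
          rw [h5] at hz
          exact hg hz.2
  have hcD : Cons (P ∪ promS q D) := by
    have h1 : Monotone (fun n => P ∪ promS q E ∪ promL q (GRD.lst (GRD.sq Inc n))) := by
      intro m n hmn
      refine Set.union_subset_union_right _ ?_
      rintro π ⟨z, hz, rfl⟩
      refine ⟨z, ?_, rfl⟩
      rw [GRD.mem_lst_sq] at hz ⊢
      exact ⟨by omega, hz.2⟩
    refine (Cons.iUnion h1 hcn).mono ?_
    rintro π (hπ | ⟨z, hz, rfl⟩)
    · exact Set.mem_iUnion.2 ⟨0, Or.inl (Or.inl hπ)⟩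
    · rcases hz with hz | hz
      · exact Set.mem_iUnion.2 ⟨0, Or.inl (Or.inr ⟨z, hz, rfl⟩)⟩
      · exact Set.mem_iUnion.2 ⟨encode z + 1, Or.inr ⟨z,
          (GRD.mem_lst_sq Inc _ z).2 ⟨by omega, hz⟩, rfl⟩⟩
  refine ⟨D, hDS, fun n hn => Or.inl hn, ?_, hcD⟩
  intro j μ
  obtain ⟨ν, hν, h1⟩ := hEXT (P ∪ promS q D) hcD (fun a c => q.1 j (q.2.map a) c) μ
  have key : ∀ b : Bool, Cons (insert (prom q (j, ν, b)) (P ∪ promS q D)) →
      encode ((j, ν, b) : Code) ∈ D := by
    intro b hb
    right
    refine ⟨(j, ν, b), rfl, ?_⟩
    show ¬ ¬ Cons _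
    rw [not_not]
    refine hb.mono ?_
    rintro π ((hπ | ⟨z, hz, rfl⟩) | ⟨z, hz, rfl⟩)
    · exact Or.inr (Or.inl hπ)
    · exact Or.inr (Or.inr ⟨z, Or.inl hz, rfl⟩)
    · rcases List.mem_cons.1 hz with h2 | h2
      · left
        rw [h2]
      · right
        right
        rw [GRD.mem_lst_sq] at h2
        exact ⟨z, Or.inr h2.2, rfl⟩
  rcases h1 with h1 | h1
  · refine ⟨ν, true, hν, key true ?_⟩
    have : prom q (j, ν, true) = ⟨ν, fun a c => q.1 j (q.2.map a) c⟩ := by
      simp [prom]
    rw [this]
    exact h1
  · refine ⟨ν, false, hν, key false ?_⟩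
    have : prom q (j, ν, false) = ⟨ν, fun a c => ¬ q.1 j (q.2.map a) c⟩ := by
      simp [prom]
    rw [this]
    exact h1

end Pool.Agent.Work.MP_e5ffe1_gen
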