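import Pool.Agent.Work.MP_e5ffe1_gen.Interface

/-! Block INC1: inconsistency of the codes of a new variable. -/

set_option autoImplicit false

namespace Pool.Agent.Work.MP_e5ffe1_gen

open Encodable

namespace INC1

/-- the places `e` have labels extending `p` -/
abbrev R (μ p : List Str) (e : List ℕ) : Prop :=
  List.Forall₂ (fun (q : Str) (i : ℕ) => i < μ.length ∧ q <+: μ.getD i []) p e

theorem R_lt {μ p : List Str} {e : List ℕ} (h : R μ p e) : ∀ i ∈ e, i < μ.length := by
  intro i hi
  obtain ⟨k, hk, rfl⟩ := List.mem_iff_getElem.1 hi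
  have h1 := List.forall₂_iff_get.1 h
  exact (h1.2 k (by rw [h1.1]; exact hk) hk).1

theorem R_range (μ : List Str) : R μ μ (List.range μ.length) := by
  rw [R, List.forall₂_iff_get]
  refine ⟨by simp, fun i h1 h2 => ?_⟩
  simp only [List.get_eq_getElem, List.getElem_range]
  exact ⟨h1, by rw [List.getD_eq_getElem _ _ h1]⟩

theorem R_mono {μ ν : List Str} (h : Ext μ ν) {p : List Str} {e : List ℕ} (he : R μ p e) :
    R ν p e := by
  have h1 := List.forall₂_iff_get.1 h
  refine he.imp (fun q i hi => ⟨by rw [← h1.1]; exact hi.1, ?_⟩)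
  have h2 := h1.2 i hi.1 (by rw [← h1.1]; exact hi.1)
  have h3 := hi.2
  rw [List.getD_eq_getElem _ _ hi.1] at h3
  rw [List.getD_eq_getElem _ _ (by rw [← h1.1]; exact hi.1)]
  exact h3.trans h2

theorem map_getD (c : List ℕ) (n : ℕ) {e : List ℕ} (h : ∀ i ∈ e, i < n) :
    e.map (fun i => ((List.range n).map (fun i => c.getD i 0)).getD i 0) =
      e.map (fun i => c.getD i 0) := by
  refine List.map_congr_left fun i hi => ?_
  have h1 := h i hi
  rw [List.getD_eq_getElem _ _ (by simpa using h1)]
  simp

theorem finite_lists (n : ℕ) : {e : List ℕ | e.Nodup ∧ ∀ i ∈ e, i < n}.Finite := by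
  refine (List.finite_length_le (Fin n) n |>.image (fun l => l.map (fun x : Fin n => x.1))).subset ?_
  rintro e ⟨h1, h2⟩
  refine ⟨e.attach.map (fun x => ⟨x.1, h2 x.1 x.2⟩), ?_, ?_⟩
  · simp only [Set.mem_setOf_eq, List.length_map, List.length_attach]
    have h3 : e ⊆ List.range n := fun i hi => List.mem_range.2 (h2 i hi)
    have h4 := (h1.subperm h3).length_le
    simpa using h4
  · simp [List.map_map, Function.comp_def]

end INC1

theorem blk_INC1 : Stmt_INC1 := by
  classical
  intro I P x t β E D' hP hdep hx hD' hDns F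
  constructor
  · intro hnot
    by_contra hcon
    push Not at hcon
    apply hnot
    rw [cons_iff]
    intro P0 h0 hf μ
    -- codes
    have hcode : ∀ π : Prom I, ∃ c : Code,
        π ∈ promS (t, x :: β) E ∪ promL (t, x :: β) F →
        ((encode c ∈ E ∨ c ∈ F) ∧ π = prom (t, x :: β) c) := by
      intro π
      by_cases h : π ∈ promS (t, x :: β) E ∪ promL (t, x :: β) F
      · rcases h with ⟨c, hc1, hc2⟩ | ⟨c, hc1, hc2⟩
        · exact ⟨c, fun _ => ⟨Or.inl hc1, hc2⟩⟩
        · exact ⟨c, fun _ => ⟨Or.inr hc1, hc2⟩⟩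
      · exact ⟨(0, [], false), fun h' => absurd h' h⟩
    choose c hc using hcode
    -- the instances
    set SS : Set Lit := {y | ∃ π ∈ P0, π ∈ promS (t, x :: β) E ∪ promL (t, x :: β) F ∧
      y.1 = (c π).1 ∧ y.2.2 = (c π).2.2 ∧ y.2.1.Nodup ∧ INC1.R μ (c π).2.1 y.2.1} with hSS
    have hSSf : SS.Finite := by
      refine ((hf.prod (INC1.finite_lists μ.length)).image
        (fun z : Prom I × List ℕ => (((c z.1).1, z.2, (c z.1).2.2) : Lit))).subset ?_
      rintro ⟨y1, y2, y3⟩ ⟨π, hπ, -, h1, h2, h3, h4⟩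
      refine ⟨(π, y2), ⟨hπ, h3, INC1.R_lt h4⟩, ?_⟩
      dsimp only at h1 h2 ⊢
      rw [h1, h2]
    set L : List Lit := hSSf.toFinset.toList with hL
    have hmem : ∀ y, y ∈ L ↔ y ∈ SS := by
      intro y
      rw [hL, Finset.mem_toList, Set.Finite.mem_toFinset]
    obtain ⟨ν, b, hν, hb⟩ := hDns (encode L) μ
    have hinst : ∀ y ∈ L, Inst E F ν y := by
      intro y hy
      obtain ⟨π, hπ, hπ2, h1, h2, h3, h4⟩ := (hmem y).1 hy
      refine ⟨h3, (c π).2.1, ?_, INC1.R_mono hν h4⟩
      rw [h1, h2]
      exact (hc π hπ2).1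
    have hbt : b = true := by
      cases b with
      | true => rfl
      | false => exact absurd hb (hcon ν L hinst)
    subst hbt
    -- use the consistency of `P`
    set π0 : Prom I := prom (th t, β) (encode L, ν, true) with hπ0
    have hπ0P : π0 ∈ P := hD' ⟨_, hb, rfl⟩
    obtain ⟨a, z, hz⟩ := cons_iff.1 hP (insert π0 (P0 ∩ P))
      (Set.insert_subset hπ0P Set.inter_subset_right)
      ((hf.subset Set.inter_subset_left).insert π0) ν
    have h1 := hz π0 (Set.mem_insert _ _) (List.range ν.length) List.nodup_range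
      (INC1.R_range ν)
    have h2 : th t (encode L) (β.map a) ((List.range ν.length).map (fun i => z.getD i 0)) := by
      have h3 : (th t (encode L) (β.map a) ((List.range ν.length).map (fun i => z.getD i 0)) ↔
        true = true) := h1
      exact h3.2 rfl
    obtain ⟨w, hw⟩ := h2
    rw [encodek, Option.getD_some] at hw
    refine ⟨Function.update a x w, z, ?_⟩
    intro π hπ e he hp
    rcases em (π ∈ P) with h | h
    · refine hdep π h a _ ?_ _ (hz π (Set.mem_insert_of_mem _ ⟨hπ, h⟩) e he
        (INC1.R_mono hν hp))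
      intro y hy
      exact (Function.update_of_ne hy _ _).symm
    · have hπ2 : π ∈ promS (t, x :: β) E ∪ promL (t, x :: β) F := by
        rcases h0 hπ with (h' | h') | h'
        · exact absurd h' h
        · exact Or.inl h'
        · exact Or.inr h'
      have h3 := (hc π hπ2).2
      have hp' : INC1.R μ (c π).2.1 e := by
        have h4 : π.p = (c π).2.1 := congrArg Prom.p h3
        rw [← h4]
        exact hp
      have h5 := hw ((c π).1, e, (c π).2.2) ((hmem _).2 ⟨π, hπ, hπ2, rfl, rfl, he, hp'⟩)
      have h6 : (x :: β).map (Function.update a x w) = w :: β.map a := by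
        rw [List.map_cons, Function.update_self]
        congr 1
        refine List.map_congr_left fun y hy => ?_
        exact Function.update_of_ne (by rintro rfl; exact hx hy) _ _
      rw [h3]
      show (t (c π).1 ((x :: β).map (Function.update a x w)) (e.map (fun i => z.getD i 0)) ↔
        (c π).2.2 = true)
      rw [h6]
      dsimp only at h5
      rw [INC1.map_getD z ν.length (INC1.R_lt (INC1.R_mono hν hp'))] at h5
      exact h5
  · rintro ⟨μ, L, hL, hμ⟩ hcons
    have hp : ∀ y : Lit, ∃ p : List Str, y ∈ L →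
        ((encode ((y.1, p, y.2.2) : Code) ∈ E ∨ ((y.1, p, y.2.2) : Code) ∈ F) ∧
          INC1.R μ p y.2.1) := by
      intro y
      by_cases h : y ∈ L
      · obtain ⟨-, p, h1, h2⟩ := hL y h
        exact ⟨p, fun _ => ⟨h1, h2⟩⟩
      · exact ⟨[], fun h' => absurd h' h⟩
    choose p hp using hp
    set π0 : Prom I := prom (th t, β) (encode L, μ, false) with hπ0
    have hπ0P : π0 ∈ P := hD' ⟨_, hμ, rfl⟩
    set P1 : Set (Prom I) := (fun y : Lit => prom (t, x :: β) (y.1, p y, y.2.2)) '' {y | y ∈ L}
      with hP1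
    have hP1f : P1.Finite := (List.finite_toSet L).image _
    obtain ⟨a, c, hac⟩ := cons_iff.1 hcons (insert π0 P1)
      (Set.insert_subset (Or.inl (Or.inl hπ0P)) (by
        rintro _ ⟨y, hy, rfl⟩
        rcases (hp y hy).1 with h | h
        · exact Or.inl (Or.inr ⟨_, h, rfl⟩)
        · exact Or.inr ⟨_, h, rfl⟩)) (hP1f.insert π0) μ
    have h1 := hac π0 (Set.mem_insert _ _) (List.range μ.length) List.nodup_range
      (INC1.R_range μ)
    have h2 : (th t (encode L) (β.map a) ((List.range μ.length).map (fun i => c.getD i 0)) ↔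
        false = true) := h1
    have h3 : th t (encode L) (β.map a) ((List.range μ.length).map (fun i => c.getD i 0)) := by
      refine ⟨a x, ?_⟩
      rw [encodek, Option.getD_some]
      intro y hy
      have h4 := hac _ (Set.mem_insert_of_mem _ ⟨y, hy, rfl⟩) y.2.1 (hL y hy).1 (hp y hy).2
      rw [INC1.map_getD c μ.length (INC1.R_lt (hp y hy).2)]
      exact h4
    exact absurd (h2.1 h3) (by simp)

end Pool.Agent.Work.MP_e5ffe1_gen
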