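import Pool.Agent.Work.MP_e5ffe1_gen.Interface

/-! Block INC2. -/

set_option autoImplicit false

namespace Pool.Agent.Work.MP_e5ffe1_gen

open Encodable

namespace INC2

/-- the triple, as a code -/
def mk (w : ((List Code × List Str) × Lit) × List Str) : Code := (w.1.2.1, w.2, w.1.2.2.2)

theorem mk_computable : Computable mk := by
  have h : Primrec mk := by
    unfold mk
    exact (Primrec.fst.comp (Primrec.snd.comp Primrec.fst)).pair
      (Primrec.snd.pair (Primrec.snd.comp (Primrec.snd.comp (Primrec.snd.comp Primrec.fst))))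
  exact h.to_comp

theorem ps_inst {S : Set (Set ℕ)} (hS : Cl S) {E : Set ℕ} (hE : E ∈ S) :
    PS S (fun z : (List Code × List Str) × Lit => Inst E z.1.1 z.1.2 z.2) := by
  have hI := hS.toIdl
  have h1 : PS S (fun w : ((List Code × List Str) × Lit) × List Str => encode (mk w) ∈ E) :=
    PS.encode_comp hI hE mk_computable
  have h2 : PS S (fun w : ((List Code × List Str) × Lit) × List Str => mk w ∈ w.1.1.1) :=
    PS.listMem hI mk_computable
      (Primrec.fst.comp (Primrec.fst.comp Primrec.fst)).to_comp
  have hR1 : PS S (fun x : (((List Code × List Str) × Lit) × List Str) × Str × ℕ =>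
      x.2.2 < x.1.1.1.2.length) :=
    PS.primrec hI (PrimrecRel.comp Primrec.nat_lt (Primrec.snd.comp Primrec.snd)
      (Primrec.list_length.comp
        (Primrec.snd.comp (Primrec.fst.comp (Primrec.fst.comp Primrec.fst)))))
  have hR2 : PS S (fun x : (((List Code × List Str) × Lit) × List Str) × Str × ℕ =>
      x.2.1 <+: x.1.1.1.2.getD x.2.2 []) :=
    PS.prefix_ hI (Primrec.fst.comp Primrec.snd).to_comp
      ((Primrec.list_getD ([] : Str)).comp
        (Primrec.snd.comp (Primrec.fst.comp (Primrec.fst.comp Primrec.fst)))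
        (Primrec.snd.comp Primrec.snd)).to_comp
  have h3 : PS S (fun w : ((List Code × List Str) × Lit) × List Str =>
      List.Forall₂ (fun (q : Str) (i : ℕ) => i < w.1.1.2.length ∧ q <+: w.1.1.2.getD i [])
        w.2 w.1.2.2.1) :=
    PS.forall₂ hI
      (R := fun (w : ((List Code × List Str) × Lit) × List Str) (q : Str) (i : ℕ) =>
        i < w.1.1.2.length ∧ q <+: w.1.1.2.getD i [])
      (PS.and hI hR1 hR2) Computable.snd
      (Primrec.fst.comp (Primrec.snd.comp (Primrec.snd.comp Primrec.fst))).to_comp
  have h4 := PS.ex hS (p := fun (z : (List Code × List Str) × Lit) (p : List Str) =>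
    (encode ((z.2.1, p, z.2.2.2) : Code) ∈ E ∨ ((z.2.1, p, z.2.2.2) : Code) ∈ z.1.1) ∧
      List.Forall₂ (fun (q : Str) (i : ℕ) => i < z.1.2.length ∧ q <+: z.1.2.getD i []) p z.2.2.1)
    (PS.and hI (PS.or hI h1 h2) h3)
  have h5 : PS S (fun z : (List Code × List Str) × Lit => z.2.2.1.Nodup) :=
    PS.nodup hI (Primrec.fst.comp (Primrec.snd.comp Primrec.snd)).to_comp
  exact PS.and hI h5 h4

end INC2

theorem blk_INC2 : Stmt_INC2 := by
  intro S hS E hE D' hD'
  have hI := hS.toIdl
  have h1 : PS S (fun x : (List Code × List Str) × List Lit => ∀ y ∈ x.2, Inst E x.1.1 x.1.2 y) := by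
    refine PS.forallMem hI (p := fun (x : (List Code × List Str) × List Lit) (y : Lit) =>
      Inst E x.1.1 x.1.2 y) ?_ Computable.snd
    exact PS.comp hI (INC2.ps_inst hS hE)
      (f := fun x : ((List Code × List Str) × List Lit) × Lit => (x.1.1, x.2))
      ((Primrec.fst.comp Primrec.fst).pair Primrec.snd).to_comp
  have h2 : PS S (fun x : (List Code × List Str) × List Lit =>
      encode ((encode x.2, x.1.2, false) : Code) ∈ D') := by
    refine PS.encode_comp hI hD' (f := fun x : (List Code × List Str) × List Lit =>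
      ((encode x.2, x.1.2, false) : Code)) ?_
    exact ((Primrec.encode.comp Primrec.snd).pair
      ((Primrec.snd.comp Primrec.fst).pair (Primrec.const false))).to_comp
  have h3 := PS.ex hS (p := fun (x : List Code × List Str) (L : List Lit) =>
    (∀ y ∈ L, Inst E x.1 x.2 y) ∧ encode ((encode L, x.2, false) : Code) ∈ D')
    (PS.and hI h1 h2)
  exact PS.ex hS (p := fun (F : List Code) (μ : List Str) => ∃ L : List Lit,
    (∀ y ∈ L, Inst E F μ y) ∧ encode ((encode L, μ, false) : Code) ∈ D') h3

end Pool.Agent.Work.MP_e5ffe1_gen
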