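import Pool.Agent.Work.MP_e5ffe1_gen.Basic
import Pool.Agent.Work.MP_e5ffe1_gen.Calc3

/-!
# Theorem K (generic Scott sets), blocks

`S` closed under join, Turing reducibility and projection, `|S| ≤ ℵ₁`, `G` any set of mutually
Cohen-generic reals over `S`. Then the Turing ideal generated by `S` and `G` is the standard system of a
nonstandard model of PA.

Every block is `theorem blk_X (h : Stmt_Y) ... : Stmt_X` in the file `X.lean` of this directory.
Tools: `Calc.lean`, `Calc2.lean` (calculus `PS S p`: `and or not imp iff comp eq primrec computable ball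
bex ex all exN mu dec toSet toSet' optAll forallMem existsMem listMem nodup forall₂ prefix_`), `Calc3.lean`
(`cl_ari : Cl Ari`, `idl_ari`, `ari_sub`, `ArG.of_computable subst pair comp of_unique`),
`Basic.lean` (`Sat.mono Sat.comp Cons.mono Cons.fin cons_iff Cons.iUnion Cons.sUnion depOn_prom`).
-/

set_option autoImplicit false

namespace Pool.Agent.Work.MP_e5ffe1_gen

open Pool.Agent.Work.MP_e5ffe1_h93 (le J LL zRing zOrd)
open Encodable Cardinal

/-! ## A. Combinatorics -/

/-- KEY (90 lines). More than continuum many functions with countable domains into a set of size at most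
continuum: infinitely many are pairwise compatible. PROOF. Pass to `𝔠⁺` many `t`; the union `V'` of
the domains has size at most `𝔠⁺ ≤ 2 ^ 𝔠`, so there is an injection `j : V' → ((ℕ → Bool) → Bool)`.
For each `t` take a sequence `q : ℕ → (ℕ → Bool)` of coordinates which separates the points `j v`,
`v ∈ dom (f t)`, an enumeration `e` of the domain (with repetitions; a junk value if it is empty), and the
key `(q, fun n i => j (e n) (q i), fun n => f t (e n))`. There are at most `𝔠` keys, so one key occurs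
infinitely often (`Cardinal.exists_infinite_fiber`). Two `t` with the same key are compatible: if `v` is in
both domains, `v = e n = e' m`, then the rows `n` and `m` of the key are equal, so `e n = e m`. -/
def Stmt_KEY : Prop :=
  ∀ (T V C : Type) (f : T → V → Option C), #C ≤ 𝔠 → 𝔠 < #T → (∀ t, {v | f t v ≠ none}.Countable) →
    ∃ h : ℕ → T, Function.Injective h ∧
      ∀ n m v c c', f (h n) v = some c → f (h m) v = some c' → c = c'

/-- COMP (100 lines, uses KEY). The same for families indexed by `T ^ d`. PROOF. Induction on `d`,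
`d = 0` trivial. `d + 1`: let `T'` be a subset of `T` of size `κ_d + ℵ₀`; for every `t` the induction
hypothesis for `f (cons t ·)` gives `h_t : Fin d → ℕ → T'`; if `T` is large, the same `h` occurs for more
than `𝔠` many `t` (`Cardinal.infinite_pigeonhole_card_lt` for `t ↦ h_t`, target
`(Fin d → ℕ → T') × (ℕ → Bool)`); apply KEY to the unions over `n` of the functions
`f (cons t (h ∘ n))`. -/
def Stmt_COMP : Prop :=
  ∀ d : ℕ, ∃ κ : Cardinal.{0}, ∀ (T V C : Type) (f : (Fin d → T) → V → Option C), κ ≤ #T → #C ≤ 𝔠 →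
    (∀ t, {v | f t v ≠ none}.Countable) →
    ∃ h : Fin d → ℕ → T, (∀ i, Function.Injective (h i)) ∧
      ∀ (n m : Fin d → ℕ) v c c', f (fun i => h i (n i)) v = some c →
        f (fun i => h i (m i)) v = some c' → c = c'

/-- the labelling `σ'` extends `σ` -/
def LE {V : Type} (σ σ' : V → Option Str) : Prop :=
  ∀ v l, σ v = some l → ∃ l', σ' v = some l' ∧ l <+: l'

/-- finite support -/
def FinS {V : Type} (σ : V → Option Str) : Prop := {v | σ v ≠ none}.Finite

/-- `Sat` for labellings of some of the variables -/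
def SatV {I V : Type} (P : Set (Prom I)) (σ : V → Option Str) (a : I → ℕ) (z : V → ℕ) : Prop :=
  ∀ π ∈ P, ∀ i : List V, i.Nodup →
    List.Forall₂ (fun (p : Str) v => ∃ l, σ v = some l ∧ p <+: l) π.p i → π.φ a (i.map z)

/-- DECV (110 lines). PROOF. Zorn: call `Θ` good if the second line holds (finite character, so unions of
chains are good; `∅` is good by `Cons P`); take a maximal good `Θ`. Deciding: if no `(σ', ψ)`,
`σ' ≥ σ`, is in `Θ`, then `Θ ∪ {(σ, ψ)}` is not good: there are finite `P0`, `Θ0` and `σ1` such that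
all `a, z` good for `P0, Θ0, σ1` violate `LE σ σ1 → ψ a z`; so `LE σ σ1` (else `Θ` is not good) and
all these `a, z` satisfy `¬ ψ`. Then `Θ ∪ {(σ1, ¬ ψ)}` is good (`LE` transitive and monotone), hence
`(σ1, ¬ ψ) ∈ Θ` by maximality. -/
def Stmt_DECV : Prop :=
  ∀ {I V : Type} (P : Set (Prom I)), Cons P →
    ∃ Θ : Set ((V → Option Str) × ((I → ℕ) → (V → ℕ) → Prop)),
      (∀ P0, P0 ⊆ P → P0.Finite → ∀ Θ0, Θ0 ⊆ Θ → Θ0.Finite → ∀ σ, FinS σ →
        ∃ a z, SatV P0 σ a z ∧ ∀ x ∈ Θ0, LE x.1 σ → x.2 a z) ∧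
      ∀ σ, FinS σ → ∀ ψ, ∃ σ', LE σ σ' ∧ FinS σ' ∧
        ((σ', ψ) ∈ Θ ∨ (σ', fun a z => ¬ ψ a z) ∈ Θ)

/-- EXT (200 lines, uses COMP, DECV). PROOF. Let `d = |μ|`. Extend `μ` to `μ'` with pairwise
incomparable entries (pad with `false` to the same length, then append `replicate l true ++
replicate (d - l) false`). `V = (Fin d × T) ⊕ T`, `T` infinite and large
(COMP). For `t : Fin d → T` let
`σ0 t` label `(l, t l)` by `μ' l`; by DECV there are `σ t ≥ σ0 t` and a sign `b t` with
`(σ t, ψ^b (z (0, t 0), ..., z (d-1, t (d-1)))) ∈ Θ`. Apply COMP to the functions on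
`Option V`: `none ↦` (sign, list of the labels of the `(l, t l)`), `some v ↦` (label, is `v` one of the
`(l, t l)`). We get `h` and constants `b`, `ν` (`μ ≤ μ' ≤ ν`, pairwise incomparable); because of the
flags `(l, h l n)` is in the domain of `σ (h m)` only for `m l = n`, with label `ν l`. Claim:
`(ν, ψ^b)` is consistent with `P`. Given `P0` and `s : Fin n → Str`: choose `e : Fin n → V` injective,
`e i = (l, h l i)` if `ν l <+: s i` (at most one `l`), otherwise `e i` fresh (outside the domains of all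
`σ (h m)`, `m : Fin d → Fin n`, and of all `(l, h l i)`). Labelling: `s i` at `e i`, elsewhere the union of
the `σ (h m)`. It extends `σ (h m)` whenever `ν l <+: s (m l)` for all `l`. Use the first property of
`Θ` and `z' i = z (e i)`. -/
def Stmt_EXT : Prop :=
  ∀ {I : Type} (P : Set (Prom I)), Cons P → ∀ (ψ : (I → ℕ) → List ℕ → Prop) (μ : List Str),
    ∃ ν : List Str, Ext μ ν ∧
      (Cons (insert ⟨ν, ψ⟩ P) ∨ Cons (insert ⟨ν, fun a c => ¬ ψ a c⟩ P))

/-! ## B. Arithmetical sets and tasks -/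

/-- ARI (120 lines). PROOF. Build a countable closed family: for a countable `A` the set of all `Y` with
`le Y X`, `X ∈ A`, is countable (the functions recursive in an oracle are the closure of a finite set
under four finitary operations: `Nat.RecursiveIn`; e.g. an inductive type of codes or
`FirstOrder.Language.Substructure.closure`), so iterate `ω` times: joins, projections, reducibility. Tasks: an
arithmetical task is determined by a member of `Ari`. -/
def Stmt_ARI : Prop := Ari.Countable ∧ {t : Task | IsT t}.Countable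

/-- NUM (100 lines): the usual functions on `ℤ` (`Primcodable ℤ` is `Primcodable.ofDenumerable ℤ`,
`encode (n : ℤ) = 2 n`, `encode (-[n+1]) = 2 n + 1`) and `ℕ` are primitive recursive. -/
def Stmt_NUM : Prop :=
  Primrec₂ (fun a b : ℤ => a + b) ∧ Primrec₂ (fun a b : ℤ => a * b) ∧ Primrec (fun a : ℤ => -a) ∧
    PrimrecRel (fun a b : ℤ => a ≤ b) ∧ Primrec (fun n : ℕ => (n : ℤ)) ∧ Primrec Int.natAbs ∧
    Primrec₂ (fun a b : ℕ => a ^ b) ∧ Primrec₂ (fun a b : ℕ => a.testBit b) ∧
    Primrec Nat.factorial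

/-- TSK (120 lines, uses NUM for `testBit`): closure properties of the arithmetical tasks. -/
def Stmt_TSK : Prop :=
  IsT tb ∧ IsT tc ∧ (∀ t, IsT t → IsT (th t)) ∧ (∀ t t', IsT t → IsT t' → ∀ n, IsT (jn n t t')) ∧
    (∀ t, IsT t → ∀ idx : List ℕ, IsT (fun j A C => t j (idx.map (fun i => A.getD i 0)) C)) ∧
    (∀ t, IsT t → ∀ idx : List ℕ, IsT (fun j A C => t j A (idx.map (fun i => C.getD i 0))))

/-- EBC (60 lines): use `PS.toSet'` -/
def Stmt_EBC : Prop :=
  ∀ S : Set (Set ℕ), Idl S → ec ∈ S ∧ ∀ X ∈ S, eb X ∈ S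

/-- REB (40 lines): rebuilding lists -/
def Stmt_REB : Prop :=
  ∀ {I : Type} (α γ : List I), (∀ y ∈ α, y ∈ γ) → ∃ idx : List ℕ, (∀ i ∈ idx, i < γ.length) ∧
    ∀ a : I → ℕ, α.map a = idx.map (fun i => (γ.map a).getD i 0)

/-! ## C. One decision -/

/-- GRD (150 lines, uses EXT): greedy decisions. PROOF. Enumerate the codes by their numbers; a code
is accepted if it is consistent with `P`, `E` and the codes accepted before; `D` = `E` and the
accepted codes. `D ∈ S`: `n ∈ D` iff `n ∈ E` or there is `σ : List Bool` of length `n + 1` with last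
entry `true` and, for all `m ≤ n`, `σ m = true` iff `m` is a code and not `Inc` (list of the codes `i < m`
with `σ i = true`, and the code `m`) [`Inc F` depends only on the set of the members of `F`; `PS.ex`,
`PS.ball`, `Primrec.listFilterMap` or a quantifier over `F`]. Consistency: finite character. `Dns`: if no
`(j, ν, b)` with `ν ≥ μ` is accepted, EXT for `P ∪ promS q D` and the literal `j` gives a `(j, ν, b)`
consistent with everything (`prom q (j, ν, false)` is `⟨ν, ¬ ψ⟩` up to `propext`). -/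
def Stmt_GRD : Prop :=
  ∀ S : Set (Set ℕ), Cl S → ∀ {I : Type} (P : Set (Prom I)) (q : Task × List I), ∀ E ∈ S,
    Cons (P ∪ promS q E) → PS S (fun F : List Code => ¬ Cons (P ∪ promS q E ∪ promL q F)) →
    ∃ D ∈ S, E ⊆ D ∧ Dns D ∧ Cons (P ∪ promS q D)

/-- INC1 (150 lines). `x` is a new variable, `th t` is decided by `D'`. PROOF. (⇐) The promise
`(L, μ, false)` and the codes of which the members of `L` are instances cannot be kept for the variables
with labels `μ` (`cons_iff` with this `μ`): `w = a x` is a witness. (⇒) If there are no `μ, L`: given finite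
`P0 = P1 ∪ P2`, `P1 ⊆ P`, and labels `μ`, let `L` be the list of all instances for `μ` of the finitely
many codes of `P2`; `Dns D'` gives `ν ≥ μ` and `b` with `(L, ν, b) ∈ D'`; `b = false` is excluded as
instances for `μ` are instances for `ν`; so `b = true`, `Cons P` gives values for the labels `ν` with
`th t (encode L)`, hence `w`; put `a x = w` (`P` does not depend on `x`, `x ∉ β`). -/
def Stmt_INC1 : Prop :=
  ∀ {I : Type} (P : Set (Prom I)) (x : I) (t : Task) (β : List I) (E D' : Set ℕ), Cons P →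
    (∀ π ∈ P, DepOn {y | y ≠ x} π) → x ∉ β → promS (th t, β) D' ⊆ P → Dns D' →
    ∀ F : List Code, (¬ Cons (P ∪ promS (t, x :: β) E ∪ promL (t, x :: β) F) ↔
      ∃ (μ : List Str) (L : List Lit), (∀ y ∈ L, Inst E F μ y) ∧
        encode ((encode L, μ, false) : Code) ∈ D')

/-- INC2 (80 lines) -/
def Stmt_INC2 : Prop :=
  ∀ S : Set (Set ℕ), Cl S → ∀ E ∈ S, ∀ D' ∈ S, PS S (fun F : List Code =>
    ∃ (μ : List Str) (L : List Lit), (∀ y ∈ L, Inst E F μ y) ∧
      encode ((encode L, μ, false) : Code) ∈ D')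

/-- BAI (120 lines). PROOF. By `cons_iff` the promises of the codes in `E` and `F` are consistent iff for all
lists `G'` of codes in `E` or `F` and all `μ : List Str` there is `c : List ℕ` such that all instances
hold; this is arithmetical in `E` and a set in `Ari ⊆ S`. -/
def Stmt_BAI : Prop :=
  ∀ S : Set (Set ℕ), Cl S → ∀ t, IsT t → ∀ E ∈ S, ∀ {I : Type},
    PS S (fun F : List Code =>
      ¬ Cons (promS ((t, []) : Task × List I) E ∪ promL ((t, []) : Task × List I) F))

/-- CBS (70 lines): the codes of the bits of a new variable are consistent. PROOF. For finitely many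
codes choose `w` with the bits of `X` below `M` and `w ≥ M`; `P` does not depend on `x`. -/
def Stmt_CBS : Prop :=
  ∀ {I : Type} (P : Set (Prom I)) (x : I) (X : Set ℕ), Cons P → (∀ π ∈ P, DepOn {y | y ≠ x} π) →
    Cons (P ∪ promS (tb, [x]) (eb X))

/-- CCS (60 lines): the codes of the bits of the `c`-variables are consistent. PROOF. The value of a
variable with label `s` is `2 ^ |s|` plus the number with bits `s`. -/
def Stmt_CCS : Prop :=
  ∀ {I : Type}, Cons (promS ((tc, []) : Task × List I) ec)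

/-! ## D. All decisions -/

/-- OMG (150 lines, uses GRD). PROOF. Enumerate `Q` as `q 0, q 1, ...`. Construct `Q n ∈ Q` (joins) and
`E n ∈ S` with `Cons (P ∪ promS (Q n) (E n))`: `Q (n+1)` is the join of `Q n` and `q n`; the codes
`(j, μ, b)` of `E n` become `(2 j, μ, b)`; GRD extends them to `E (n+1)`, dense for `Q (n+1)`. So
`promS (Q n) (E n) ⊆ promS (Q (n+1)) (E (n+1))`, and the odd part of `E (n+1)` decides `q n`.
`P' = ⋃ n, P ∪ promS (Q n) (E n)`, `Cons.iUnion`. -/
def Stmt_OMG : Prop :=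
  ∀ S : Set (Set ℕ), Cl S → ∀ {I : Type} (P : Set (Prom I)) (Q : Set (Task × List I)), Q.Countable →
    (∀ q ∈ Q, ∀ q' ∈ Q, ∃ q'' ∈ Q, ∀ (j : ℕ) (μ : List Str) (b : Bool),
      prom q'' (2 * j, μ, b) = prom q (j, μ, b) ∧ prom q'' (2 * j + 1, μ, b) = prom q' (j, μ, b)) →
    (∀ q ∈ Q, ∀ E ∈ S, Cons (P ∪ promS q E) →
      PS S (fun F : List Code => ¬ Cons (P ∪ promS q E ∪ promL q F))) →
    ∀ q0 ∈ Q, ∀ E0 ∈ S, Cons (P ∪ promS q0 E0) →
    ∃ P' : Set (Prom I), P ∪ promS q0 E0 ⊆ P' ∧ Cons P' ∧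
      (∀ π ∈ P', π ∈ P ∨ ∃ q ∈ Q, ∃ x, π = prom q x) ∧
      ∀ q ∈ Q, ∃ D ∈ S, promS q D ⊆ P' ∧ Dns D

/-- START (90 lines, uses ARI, TSK, EBC, BAI, CCS, OMG with `Q = {(t, []) | IsT t}`, `P = ∅`,
`q0 = (tc, [])`, `E0 = ec`; join `jn 0`) -/
def Stmt_START : Prop :=
  ∀ S : Set (Set ℕ), Cl S → ∀ {I : Type}, ∃ P : Set (Prom I), Cons P ∧
    promS ((tc, []) : Task × List I) ec ⊆ P ∧ (∀ π ∈ P, DepOn ∅ π) ∧ Dcd S ∅ P

/-- STEP (150 lines, uses ARI, TSK, EBC, REB, INC1, INC2, CBS, OMG with
`Q = {(t, x :: β) | IsT t, β ⊆ K}`, `q0 = (tb, [x])`, `E0 = eb X`; join `jn |β|`; lists `α` in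
`insert x K`: `α.map a = idx.map (getD ((x :: β).map a))` for `β = α.filter (· ≠ x)`) -/
def Stmt_STEP : Prop :=
  ∀ S : Set (Set ℕ), Cl S → ∀ {I : Type} (K : Set I), K.Countable → ∀ P : Set (Prom I), Cons P →
    (∀ π ∈ P, DepOn K π) → Dcd S K P → ∀ x ∉ K, ∀ X ∈ S,
    ∃ P' : Set (Prom I), P ⊆ P' ∧ promS (tb, [x]) (eb X) ⊆ P' ∧ Cons P' ∧
      (∀ π ∈ P', DepOn (insert x K) π) ∧ Dcd S (insert x K) P'

/-- TRF (120 lines, uses START, STEP). PROOF. Well-order `S` in type at most `ω₁`, so that proper initial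
segments are countable. Zorn for the pairs `(K, P)`, `K` an initial segment, `Cons P`, `DepOn K`,
`Dcd S K P`, the codes of `tc` and of `tb` for all `X ∈ K` in `P` (`Cons.sUnion` for chains; a list is in
one member of the chain). For maximal `(K, P)` with `K ≠ S` apply STEP to the least element outside. -/
def Stmt_TRF : Prop :=
  ∀ S : Set (Set ℕ), Cl S → #S ≤ ℵ₁ → ∃ P : Set (Prom S), Cons P ∧
    promS ((tc, []) : Task × List S) ec ⊆ P ∧ (∀ X : S, promS (tb, [X]) (eb X.1) ⊆ P) ∧
    Dcd S Set.univ P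

/-! ## E. The ultrafilter and its traces -/

/-- ULT (80 lines). PROOF. The sets `{ω | π.φ ω.1 (γ.map ω.2)}` have the finite intersection property:
finitely many involve finitely many `g ∈ G`; label them by long pieces of the `g`; `Cons.fin`. -/
def Stmt_ULT : Prop :=
  ∀ {I : Type} (G : Set (ℕ → Bool)) (P : Set (Prom I)), Cons P → ∃ W : Ultrafilter (Om I G), Kept W P

/-- TRC (120 lines). PROOF. For every `j` the set of the `ν` with `(j, ν, b) ∈ D` for some `b` is in
`S` and dense, so some `ν` with `Forall₂ pre ν γ` is in it (`MutGen`), and the literal `j` is true iff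
`b = true`. The least number coding such a pair `(ν, b)` is computable from `D` and `γ`: `PS.mu` for
the ideal `T`. -/
def Stmt_TRC : Prop :=
  ∀ S : Set (Set ℕ), Cl S → ∀ G, MutGen S G → ∀ {I : Type} (W : Ultrafilter (Om I G)) (t : Task)
    (α : List I), ∀ D ∈ S, Dns D → Kept W (promS (t, α) D) → ∀ γ : List G, γ.Nodup →
    ∀ T : Set (Set ℕ), Idl T → D ∈ T → (∀ g ∈ γ, {n | g.1 n = true} ∈ T) → trc W t α γ ∈ T

/-- GEN (60 lines): the generating sets are traces. -/
def Stmt_GEN : Prop :=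
  ∀ {I : Type} {G : Set (ℕ → Bool)} (W : Ultrafilter (Om I G)),
    (∀ (x : I) (X : Set ℕ), Kept W (promS (tb, [x]) (eb X)) →
      X ∈ Trc W ∧ ∀ M : ℕ, ∀ᶠ ω in (W : Filter (Om I G)), M ≤ ω.1 x) ∧
    (Kept W (promS ((tc, []) : Task × List I) ec) → ∀ g ∈ G, {n | g n = true} ∈ Trc W)

/-- CMB (90 lines, uses REB, TSK): two traces with the same variables -/
def Stmt_CMB : Prop :=
  ∀ {I : Type} {G : Set (ℕ → Bool)} (W : Ultrafilter (Om I G)), ∀ X ∈ Trc W, ∀ Y ∈ Trc W,
    ∃ t t', IsT t ∧ IsT t' ∧ ∃ (α : List I) (γ : List G), γ.Nodup ∧ X = trc W t α γ ∧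
      Y = trc W t' α γ

/-- USE (150 lines). PROOF. Induction on `Nat.RecursiveIn`: for every `f : ℕ →. ℕ` recursive in `X`
there is `B : ℕ → Str → ℕ → Prop` arithmetical, monotone in the string, with `y ∈ f x` iff
`B x (X ↾ n) y` for some `n`. Then `A i s b` iff `B i s 1 ∧ b = true ∨ B i s 0 ∧ b = false`. -/
def Stmt_USE : Prop :=
  ∀ X Y : Set ℕ, le Y X → ∃ A : ℕ → Str → Bool → Prop,
    PS Ari (fun x : ℕ × Str × Bool => A x.1 x.2.1 x.2.2) ∧
    ∀ i : ℕ, (∃ s b, (∀ k < s.length, (s.getD k false = true ↔ k ∈ X)) ∧ A i s b) ∧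
      ∀ s b, (∀ k < s.length, (s.getD k false = true ↔ k ∈ X)) → A i s b → (b = true ↔ i ∈ Y)

/-- TUR (130 lines, uses CMB, USE): the traces form an ideal. PROOF. Turing reducibility: `X` trace of
`t`, `Y` computable from `X` with use relation `A`: the task some `s` with `s k = true ↔ t k` for
`k < |s|` has `A i s true`, and no shorter such `s'` has `A i s' b`. -/
def Stmt_TUR : Prop :=
  ∀ {I : Type} {G : Set (ℕ → Bool)} (W : Ultrafilter (Om I G)), Idl (Trc W)

/-! ## F. The model -/

section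

attribute [local instance] zRing zOrd

/-- SATF (120 lines, uses NUM): satisfaction in `ℤ` is arithmetical. Induction on `φ` for all `α`,
`h` (in the case `∀` use `α × ℤ`); terms first. -/
def Stmt_SATF : Prop :=
  ∀ {m : ℕ} (φ : LL.BoundedFormula Empty m) {α : Type} [Primcodable α] (h : Fin m → α → ℤ),
    (∀ i, ArG (h i)) → PS Ari (fun x => φ.Realize (M := ℤ) default (fun i => h i x))

/-- CMF (80 lines, uses REB): common variables -/
def Stmt_CMF : Prop :=
  ∀ {I : Type} {G : Set (ℕ → Bool)} {m : ℕ} (f : Fin m → Om I G → ℤ), (∀ i, f i ∈ Fn I G) →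
    ∃ (α : List I) (γ : List G), γ.Nodup ∧ ∃ h : Fin m → List ℕ × List ℕ → ℤ, (∀ i, ArG (h i)) ∧
      ∀ i ω, f i ω = h i (α.map ω.1, γ.map ω.2)

/-- SKC (100 lines, uses NUM, CMF, SATF). The choice function: the `y` with the least code. -/
def Stmt_SKC : Prop := ∀ {I : Type} {G : Set (ℕ → Bool)}, SkC (Fn I G)

/-- DF1 (60 lines, uses CMF, SATF) -/
def Stmt_DF1 : Prop :=
  ∀ {I : Type} {G : Set (ℕ → Bool)} (W : Ultrafilter (Om I G)) {m : ℕ}
    (φ : LL.BoundedFormula Empty (m + 1)) (f : Fin m → Om I G → ℤ), (∀ i, f i ∈ Fn I G) →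
    {n : ℕ | ∀ᶠ ω in (W : Filter (Om I G)),
      φ.Realize (M := ℤ) default (Fin.snoc (fun i => f i ω) (n : ℤ) : Fin (m + 1) → ℤ)} ∈ Trc W

/-- DF2 (150 lines, uses NUM). PROOF. `X = trc W t α γ`; with `N = a x`, `d = N !` and
`e = ∏ (1 + (i + 1) d)` over the `i < N` with `t i A C`: for `n < N` and `ω`, `1 + (n + 1) d` divides `e`
iff `t n A C` (the factors are pairwise coprime and greater than `1`). The graph of `e`: there is a
list of the products of the first factors; or code the set of the `i` first. -/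
def Stmt_DF2 : Prop :=
  ∀ {I : Type} {G : Set (ℕ → Bool)} (W : Ultrafilter (Om I G)) (x : I),
    (∀ M : ℕ, ∀ᶠ ω in (W : Filter (Om I G)), M ≤ ω.1 x) → ∀ X ∈ Trc W,
    ∃ d ∈ Fn I G, ∃ e ∈ Fn I G, ∀ n : ℕ, n ∈ X ↔
      ∀ᶠ ω in (W : Filter (Om I G)), (1 + ((n : ℤ) + 1) * d ω) ∣ e ω

/-- MOD (250 lines, adaptation of `MP_e5ffe1_lc_helper93/Model.lean`, `Arith.lean`) -/
def Stmt_MOD : Prop :=
  ∀ {Ω : Type} (W : Ultrafilter Ω) (F : Set (Ω → ℤ)), SkC F →
    ∃ (R : Type) (_ : CommRing R) (_ : LinearOrder R) (_ : IsStrictOrderedRing R)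
      (_ : FirstOrder.Ring.CompatibleRing R)
      (_ : FirstOrder.Language.order.Structure R)
      (_ : FirstOrder.Language.OrderedStructure FirstOrder.Language.order R),
      (∀ x : R, 0 < x → 1 ≤ x) ∧
      (∀ D : Set (Fin 1 → R), (Set.univ : Set R).Definable LL D →
        (fun _ : Fin 1 => (0 : R)) ∈ D →
        (∀ x : R, 0 ≤ x → (fun _ : Fin 1 => x) ∈ D → (fun _ : Fin 1 => x + 1) ∈ D) →
        ∀ x : R, 0 ≤ x → (fun _ : Fin 1 => x) ∈ D) ∧
      ∃ r : (Ω → ℤ) → R, (∀ x : R, ∃ f ∈ F, x = r f) ∧ (∀ n : ℕ, r (fun _ => (n : ℤ)) = n) ∧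
        ∀ (m : ℕ) (φ : LL.BoundedFormula Empty m) (f : Fin m → Ω → ℤ), (∀ i, f i ∈ F) →
          (φ.Realize (M := R) default (fun i => r (f i)) ↔
            ∀ᶠ ω in (W : Filter Ω), φ.Realize (M := ℤ) default (fun i => f i ω))

end

end Pool.Agent.Work.MP_e5ffe1_gen
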