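import Pool.Agent.Work.MP_e5ffe1_gen.Interface

/-! Block KEY: countable partial functions, infinitely many are pairwise compatible. -/

set_option autoImplicit false

namespace Pool.Agent.Work.MP_e5ffe1_gen

open Cardinal

namespace KEY

theorem arrow_le (X Y : Type) [Countable X] (h : #Y ≤ 𝔠) : #(X → Y) ≤ 𝔠 := by
  have h1 : #(X → Y) = #Y ^ #X := by simp
  rw [h1]
  calc #Y ^ #X ≤ 𝔠 ^ #X := Cardinal.power_le_power_right h
    _ ≤ 𝔠 ^ ℵ₀ := Cardinal.power_le_power_left continuum_ne_zero (Cardinal.mk_le_aleph0)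
    _ = 𝔠 := continuum_power_aleph0

theorem option_le (C : Type) (h : #C ≤ 𝔠) : #(Option C) ≤ 𝔠 := by
  rw [Cardinal.mk_option]
  calc #C + 1 ≤ 𝔠 + 1 := by gcongr
    _ = 𝔠 := by exact_mod_cast continuum_add_nat 1

theorem prod_le (X Y : Type) (hX : #X ≤ 𝔠) (hY : #Y ≤ 𝔠) : #(X × Y) ≤ 𝔠 := by
  have h1 : #(X × Y) = #X * #Y := by simp
  rw [h1]
  calc #X * #Y ≤ 𝔠 * 𝔠 := mul_le_mul' hX hY
    _ = 𝔠 := continuum_mul_self

theorem bool_le : #Bool ≤ 𝔠 := by
  have : #Bool = 2 := by simp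
  rw [this]
  exact_mod_cast (nat_lt_continuum 2).le

/-- a set of size at most `2 ^ 𝔠` can be separated by sequences of bits -/
theorem exists_sep (V : Type) (V' : Set V) (h : #V' ≤ 2 ^ 𝔠) :
    ∃ j : V → ((ℕ → Bool) → Bool), ∀ v ∈ V', ∀ w ∈ V', j v = j w → v = w := by
  classical
  have h1 : #((ℕ → Bool) → Bool) = 2 ^ 𝔠 := by simp
  rw [← h1] at h
  obtain ⟨e⟩ := h
  refine ⟨fun v => if hv : v ∈ V' then e ⟨v, hv⟩ else fun _ => false, ?_⟩
  intro v hv w hw hvw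
  simp only [dif_pos hv, dif_pos hw] at hvw
  exact congrArg Subtype.val (e.injective hvw)

end KEY

theorem blk_KEY : Stmt_KEY := by
  classical
  intro T V C f hC hT hcount
  obtain ⟨T', hT'⟩ : ∃ T' : Set T, #T' = Order.succ 𝔠 :=
    le_mk_iff_exists_set.1 (Order.succ_le_of_lt hT)
  have hinf : Infinite T' := by
    rw [Cardinal.infinite_iff, hT']
    exact aleph0_le_continuum.trans (Order.le_succ _)
  rcases isEmpty_or_nonempty V with hV | hV
  · let e := Infinite.natEmbedding T'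
    exact ⟨fun n => (e n).1, fun n m hnm => e.injective (Subtype.ext hnm),
      fun _ _ v => (hV.false v).elim⟩
  set V' : Set V := ⋃ t : T', {v | f t.1 v ≠ none} with hV'
  have hcard : #V' ≤ 2 ^ 𝔠 := by
    have h1 : #V' ≤ #T' * ℵ₀ := by
      rw [hV']
      refine (mk_iUnion_le _).trans (mul_le_mul' le_rfl ?_)
      exact ciSup_le' fun t => Cardinal.le_aleph0_iff_set_countable.2 (hcount t.1)
    refine h1.trans ?_
    have h2 : #T' * ℵ₀ ≤ Order.succ 𝔠 * Order.succ 𝔠 := by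
      rw [hT']
      exact mul_le_mul' le_rfl (aleph0_le_continuum.trans (Order.le_succ _))
    refine h2.trans ?_
    rw [Cardinal.mul_eq_self (aleph0_le_continuum.trans (Order.le_succ _))]
    exact Order.succ_le_of_lt (Cardinal.cantor 𝔠)
  obtain ⟨j, hj⟩ := KEY.exists_sep V V' hcard
  -- enumerations of the domains
  have henum : ∀ t : T, ∃ e : ℕ → V, (∃ v, f t v ≠ none) →
      ∀ v, f t v ≠ none ↔ ∃ n, e n = v := by
    intro t
    by_cases h : ∃ v, f t v ≠ none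
    · obtain ⟨e, he⟩ := (hcount t).exists_eq_range h
      refine ⟨e, fun _ v => ?_⟩
      have h1 : v ∈ {v | f t v ≠ none} ↔ v ∈ Set.range e := by rw [he]
      exact h1
    · exact ⟨fun _ => Classical.arbitrary V, fun h' => absurd h' h⟩
  choose e he using henum
  -- separating coordinates
  have hsep : ∀ t : T, ∀ p : ℕ × ℕ, ∃ x : ℕ → Bool,
      (j (e t p.1) ≠ j (e t p.2) → j (e t p.1) x ≠ j (e t p.2) x) := by
    intro t p
    by_cases h : j (e t p.1) = j (e t p.2)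
    · exact ⟨fun _ => false, fun h' => absurd h h'⟩
    · obtain ⟨x, hx⟩ := Function.ne_iff.1 h
      exact ⟨x, fun _ => hx⟩
  choose q hq using hsep
  let K : Type := (ℕ × ℕ → ℕ → Bool) × (ℕ → ℕ × ℕ → Bool) × (ℕ → Option C)
  let key : T' → K := fun t =>
    (q t.1, fun n p => j (e t.1 n) (q t.1 p), fun n => f t.1 (e t.1 n))
  have hK : #K ≤ 𝔠 := by
    refine KEY.prod_le _ _ (KEY.arrow_le _ _ (KEY.arrow_le _ _ KEY.bool_le))
      (KEY.prod_le _ _ (KEY.arrow_le _ _ (KEY.arrow_le _ _ KEY.bool_le))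
        (KEY.arrow_le _ _ (KEY.option_le _ hC)))
  obtain ⟨a, ha⟩ := exists_infinite_fiber key (by
    rw [hT']
    exact hK.trans_lt (Order.lt_succ _))
  let g := Infinite.natEmbedding (key ⁻¹' {a})
  refine ⟨fun n => (g n).1.1, fun n m hnm => g.injective (Subtype.ext (Subtype.ext hnm)), ?_⟩
  intro n m v c c' h1 h2
  have hk : key (g n).1 = key (g m).1 := by
    have h3 : key (g n).1 = a := (g n).2
    have h4 : key (g m).1 = a := (g m).2
    rw [h3, h4]
  obtain ⟨t, ht⟩ : ∃ t, t = (g n).1 := ⟨_, rfl⟩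
  obtain ⟨t', ht'⟩ : ∃ t', t' = (g m).1 := ⟨_, rfl⟩
  dsimp only at h1 h2
  rw [← ht] at h1
  rw [← ht'] at h2
  rw [← ht, ← ht'] at hk
  have hk1 : q t.1 = q t'.1 := congrArg (fun x : K => x.1) hk
  have hk2 : (fun n p => j (e t.1 n) (q t.1 p)) = (fun n p => j (e t'.1 n) (q t'.1 p)) :=
    congrArg (fun x : K => x.2.1) hk
  have hk3 : (fun n => f t.1 (e t.1 n)) = (fun n => f t'.1 (e t'.1 n)) :=
    congrArg (fun x : K => x.2.2) hk
  have d1 : f t.1 v ≠ none := by rw [h1]; simp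
  have d2 : f t'.1 v ≠ none := by rw [h2]; simp
  obtain ⟨n1, hn1⟩ := (he t.1 ⟨v, d1⟩ v).1 d1
  obtain ⟨m1, hm1⟩ := (he t'.1 ⟨v, d2⟩ v).1 d2
  have hmem : ∀ i, e t.1 i ∈ V' := by
    intro i
    exact Set.mem_iUnion.2 ⟨t, (he t.1 ⟨v, d1⟩ _).2 ⟨i, rfl⟩⟩
  have hem : e t.1 n1 = e t.1 m1 := by
    refine hj _ (hmem _) _ (hmem _) ?_
    by_contra hne
    have h3 := hq t.1 (n1, m1) hne
    apply h3
    have h4 : j (e t.1 m1) (q t.1 (n1, m1)) = j (e t'.1 m1) (q t'.1 (n1, m1)) :=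
      congrFun (congrFun hk2 m1) (n1, m1)
    dsimp only at h4 ⊢
    rw [h4, hm1, hn1, hk1]
  have h5 : f t.1 (e t.1 m1) = f t'.1 (e t'.1 m1) := congrFun hk3 m1
  rw [← hem, hn1, hm1, h1, h2] at h5
  exact Option.some_injective _ h5

end Pool.Agent.Work.MP_e5ffe1_gen
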