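import Pool.Agent.Work.MP_e5ffe1_gen.Interface

/-! The model: germs of the functions in a class closed under choice functions. -/

set_option autoImplicit false

namespace Pool.Agent.Work.MP_e5ffe1_gen

open Pool.Agent.Work.MP_e5ffe1_h93 (LL zRing zOrd def_repr leastOut real_leastOut)
open FirstOrder FirstOrder.Language FirstOrder.Ring Filter

attribute [local instance] zRing zOrd

section

variable {Ω : Type} (W : Ultrafilter Ω) {F : Set (Ω → ℤ)} (hF : SkC F)

/-- the ring of germs -/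
noncomputable def MR : Subring (Germ (W : Filter Ω) ℤ) where
  carrier := {x | ∃ f ∈ F, x = ((f : Ω → ℤ) : Germ (W : Filter Ω) ℤ)}
  mul_mem' := by
    rintro _ _ ⟨t, ht, rfl⟩ ⟨s, hs, rfl⟩
    exact ⟨_, hF.mul t ht s hs, rfl⟩
  one_mem' := ⟨_, hF.one, rfl⟩
  add_mem' := by
    rintro _ _ ⟨t, ht, rfl⟩ ⟨s, hs, rfl⟩
    exact ⟨_, hF.add t ht s hs, rfl⟩
  zero_mem' := ⟨_, hF.zero, rfl⟩
  neg_mem' := by
    rintro _ ⟨t, ht, rfl⟩
    exact ⟨_, hF.neg t ht, rfl⟩

open Classical in
/-- the element given by a function -/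
noncomputable def mr (f : Ω → ℤ) : MR W hF :=
  if h : f ∈ F then ⟨(f : Germ (W : Filter Ω) ℤ), f, h, rfl⟩ else 0

variable {W hF}

theorem mr_coe {f : Ω → ℤ} (h : f ∈ F) :
    ((mr W hF f : MR W hF) : Germ (W : Filter Ω) ℤ) = (f : Germ (W : Filter Ω) ℤ) := by
  unfold mr
  rw [dif_pos h]

theorem mr_surj (x : MR W hF) : ∃ f ∈ F, x = mr W hF f := by
  obtain ⟨x, f, hf, hx⟩ := x
  refine ⟨f, hf, Subtype.ext ?_⟩
  rw [mr_coe hf]
  exact hx

theorem mr_eq {f g : Ω → ℤ} (hf : f ∈ F) (hg : g ∈ F) :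
    mr W hF f = mr W hF g ↔ ∀ᶠ ω in (W : Filter Ω), f ω = g ω := by
  rw [Subtype.ext_iff, mr_coe hf, mr_coe hg]
  exact Germ.coe_eq

theorem mr_le {f g : Ω → ℤ} (hf : f ∈ F) (hg : g ∈ F) :
    mr W hF f ≤ mr W hF g ↔ ∀ᶠ ω in (W : Filter Ω), f ω ≤ g ω := by
  rw [← Subtype.coe_le_coe, mr_coe hf, mr_coe hg]
  exact Germ.coe_le

theorem mr_lt {f g : Ω → ℤ} (hf : f ∈ F) (hg : g ∈ F) :
    mr W hF f < mr W hF g ↔ ∀ᶠ ω in (W : Filter Ω), f ω < g ω := by
  rw [← Subtype.coe_lt_coe, mr_coe hf, mr_coe hg]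
  exact Germ.coe_lt

theorem mr_add {f g : Ω → ℤ} (hf : f ∈ F) (hg : g ∈ F) :
    mr W hF f + mr W hF g = mr W hF (fun ω => f ω + g ω) := by
  apply Subtype.ext
  rw [mr_coe (hF.add f hf g hg), Subring.coe_add, mr_coe hf, mr_coe hg]
  rfl

theorem mr_mul {f g : Ω → ℤ} (hf : f ∈ F) (hg : g ∈ F) :
    mr W hF f * mr W hF g = mr W hF (fun ω => f ω * g ω) := by
  apply Subtype.ext
  rw [mr_coe (hF.mul f hf g hg), Subring.coe_mul, mr_coe hf, mr_coe hg]
  rfl

theorem mr_neg {f : Ω → ℤ} (hf : f ∈ F) : - mr W hF f = mr W hF (fun ω => - f ω) := by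
  apply Subtype.ext
  rw [mr_coe (hF.neg f hf), Subring.coe_neg, mr_coe hf]
  rfl

theorem mr_zero : (0 : MR W hF) = mr W hF (fun _ => 0) := by
  apply Subtype.ext
  rw [mr_coe hF.zero]
  rfl

theorem mr_one : (1 : MR W hF) = mr W hF (fun _ => 1) := by
  apply Subtype.ext
  rw [mr_coe hF.one]
  rfl

theorem nat_mem (hF : SkC F) (n : ℕ) : (fun _ : Ω => (n : ℤ)) ∈ F := by
  induction n with
  | zero => exact hF.zero
  | succ n ih =>
    have := hF.add _ ih _ hF.one
    have e : (fun _ : Ω => ((n + 1 : ℕ) : ℤ)) = fun _ => (n : ℤ) + 1 := by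
      funext ω; push_cast; ring
    rw [e]; exact this

theorem mr_nat (n : ℕ) : mr W hF (fun _ => (n : ℤ)) = (n : MR W hF) := by
  induction n with
  | zero => rw [Nat.cast_zero]; exact mr_zero.symm
  | succ n ih =>
    have e : (fun _ : Ω => ((n + 1 : ℕ) : ℤ)) = fun _ => (n : ℤ) + 1 := by
      funext ω; push_cast; ring
    rw [e, Nat.cast_succ, ← ih, mr_one, mr_add (nat_mem hF n) hF.one]

variable (W hF)

@[reducible] noncomputable def mRing : CompatibleRing (MR W hF) := compatibleRingOfRing (MR W hF)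
@[reducible] noncomputable def mOrd : Language.order.Structure (MR W hF) :=
  orderStructure (MR W hF)

variable {W hF}

attribute [local instance] mRing mOrd

/-- values of terms -/
theorem mr_term {m : ℕ} (t : LL.Term (Empty ⊕ Fin m)) (f : Fin m → Ω → ℤ) (hf : ∀ i, f i ∈ F) :
    (fun ω => t.realize (Sum.elim default (fun i => f i ω)) : Ω → ℤ) ∈ F ∧
    mr W hF (fun ω => t.realize (Sum.elim default (fun i => f i ω))) =
      t.realize (Sum.elim default (fun i => mr W hF (f i))) := by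
  induction t with
  | var x =>
    rcases x with x | x
    · exact x.elim
    · exact ⟨hf x, rfl⟩
  | @func l s args ih =>
    rcases s with s | s
    · cases s with
      | add =>
        have h0 := ih 0
        have h1 := ih 1
        refine ⟨hF.add _ h0.1 _ h1.1, ?_⟩
        have h2 := mr_add (W := W) (hF := hF) h0.1 h1.1
        rw [h0.2, h1.2] at h2
        exact h2.symm
      | mul =>
        have h0 := ih 0
        have h1 := ih 1
        refine ⟨hF.mul _ h0.1 _ h1.1, ?_⟩
        have h2 := mr_mul (W := W) (hF := hF) h0.1 h1.1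
        rw [h0.2, h1.2] at h2
        exact h2.symm
      | neg =>
        have h0 := ih 0
        refine ⟨hF.neg _ h0.1, ?_⟩
        have h2 := mr_neg (W := W) (hF := hF) h0.1
        rw [h0.2] at h2
        exact h2.symm
      | zero => exact ⟨hF.zero, mr_zero.symm⟩
      | one => exact ⟨hF.one, mr_one.symm⟩
    · exact s.elim

/-- Łoś's theorem -/
theorem mr_los {m : ℕ} (φ : LL.BoundedFormula Empty m) :
    ∀ f : Fin m → Ω → ℤ, (∀ i, f i ∈ F) →
      (φ.Realize (M := MR W hF) default (fun i => mr W hF (f i)) ↔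
        ∀ᶠ ω in (W : Filter Ω), φ.Realize (M := ℤ) default (fun i => f i ω)) := by
  induction φ with
  | falsum =>
    intro f _
    simp only [BoundedFormula.Realize]
    constructor
    · intro h; exact h.elim
    · intro h; exact h.exists.choose_spec
  | equal t s =>
    intro f hf
    simp only [BoundedFormula.Realize]
    have ht := mr_term (W := W) (hF := hF) t f hf
    have hs := mr_term (W := W) (hF := hF) s f hf
    rw [← ht.2, ← hs.2, mr_eq ht.1 hs.1]
  | @rel m l R args =>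
    intro f hf
    rcases R with R | R
    · exact R.elim
    · cases R with
      | le =>
        have ht := mr_term (W := W) (hF := hF) (args 0) f hf
        have hs := mr_term (W := W) (hF := hF) (args 1) f hf
        have h1 : (BoundedFormula.rel (Sum.inr orderRel.le : LL.Relations 2) args).Realize
            (M := MR W hF) default (fun i => mr W hF (f i)) ↔
            (args 0).realize (Sum.elim default (fun i => mr W hF (f i))) ≤
              (args 1).realize (Sum.elim default (fun i => mr W hF (f i))) := Iff.rfl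
        rw [h1, ← ht.2, ← hs.2, mr_le ht.1 hs.1]
        rfl
  | imp φ ψ ih ih' =>
    intro f hf
    simp only [BoundedFormula.Realize]
    rw [ih f hf, ih' f hf, Ultrafilter.eventually_imp]
  | @all m φ ih =>
    intro f hf
    have hsnoc : ∀ (g : Ω → ℤ), (Fin.snoc (fun i => mr W hF (f i)) (mr W hF g) :
        Fin (m + 1) → MR W hF) =
        fun i => mr W hF ((Fin.snoc f g : Fin (m + 1) → Ω → ℤ) i) := by
      intro g
      funext i
      refine Fin.lastCases ?_ (fun j => ?_) i
      · simp only [Fin.snoc_last]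
      · simp only [Fin.snoc_castSucc]
    have hsnoc' : ∀ (g : Ω → ℤ) (ω : Ω),
        (fun i => (Fin.snoc f g : Fin (m + 1) → Ω → ℤ) i ω) =
        (Fin.snoc (fun i => f i ω) (g ω) : Fin (m + 1) → ℤ) := by
      intro g ω
      funext i
      refine Fin.lastCases ?_ (fun j => ?_) i
      · simp only [Fin.snoc_last]
      · simp only [Fin.snoc_castSucc]
    have hmem : ∀ g ∈ F, ∀ i, (Fin.snoc f g : Fin (m + 1) → Ω → ℤ) i ∈ F := by
      intro g hg i
      refine Fin.lastCases ?_ (fun j => ?_) i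
      · rw [Fin.snoc_last]; exact hg
      · rw [Fin.snoc_castSucc]; exact hf j
    simp only [BoundedFormula.Realize]
    constructor
    · intro h
      obtain ⟨g, hg, hgs⟩ := hF.sk m (∼φ) f hf
      have h1 := h (mr W hF g)
      rw [hsnoc g, ih _ (hmem g hg)] at h1
      refine h1.mono (fun ω hω => ?_)
      rw [hsnoc'] at hω
      by_contra hcon
      push Not at hcon
      obtain ⟨y, hy⟩ := hcon
      have h2 := hgs ω ⟨y, (BoundedFormula.realize_not).2 hy⟩
      exact (BoundedFormula.realize_not).1 h2 hω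
    · intro h x
      obtain ⟨g, hg, rfl⟩ := mr_surj x
      rw [hsnoc g, ih _ (hmem g hg)]
      refine h.mono (fun ω hω => ?_)
      rw [hsnoc']
      exact hω _

theorem mr_discrete (x : MR W hF) (hx : 0 < x) : 1 ≤ x := by
  obtain ⟨f, hf, rfl⟩ := mr_surj x
  rw [mr_zero, mr_lt hF.zero hf] at hx
  rw [mr_one, mr_le hF.one hf]
  refine hx.mono (fun ω hω => ?_)
  omega

theorem mr_induction (D : Set (Fin 1 → MR W hF))
    (hD : (Set.univ : Set (MR W hF)).Definable LL D)
    (h0 : (fun _ : Fin 1 => (0 : MR W hF)) ∈ D)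
    (hs : ∀ x : MR W hF, 0 ≤ x → (fun _ : Fin 1 => x) ∈ D → (fun _ : Fin 1 => x + 1) ∈ D) :
    ∀ x : MR W hF, 0 ≤ x → (fun _ : Fin 1 => x) ∈ D := by
  classical
  obtain ⟨m, φ, b, hb⟩ := def_repr hD
  by_contra hcon
  push Not at hcon
  obtain ⟨x, hx0, hx⟩ := hcon
  choose T hTF hT using fun i => mr_surj (b i)
  obtain ⟨tx, htx, rfl⟩ := mr_surj x
  have hsn : ∀ g : Ω → ℤ, (Fin.snoc b (mr W hF g) : Fin (m + 1) → MR W hF) =
      fun i => mr W hF ((Fin.snoc T g : Fin (m + 1) → Ω → ℤ) i) := by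
    intro g
    funext i
    refine Fin.lastCases ?_ (fun j => ?_) i
    · simp only [Fin.snoc_last]
    · simp only [Fin.snoc_castSucc, hT]
  have hsn' : ∀ (g : Ω → ℤ) (ω : Ω),
      (fun i => ((Fin.snoc T g : Fin (m + 1) → Ω → ℤ) i) ω) =
      (Fin.snoc (fun i => T i ω) (g ω) : Fin (m + 1) → ℤ) := by
    intro g ω
    funext i
    refine Fin.lastCases ?_ (fun j => ?_) i
    · simp only [Fin.snoc_last]
    · simp only [Fin.snoc_castSucc]
  have hmemF : ∀ g ∈ F, ∀ i, (Fin.snoc T g : Fin (m + 1) → Ω → ℤ) i ∈ F := by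
    intro g hg i
    refine Fin.lastCases ?_ (fun j => ?_) i
    · rw [Fin.snoc_last]; exact hg
    · rw [Fin.snoc_castSucc]; exact hTF j
  have hmem : ∀ g ∈ F, ((fun _ : Fin 1 => mr W hF g) ∈ D ↔
      ∀ᶠ ω in (W : Filter Ω), φ.Realize (M := ℤ) default
        (Fin.snoc (fun i => T i ω) (g ω) : Fin (m + 1) → ℤ)) := by
    intro g hg
    rw [hb, hsn, mr_los φ _ (hmemF g hg)]
    simp only [hsn']
  rw [mr_zero, hmem _ hF.zero] at h0
  rw [hmem _ htx, ← Ultrafilter.eventually_not] at hx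
  rw [mr_zero, mr_le hF.zero htx] at hx0
  obtain ⟨g, hg, hgs⟩ := hF.sk m (leastOut φ) T hTF
  have hspec : ∀ᶠ ω in (W : Filter Ω), (leastOut φ).Realize (M := ℤ) default
      (Fin.snoc (fun i => T i ω) (g ω) : Fin (m + 1) → ℤ) := by
    filter_upwards [hx, hx0] with ω hn hn0
    apply hgs
    have hex : ∃ k : ℕ, ¬ φ.Realize (M := ℤ) default
        (Fin.snoc (fun i => T i ω) (k : ℤ) : Fin (m + 1) → ℤ) := by
      refine ⟨(tx ω).toNat, ?_⟩
      rw [Int.toNat_of_nonneg hn0]
      exact hn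
    refine ⟨(Nat.find hex : ℤ), ?_⟩
    rw [real_leastOut]
    refine ⟨Nat.find_spec hex, Int.natCast_nonneg _, fun z hz hz' => ?_⟩
    have h1 := Nat.find_min hex (m := z.toNat) (by omega)
    rw [not_not, Int.toNat_of_nonneg hz] at h1
    exact h1
  have hg1 : (fun ω => g ω + - 1) ∈ F := hF.add g hg _ (hF.neg _ hF.one)
  have hle : (0 : MR W hF) ≤ mr W hF (fun ω => g ω + - 1) := by
    rw [mr_zero, mr_le hF.zero hg1]
    filter_upwards [hspec, h0] with ω hn hn0
    rw [real_leastOut] at hn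
    have : g ω ≠ 0 := by
      intro e
      rw [e] at hn
      exact hn.1 hn0
    have := hn.2.1
    omega
  have hD1 : (fun _ : Fin 1 => mr W hF (fun ω => g ω + - 1)) ∈ D := by
    rw [hmem _ hg1]
    filter_upwards [hspec, h0] with ω hn hn0
    rw [real_leastOut] at hn
    have h2 : g ω ≠ 0 := by
      intro e
      rw [e] at hn
      exact hn.1 hn0
    have h3 := hn.2.1
    exact hn.2.2 _ (by omega) (by omega)
  have hD2 := hs _ hle hD1
  have e3 : mr W hF (fun ω => g ω + - 1) + 1 = mr W hF g := by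
    rw [mr_one, mr_add hg1 hF.one, mr_eq (hF.add _ hg1 _ hF.one) hg]
    refine Eventually.of_forall (fun ω => ?_)
    ring
  rw [e3, hmem _ hg] at hD2
  obtain ⟨ω, hn1, hn2⟩ := (hD2.and hspec).exists
  rw [real_leastOut] at hn2
  exact hn2.1 hn1

end

attribute [local instance] mRing mOrd

theorem blk_MOD : Stmt_MOD := by
  intro Ω W F hF
  exact ⟨MR W hF, inferInstance, inferInstance, inferInstance, mRing W hF, mOrd W hF,
    ⟨fun _ => Iff.rfl⟩, mr_discrete, mr_induction, mr W hF, mr_surj, mr_nat,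
    fun m φ f hf => mr_los φ f hf⟩

end Pool.Agent.Work.MP_e5ffe1_gen
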