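import Pool.Agent.Work.MP_e5ffe1_gen.Interface

/-! # Block NUM: primitive recursive functions on `ℤ` and `ℕ` (helper74) -/

set_option autoImplicit false

namespace Pool.Agent.Work.MP_e5ffe1_gen

open Encodable Denumerable

namespace NUM

theorem enc_nat (n : ℕ) : encode (n : ℤ) = 2 * n := rfl

theorem enc_neg (n : ℕ) : encode (Int.negSucc n) = 2 * n + 1 := rfl

/-- difference of natural numbers -/
theorem sub' : Primrec₂ (fun p q : ℕ => (p : ℤ) - q) := by
  have h1 : Primrec₂ (fun p q : ℕ => if q ≤ p then 2 * (p - q) else 2 * (q - p - 1) + 1) := by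
    refine Primrec.ite (Primrec.nat_le.comp Primrec.snd Primrec.fst) ?_ ?_
    · exact Primrec.nat_mul.comp (Primrec.const 2) (Primrec.nat_sub.comp Primrec.fst Primrec.snd)
    · exact Primrec.nat_add.comp (Primrec.nat_mul.comp (Primrec.const 2)
        (Primrec.nat_sub.comp (Primrec.nat_sub.comp Primrec.snd Primrec.fst) (Primrec.const 1)))
        (Primrec.const 1)
  have h2 : Primrec₂ (fun p q : ℕ => ofNat ℤ (if q ≤ p then 2 * (p - q)
      else 2 * (q - p - 1) + 1)) := (Primrec.ofNat ℤ).comp h1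
  refine h2.of_eq ?_
  rintro p q
  by_cases h : q ≤ p
  · simp only [if_pos h]
    rw [← enc_nat, ofNat_encode, Nat.cast_sub h]
  · simp only [if_neg h]
    rw [← enc_neg, ofNat_encode, Int.negSucc_eq]
    omega

theorem toNat' : Primrec Int.toNat := by
  have h1 : Primrec (fun m : ℕ => if m % 2 = 0 then m / 2 else 0) :=
    Primrec.ite (Primrec.eq.comp (Primrec.nat_mod.comp Primrec.id (Primrec.const 2))
      (Primrec.const 0)) (Primrec.nat_div.comp Primrec.id (Primrec.const 2)) (Primrec.const 0)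
  refine (h1.comp Primrec.encode).of_eq fun a => ?_
  cases a with
  | ofNat n =>
    have : encode (Int.ofNat n) = 2 * n := rfl
    rw [this]
    simp
  | negSucc n =>
    have : encode (Int.negSucc n) = 2 * n + 1 := rfl
    rw [this]
    have h2 : (2 * n + 1) % 2 ≠ 0 := by omega
    rw [if_neg h2]
    rfl

theorem toNatNeg : Primrec (fun a : ℤ => (-a).toNat) := by
  have h1 : Primrec (fun m : ℕ => if m % 2 = 0 then 0 else m / 2 + 1) :=
    Primrec.ite (Primrec.eq.comp (Primrec.nat_mod.comp Primrec.id (Primrec.const 2))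
      (Primrec.const 0)) (Primrec.const 0)
      (Primrec.nat_add.comp (Primrec.nat_div.comp Primrec.id (Primrec.const 2)) (Primrec.const 1))
  refine (h1.comp Primrec.encode).of_eq fun a => ?_
  cases a with
  | ofNat n =>
    have : encode (Int.ofNat n) = 2 * n := rfl
    rw [this]
    have h2 : (2 * n) % 2 = 0 := by omega
    rw [if_pos h2]
    have : (-(Int.ofNat n)).toNat = 0 := by
      rw [Int.toNat_eq_zero]
      have : (0 : ℤ) ≤ Int.ofNat n := Int.natCast_nonneg n
      omega
    exact this.symm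
  | negSucc n =>
    have : encode (Int.negSucc n) = 2 * n + 1 := rfl
    rw [this]
    have h2 : (2 * n + 1) % 2 ≠ 0 := by omega
    rw [if_neg h2]
    have h3 : (2 * n + 1) / 2 = n := by omega
    rw [h3, Int.neg_negSucc]
    rfl

theorem toNat_sub_neg (a : ℤ) : a = (a.toNat : ℤ) - ((-a).toNat : ℤ) := by omega

end NUM

open NUM in
theorem blk_NUM : Stmt_NUM := by
  have P1 : Primrec (fun x : ℤ × ℤ => x.1.toNat) := toNat'.comp Primrec.fst
  have P2 : Primrec (fun x : ℤ × ℤ => x.2.toNat) := toNat'.comp Primrec.snd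
  have Q1 : Primrec (fun x : ℤ × ℤ => (-x.1).toNat) := toNatNeg.comp Primrec.fst
  have Q2 : Primrec (fun x : ℤ × ℤ => (-x.2).toNat) := toNatNeg.comp Primrec.snd
  refine ⟨?_, ?_, ?_, ?_, ?_, ?_, ?_, ?_, ?_⟩
  · have h : Primrec (fun x : ℤ × ℤ => ((x.1.toNat + x.2.toNat : ℕ) : ℤ) -
        (((-x.1).toNat + (-x.2).toNat : ℕ) : ℤ)) :=
      sub'.comp (Primrec.nat_add.comp P1 P2) (Primrec.nat_add.comp Q1 Q2)
    refine h.of_eq fun x => ?_
    show _ = x.1 + x.2
    omega
  · have h : Primrec (fun x : ℤ × ℤ =>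
        ((x.1.toNat * x.2.toNat + (-x.1).toNat * (-x.2).toNat : ℕ) : ℤ) -
        ((x.1.toNat * (-x.2).toNat + (-x.1).toNat * x.2.toNat : ℕ) : ℤ)) :=
      sub'.comp (Primrec.nat_add.comp (Primrec.nat_mul.comp P1 P2) (Primrec.nat_mul.comp Q1 Q2))
        (Primrec.nat_add.comp (Primrec.nat_mul.comp P1 Q2) (Primrec.nat_mul.comp Q1 P2))
    refine h.of_eq fun x => ?_
    have e1 := toNat_sub_neg x.1
    have e2 := toNat_sub_neg x.2
    set a := x.1.toNat
    set b := x.2.toNat
    set c := (-x.1).toNat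
    set d := (-x.2).toNat
    rw [e1, e2]
    push_cast
    ring
  · have h : Primrec (fun a : ℤ => ((-a).toNat : ℤ) - (a.toNat : ℤ)) := sub'.comp toNatNeg toNat'
    refine h.of_eq fun a => ?_
    omega
  · have h : PrimrecRel (fun a b : ℤ => a.toNat + (-b).toNat ≤ b.toNat + (-a).toNat) :=
      Primrec.nat_le.comp (Primrec.nat_add.comp P1 Q2) (Primrec.nat_add.comp P2 Q1)
    refine h.of_eq fun a b => ?_
    omega
  · have h : Primrec (fun n : ℕ => (n : ℤ) - ((0 : ℕ) : ℤ)) := sub'.comp Primrec.id (Primrec.const 0)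
    refine h.of_eq fun n => ?_
    simp
  · refine (Primrec.nat_add.comp toNat' toNatNeg).of_eq fun a => ?_
    omega
  · exact Primrec₂.unpaired'.1 Nat.Primrec.pow
  · have hpow : Primrec₂ (fun a b : ℕ => a ^ b) := Primrec₂.unpaired'.1 Nat.Primrec.pow
    have h : Primrec (fun x : ℕ × ℕ => decide (x.1 / 2 ^ x.2 % 2 = 1)) := by
      refine PrimrecPred.decide ?_
      exact Primrec.eq.comp (Primrec.nat_mod.comp (Primrec.nat_div.comp Primrec.fst
        (hpow.comp (Primrec.const 2) Primrec.snd)) (Primrec.const 2)) (Primrec.const 1)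
    refine h.of_eq fun x => ?_
    exact (Nat.testBit_eq_decide_div_mod_eq).symm
  · have h : Primrec (fun n : ℕ => (n.rec 1 (fun m ih => (m + 1) * ih) : ℕ)) :=
      Primrec.nat_rec₁ 1 (Primrec.nat_mul.comp (Primrec.succ.comp Primrec.fst) Primrec.snd)
    refine h.of_eq fun n => ?_
    induction n with
    | zero => rfl
    | succ n ih =>
      rw [Nat.factorial_succ, ← ih]

end Pool.Agent.Work.MP_e5ffe1_gen
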