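import Pool.Agent.Work.MP_e5ffe1_gen.Interface

/-! Block OMG: an `ω`-sequence of decisions. -/

set_option autoImplicit false

namespace Pool.Agent.Work.MP_e5ffe1_gen

open Encodable

namespace OMG

/-- the codes `(2 j, μ, b)` for `(j, μ, b) ∈ E` -/
def dbl (E : Set ℕ) : Set ℕ :=
  {n | ∃ x : Code, encode x = n ∧ (x.1 % 2 = 0 ∧ encode ((x.1 / 2, x.2) : Code) ∈ E)}

/-- the codes `(j, μ, b)` for `(2 j + 1, μ, b) ∈ E` -/
def odd (E : Set ℕ) : Set ℕ :=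
  {n | ∃ x : Code, encode x = n ∧ encode ((2 * x.1 + 1, x.2) : Code) ∈ E}

theorem dbl_mem {S : Set (Set ℕ)} (hS : Idl S) {E : Set ℕ} (hE : E ∈ S) : dbl E ∈ S := by
  have h1 : PS S (fun x : Code => x.1 % 2 = 0) :=
    PS.eq hS (Primrec.nat_mod.comp Primrec.fst (Primrec.const 2)).to_comp (Computable.const 0)
  have h2 : PS S (fun x : Code => encode ((x.1 / 2, x.2) : Code) ∈ E) :=
    PS.encode_comp hS hE (f := fun x : Code => ((x.1 / 2, x.2) : Code))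
      ((Primrec.nat_div.comp Primrec.fst (Primrec.const 2)).pair Primrec.snd).to_comp
  exact PS.toSet' hS (PS.and hS h1 h2)

theorem odd_mem {S : Set (Set ℕ)} (hS : Idl S) {E : Set ℕ} (hE : E ∈ S) : odd E ∈ S := by
  have h2 : PS S (fun x : Code => encode ((2 * x.1 + 1, x.2) : Code) ∈ E) :=
    PS.encode_comp hS hE (f := fun x : Code => ((2 * x.1 + 1, x.2) : Code))
      ((Primrec.nat_add.comp (Primrec.nat_mul.comp (Primrec.const 2) Primrec.fst)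
        (Primrec.const 1)).pair Primrec.snd).to_comp
  exact PS.toSet' hS h2

theorem mem_dbl {E : Set ℕ} (x : Code) :
    encode x ∈ dbl E ↔ x.1 % 2 = 0 ∧ encode ((x.1 / 2, x.2) : Code) ∈ E := by
  constructor
  · rintro ⟨y, hy, h⟩
    rw [encode_injective hy] at h
    exact h
  · intro h
    exact ⟨x, rfl, h⟩

theorem mem_odd {E : Set ℕ} (x : Code) :
    encode x ∈ odd E ↔ encode ((2 * x.1 + 1, x.2) : Code) ∈ E := by
  constructor
  · rintro ⟨y, hy, h⟩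
    rw [encode_injective hy] at h
    exact h
  · intro h
    exact ⟨x, rfl, h⟩

theorem step (hGRD : Stmt_GRD) {S : Set (Set ℕ)} (hS : Cl S) {I : Type} (P : Set (Prom I))
    (Q : Set (Task × List I))
    (hQ : ∀ q ∈ Q, ∀ q' ∈ Q, ∃ q'' ∈ Q, ∀ (j : ℕ) (μ : List Str) (b : Bool),
      prom q'' (2 * j, μ, b) = prom q (j, μ, b) ∧ prom q'' (2 * j + 1, μ, b) = prom q' (j, μ, b))
    (hI : ∀ q ∈ Q, ∀ E ∈ S, Cons (P ∪ promS q E) →
      PS S (fun F : List Code => ¬ Cons (P ∪ promS q E ∪ promL q F)))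
    {q : Task × List I} (hq : q ∈ Q) {E : Set ℕ} (hE : E ∈ S) (hc : Cons (P ∪ promS q E))
    {q' : Task × List I} (hq' : q' ∈ Q) :
    ∃ q'' ∈ Q, ∃ E'' ∈ S, Cons (P ∪ promS q'' E'') ∧ promS q E ⊆ promS q'' E'' ∧
      ∃ D ∈ S, promS q' D ⊆ promS q'' E'' ∧ Dns D := by
  obtain ⟨q'', hq'', hj⟩ := hQ q hq q' hq'
  have h1 : promS q'' (dbl E) = promS q E := by
    ext π
    constructor
    · rintro ⟨x, hx, rfl⟩
      rw [mem_dbl] at hx
      refine ⟨(x.1 / 2, x.2), hx.2, ?_⟩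
      have h2 := (hj (x.1 / 2) x.2.1 x.2.2).1
      have h3 : 2 * (x.1 / 2) = x.1 := by omega
      rw [h3] at h2
      exact h2
    · rintro ⟨x, hx, rfl⟩
      refine ⟨(2 * x.1, x.2), ?_, ?_⟩
      · rw [mem_dbl]
        have h3 : 2 * x.1 / 2 = x.1 := by omega
        dsimp only
        rw [h3]
        exact ⟨by omega, hx⟩
      · exact (hj x.1 x.2.1 x.2.2).1.symm
  have hc' : Cons (P ∪ promS q'' (dbl E)) := by rw [h1]; exact hc
  obtain ⟨D, hD, hED, hDns, hcD⟩ := hGRD S hS P q'' (dbl E) (dbl_mem hS.toIdl hE) hc'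
    (hI q'' hq'' (dbl E) (dbl_mem hS.toIdl hE) hc')
  refine ⟨q'', hq'', D, hD, hcD, ?_, odd D, odd_mem hS.toIdl hD, ?_, ?_⟩
  · rw [← h1]
    exact promS_mono q'' hED
  · rintro π ⟨x, hx, rfl⟩
    rw [mem_odd] at hx
    exact ⟨(2 * x.1 + 1, x.2), hx, (hj x.1 x.2.1 x.2.2).2.symm⟩
  · intro j μ
    obtain ⟨ν, b, hν, h2⟩ := hDns (2 * j + 1) μ
    exact ⟨ν, b, hν, (mem_odd (j, ν, b)).2 h2⟩

end OMG

theorem blk_OMG (hGRD : Stmt_GRD) : Stmt_OMG := by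
  intro S hS I P Q hQc hQ hI q0 hq0 E0 hE0 hc0
  classical
  obtain ⟨f, hf⟩ := hQc.exists_eq_range ⟨q0, hq0⟩
  have hfQ : ∀ n, f n ∈ Q := fun n => by rw [hf]; exact ⟨n, rfl⟩
  -- the states
  let St := {s : (Task × List I) × Set ℕ // s.1 ∈ Q ∧ s.2 ∈ S ∧ Cons (P ∪ promS s.1 s.2)}
  have hstep : ∀ (n : ℕ) (s : St), ∃ s' : St, promS s.1.1 s.1.2 ⊆ promS s'.1.1 s'.1.2 ∧
      ∃ D ∈ S, promS (f n) D ⊆ promS s'.1.1 s'.1.2 ∧ Dns D := by
    rintro n ⟨⟨q, E⟩, hq, hE, hc⟩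
    obtain ⟨q'', hq'', E'', hE'', h1, h2, h3⟩ := OMG.step hGRD hS P Q hQ hI hq hE hc (hfQ n)
    exact ⟨⟨(q'', E''), hq'', hE'', h1⟩, h2, h3⟩
  choose nx hn1 hn2 using hstep
  let sq : ℕ → St := fun n => Nat.rec ⟨(q0, E0), hq0, hE0, hc0⟩ (fun n s => nx n s) n
  have hs : ∀ n, sq (n + 1) = nx n (sq n) := fun n => rfl
  have hmono : Monotone (fun n => P ∪ promS (sq n).1.1 (sq n).1.2) := by
    refine monotone_nat_of_le_succ (fun n => ?_)
    refine Set.union_subset_union_right _ ?_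
    rw [hs]
    exact hn1 n (sq n)
  refine ⟨⋃ n, P ∪ promS (sq n).1.1 (sq n).1.2, ?_, ?_, ?_, ?_⟩
  · exact Set.subset_iUnion (fun n => P ∪ promS (sq n).1.1 (sq n).1.2) 0
  · exact Cons.iUnion hmono (fun n => (sq n).2.2.2)
  · intro π hπ
    obtain ⟨n, hn⟩ := Set.mem_iUnion.1 hπ
    rcases hn with hn | ⟨x, _, rfl⟩
    · exact Or.inl hn
    · exact Or.inr ⟨_, (sq n).2.1, x, rfl⟩
  · intro q hq
    rw [hf] at hq
    obtain ⟨n, rfl⟩ := hq
    obtain ⟨D, hD, h1, h2⟩ := hn2 n (sq n)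
    refine ⟨D, hD, ?_, h2⟩
    refine (h1.trans ?_).trans
      (Set.subset_iUnion (fun n => P ∪ promS (sq n).1.1 (sq n).1.2) (n + 1))
    rw [← hs]
    exact Set.subset_union_right

end Pool.Agent.Work.MP_e5ffe1_gen
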