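import Pool.Agent.Work.MP_e5ffe1_gen.Interface

/-! Satisfaction in `ℤ` is arithmetical. -/

set_option autoImplicit false

namespace Pool.Agent.Work.MP_e5ffe1_gen

open Pool.Agent.Work.MP_e5ffe1_h93 (LL zRing zOrd)
open FirstOrder FirstOrder.Language FirstOrder.Ring

attribute [local instance] zRing zOrd

theorem SATF_term (hN : Stmt_NUM) {m : ℕ} {α : Type} [Primcodable α] (h : Fin m → α → ℤ)
    (hh : ∀ i, ArG (h i)) (t : LL.Term (Empty ⊕ Fin m)) :
    ArG (fun x => t.realize (M := ℤ) (Sum.elim default (fun i => h i x))) := by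
  obtain ⟨hadd, hmul, hneg, _⟩ := hN
  induction t with
  | var x =>
    rcases x with x | x
    · exact x.elim
    · exact hh x
  | @func l s args ih =>
    rcases s with s | s
    · cases s with
      | add =>
        exact ArG.comp (g := fun y : ℤ × ℤ => y.1 + y.2) (ArG.of_primrec hadd) ((ih 0).pair (ih 1))
      | mul =>
        exact ArG.comp (g := fun y : ℤ × ℤ => y.1 * y.2) (ArG.of_primrec hmul) ((ih 0).pair (ih 1))
      | neg =>
        exact ArG.comp (g := fun y : ℤ => - y) (ArG.of_primrec hneg) (ih 0)
      | zero => exact ArG.of_computable (Computable.const (0 : ℤ))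
      | one => exact ArG.of_computable (Computable.const (1 : ℤ))
    · exact s.elim

theorem blk_SATF (hN : Stmt_NUM) : Stmt_SATF := by
  intro m φ
  induction φ with
  | falsum =>
    intro α _ h _
    exact PS.const idl_ari False
  | equal t s =>
    intro α _ h hh
    have h1 : PS Ari (fun y : ℤ × ℤ => y.1 = y.2) :=
      PS.eq idl_ari Computable.fst Computable.snd
    exact ArG.subst h1 ((SATF_term hN h hh t).pair (SATF_term hN h hh s))
  | @rel m l R args =>
    intro α _ h hh
    rcases R with R | R
    · exact R.elim
    · cases R with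
      | le =>
        have h1 : PS Ari (fun y : ℤ × ℤ => y.1 ≤ y.2) :=
          PS.primrec idl_ari hN.2.2.2.1
        exact ArG.subst h1 ((SATF_term hN h hh (args 0)).pair (SATF_term hN h hh (args 1)))
  | imp φ ψ ih ih' =>
    intro α _ h hh
    exact PS.imp idl_ari (ih h hh) (ih' h hh)
  | @all m φ ih =>
    intro α _ h hh
    let h' : Fin (m + 1) → α × ℤ → ℤ :=
      Fin.snoc (α := fun _ => α × ℤ → ℤ) (fun i x => h i x.1) (fun x => x.2)
    have h1 : ∀ i, ArG (h' i) := by
      intro i
      refine Fin.lastCases ?_ (fun j => ?_) i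
      · simp only [h', Fin.snoc_last]
        exact ArG.of_computable Computable.snd
      · simp only [h', Fin.snoc_castSucc]
        exact ArG.comp (hh j) (ArG.of_computable Computable.fst)
    have h2 := ih h' h1
    have h3 : ∀ x : α × ℤ, (fun i => h' i x) = (Fin.snoc (fun i => h i x.1) x.2 : Fin (m + 1) → ℤ) := by
      intro x
      funext i
      refine Fin.lastCases ?_ (fun j => ?_) i
      · simp only [h', Fin.snoc_last]
      · simp only [h', Fin.snoc_castSucc]
    simp only [h3] at h2
    exact PS.all cl_ari h2

end Pool.Agent.Work.MP_e5ffe1_gen
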