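import Pool.Agent.Work.MP_e5ffe1_gen.Interface

/-! The functions with arithmetical definitions are closed under choice functions. -/

set_option autoImplicit false

namespace Pool.Agent.Work.MP_e5ffe1_gen

open Pool.Agent.Work.MP_e5ffe1_h93 (LL zRing zOrd)
open FirstOrder FirstOrder.Language FirstOrder.Ring Encodable

attribute [local instance] zRing zOrd

theorem SKC_choice {α : Type} [Primcodable α] (ψ : α → ℤ → Prop)
    (hψ : PS Ari (fun x : α × ℤ => ψ x.1 x.2)) :
    ∃ h : α → ℤ, ArG h ∧ ∀ x, (∃ y, ψ x y) → ψ x (h x) := by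
  classical
  let p : α → ℤ → Prop := fun x y =>
    (ψ x y ∧ ∀ y', ψ x y' → encode y ≤ encode y') ∨ ((∀ y', ¬ ψ x y') ∧ y = 0)
  have hp : PS Ari (fun x : α × ℤ => p x.1 x.2) := by
    have h1 : PS Ari (fun x : (α × ℤ) × ℤ => ψ x.1.1 x.2) :=
      PS.comp idl_ari hψ ((Computable.fst.comp Computable.fst).pair Computable.snd)
    have h2 : PS Ari (fun x : (α × ℤ) × ℤ => encode x.1.2 ≤ encode x.2) := by
      have h3 : PS Ari (fun x : ℕ × ℕ => x.1 ≤ x.2) :=
        PS.primrec idl_ari (PrimrecRel.comp Primrec.nat_le Primrec.fst Primrec.snd)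
      exact PS.comp idl_ari h3
        ((Computable.encode.comp (Computable.snd.comp Computable.fst)).pair
          (Computable.encode.comp Computable.snd))
    have h4 : PS Ari (fun x : α × ℤ => ∀ y', ψ x.1 y' → encode x.2 ≤ encode y') :=
      PS.all cl_ari (p := fun (x : α × ℤ) y' => ψ x.1 y' → encode x.2 ≤ encode y')
        (PS.imp idl_ari h1 h2)
    have h5 : PS Ari (fun x : α × ℤ => ∀ y', ¬ ψ x.1 y') :=
      PS.all cl_ari (p := fun (x : α × ℤ) y' => ¬ ψ x.1 y') (PS.not idl_ari h1)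
    have h6 : PS Ari (fun x : α × ℤ => x.2 = 0) :=
      PS.eq idl_ari Computable.snd (Computable.const 0)
    exact PS.or idl_ari (PS.and idl_ari hψ h4) (PS.and idl_ari h5 h6)
  have hex : ∀ x, ∃ y, p x y := by
    intro x
    by_cases h : ∃ y, ψ x y
    · have h1 : ∃ n, ∃ y, encode y = n ∧ ψ x y := by
        obtain ⟨y, hy⟩ := h
        exact ⟨_, y, rfl, hy⟩
      obtain ⟨y, hy1, hy2⟩ := Nat.find_spec h1
      refine ⟨y, Or.inl ⟨hy2, fun y' hy' => ?_⟩⟩
      rw [hy1]
      exact Nat.find_min' h1 ⟨y', rfl, hy'⟩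
    · push Not at h
      exact ⟨0, Or.inr ⟨h, rfl⟩⟩
  choose h hh using hex
  refine ⟨h, ArG.of_unique hp (fun x y => ⟨fun hy => ?_, fun hy => by rw [hy]; exact hh x⟩),
    fun x hx => ?_⟩
  · rcases hy with hy | hy <;> rcases hh x with h1 | h1
    · exact encode_injective (le_antisymm (hy.2 _ h1.1) (h1.2 _ hy.1))
    · exact absurd hy.1 (h1.1 _)
    · exact absurd h1.1 (hy.1 _)
    · rw [hy.2, h1.2]
  · rcases hh x with h1 | h1
    · exact h1.1
    · obtain ⟨y, hy⟩ := hx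
      exact absurd hy (h1.1 y)

theorem blk_SKC (hN : Stmt_NUM) (hCMF : Stmt_CMF) (hSATF : Stmt_SATF) : Stmt_SKC := by
  intro I G
  obtain ⟨hadd, hmul, hneg, _⟩ := hN
  have h2 : ∀ (op : ℤ × ℤ → ℤ), Computable op → ∀ f ∈ Fn I G, ∀ g ∈ Fn I G,
      (fun ω => op (f ω, g ω)) ∈ Fn I G := by
    intro op hop f hf g hg
    obtain ⟨α, γ, hγ, h, hh, he⟩ := hCMF (m := 2) ![f, g] (by
      intro i
      fin_cases i
      · exact hf
      · exact hg)
    refine ⟨α, γ, fun z => op (h 0 z, h 1 z), hγ,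
      ArG.comp (ArG.of_computable hop) ((hh 0).pair (hh 1)), fun ω => ?_⟩
    have e0 : f ω = h 0 (α.map ω.1, γ.map ω.2) := he 0 ω
    have e1 : g ω = h 1 (α.map ω.1, γ.map ω.2) := he 1 ω
    change op (f ω, g ω) = op (h 0 (α.map ω.1, γ.map ω.2), h 1 (α.map ω.1, γ.map ω.2))
    rw [← e0, ← e1]
  refine ⟨?_, ?_, ?_, ?_, ?_, ?_⟩
  · exact ⟨[], [], fun _ => 0, List.nodup_nil, ArG.of_computable (Computable.const 0),
      fun _ => rfl⟩
  · exact ⟨[], [], fun _ => 1, List.nodup_nil, ArG.of_computable (Computable.const 1),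
      fun _ => rfl⟩
  · rintro f ⟨α, γ, h, hγ, hh, he⟩
    exact ⟨α, γ, fun z => - h z, hγ, ArG.comp (g := fun y : ℤ => - y) (ArG.of_primrec hneg) hh,
      fun ω => congrArg (fun y : ℤ => - y) (he ω)⟩
  · exact h2 (fun y => y.1 + y.2) hadd.to_comp
  · exact h2 (fun y => y.1 * y.2) hmul.to_comp
  · intro m φ f hf
    obtain ⟨α, γ, hγ, h, hh, he⟩ := hCMF f hf
    let h' : Fin (m + 1) → (List ℕ × List ℕ) × ℤ → ℤ :=
      Fin.snoc (α := fun _ => (List ℕ × List ℕ) × ℤ → ℤ) (fun i x => h i x.1) (fun x => x.2)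
    have h1 : ∀ i, ArG (h' i) := by
      intro i
      refine Fin.lastCases ?_ (fun j => ?_) i
      · simp only [h', Fin.snoc_last]
        exact ArG.of_computable Computable.snd
      · simp only [h', Fin.snoc_castSucc]
        exact ArG.comp (hh j) (ArG.of_computable Computable.fst)
    have h2 := hSATF φ h' h1
    have h3 : ∀ x : (List ℕ × List ℕ) × ℤ,
        (fun i => h' i x) = (Fin.snoc (fun i => h i x.1) x.2 : Fin (m + 1) → ℤ) := by
      intro x
      funext i
      refine Fin.lastCases ?_ (fun j => ?_) i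
      · simp only [h', Fin.snoc_last]
      · simp only [h', Fin.snoc_castSucc]
    simp only [h3] at h2
    obtain ⟨g, hg, hgs⟩ := SKC_choice (fun z y => φ.Realize (M := ℤ) default
      (Fin.snoc (fun i => h i z) y : Fin (m + 1) → ℤ)) h2
    refine ⟨fun ω => g (α.map ω.1, γ.map ω.2), ⟨α, γ, g, hγ, hg, fun _ => rfl⟩, fun ω hω => ?_⟩
    have h4 : (fun i => f i ω) = fun i => h i (α.map ω.1, γ.map ω.2) := by
      funext i
      exact he i ω
    rw [h4] at hω ⊢
    exact hgs _ hω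

end Pool.Agent.Work.MP_e5ffe1_gen
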