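import Pool.Agent.Work.MP_e5ffe1_gen.Interface

/-! Block START: the start of the transfinite construction. -/

set_option autoImplicit false

namespace Pool.Agent.Work.MP_e5ffe1_gen

open Encodable

namespace START

theorem jn_nil {I : Type} (t t' : Task) (j : ℕ) (μ : List Str) (b : Bool) :
    prom ((jn 0 t t', []) : Task × List I) (2 * j, μ, b) = prom (t, []) (j, μ, b) ∧
    prom ((jn 0 t t', []) : Task × List I) (2 * j + 1, μ, b) = prom (t', []) (j, μ, b) := by
  have e1 : (2 * j) % 2 = 0 := by omega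
  have e2 : (2 * j) / 2 = j := by omega
  have e3 : ¬ (2 * j + 1) % 2 = 0 := by omega
  have e4 : (2 * j + 1) / 2 = j := by omega
  constructor
  · unfold prom jn
    simp only [e1, e2, if_true]
    rfl
  · unfold prom jn
    simp only [e3, e4, if_false]
    rfl

end START

theorem blk_START (hARI : Stmt_ARI) (hTSK : Stmt_TSK) (hEBC : Stmt_EBC) (hBAI : Stmt_BAI)
    (hCCS : Stmt_CCS) (hOMG : Stmt_OMG) : Stmt_START := by
  intro S hS I
  let Q : Set (Task × List I) := {q | IsT q.1 ∧ q.2 = []}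
  have hQ : Q.Countable := by
    have h1 := hARI.2.image (fun t : Task => ((t, []) : Task × List I))
    refine h1.mono ?_
    rintro ⟨t, α⟩ ⟨h2, h3⟩
    dsimp only at h2 h3
    subst h3
    exact ⟨t, h2, rfl⟩
  have hJ : ∀ q ∈ Q, ∀ q' ∈ Q, ∃ q'' ∈ Q, ∀ (j : ℕ) (μ : List Str) (b : Bool),
      prom q'' (2 * j, μ, b) = prom q (j, μ, b) ∧
        prom q'' (2 * j + 1, μ, b) = prom q' (j, μ, b) := by
    rintro ⟨t, α⟩ ⟨h2, h3⟩ ⟨t', α'⟩ ⟨h2', h3'⟩
    dsimp only at h2 h3 h2' h3'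
    subst h3 h3'
    exact ⟨(jn 0 t t', []), ⟨hTSK.2.2.2.1 t t' h2 h2' 0, rfl⟩, fun j μ b => START.jn_nil t t' j μ b⟩
  have hPS : ∀ q ∈ Q, ∀ E ∈ S, Cons ((∅ : Set (Prom I)) ∪ promS q E) →
      PS S (fun F : List Code => ¬ Cons ((∅ : Set (Prom I)) ∪ promS q E ∪ promL q F)) := by
    rintro ⟨t, α⟩ ⟨h2, h3⟩ E hE _
    dsimp only at h2 h3
    subst h3
    have h4 := hBAI S hS t h2 E hE (I := I)
    refine h4.congr (fun F => ?_)
    rw [Set.empty_union]
  have h0 : Cons ((∅ : Set (Prom I)) ∪ promS ((tc, []) : Task × List I) ec) := by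
    rw [Set.empty_union]
    exact hCCS
  obtain ⟨P', hsub, hcons, hmem, hdec⟩ := hOMG S hS (∅ : Set (Prom I)) Q hQ hJ hPS (tc, [])
    ⟨hTSK.2.1, rfl⟩ ec (hEBC S hS.toIdl).1 h0
  refine ⟨P', hcons, Set.subset_union_right.trans hsub, ?_, ?_⟩
  · intro π hπ
    rcases hmem π hπ with h | ⟨⟨t, α⟩, ⟨_, h3⟩, x, rfl⟩
    · exact absurd h (Set.notMem_empty π)
    · dsimp only at h3
      subst h3
      exact depOn_prom t [] x (fun y hy => absurd hy List.not_mem_nil)
  · intro t ht α hα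
    have h3 : α = [] := List.eq_nil_iff_forall_not_mem.2 (fun y hy => absurd (hα y hy) (Set.notMem_empty y))
    subst h3
    exact hdec (t, []) ⟨ht, rfl⟩

end Pool.Agent.Work.MP_e5ffe1_gen
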