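import Pool.Agent.Work.MP_e5ffe1_gen.Interface

/-! Block STEP: a new variable. -/

set_option autoImplicit false

namespace Pool.Agent.Work.MP_e5ffe1_gen

open Encodable

theorem blk_STEP (hARI : Stmt_ARI) (hTSK : Stmt_TSK) (hEBC : Stmt_EBC) (hREB : Stmt_REB)
    (hINC1 : Stmt_INC1) (hINC2 : Stmt_INC2) (hCBS : Stmt_CBS) (hOMG : Stmt_OMG) : Stmt_STEP := by
  intro S hS I K hK P hP hdep hdcd x hx X hX
  classical
  obtain ⟨htb, _, hth, hjn, hidx, _⟩ := hTSK
  have hdep' : ∀ π ∈ P, DepOn {y | y ≠ x} π := fun π hπ =>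
    (hdep π hπ).mono (fun y hy => show y ≠ x from fun h => hx (by rw [← h]; exact hy))
  set Q : Set (Task × List I) := {q | ∃ t β, IsT t ∧ (∀ y ∈ β, y ∈ K) ∧ q = (t, x :: β)} with hQ
  have hQc : Q.Countable := by
    have h1 : {l : List I | ∀ y ∈ l, y ∈ K}.Countable := by
      have := Set.Countable.to_subtype hK
      have h2 : {l : List I | ∀ y ∈ l, y ∈ K} ⊆ Set.range (fun l : List K => l.map (fun y => y.1)) := by
        intro l hl
        exact ⟨l.attach.map (fun y => ⟨y.1, hl y.1 y.2⟩), by simp [List.map_map, Function.comp_def]⟩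
      exact (Set.countable_range _).mono h2
    have h2 := ((hARI.2.prod h1).image (fun q : Task × List I => (q.1, x :: q.2)))
    refine h2.mono ?_
    rintro q ⟨t, β, ht, hβ, rfl⟩
    exact ⟨(t, β), ⟨ht, hβ⟩, rfl⟩
  have hjoin : ∀ q ∈ Q, ∀ q' ∈ Q, ∃ q'' ∈ Q, ∀ (j : ℕ) (μ : List Str) (b : Bool),
      prom q'' (2 * j, μ, b) = prom q (j, μ, b) ∧
        prom q'' (2 * j + 1, μ, b) = prom q' (j, μ, b) := by
    rintro q ⟨t, β, ht, hβ, rfl⟩ q' ⟨t', β', ht', hβ', rfl⟩
    refine ⟨(jn β.length t t', x :: (β ++ β')), ⟨_, _, hjn t t' ht ht' _, ?_, rfl⟩, ?_⟩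
    · intro y hy
      rcases List.mem_append.1 hy with h | h
      · exact hβ y h
      · exact hβ' y h
    · intro j μ b
      have e1 : 2 * j % 2 = 0 := by omega
      have e2 : 2 * j / 2 = j := by omega
      have e3 : (2 * j + 1) % 2 ≠ 0 := by omega
      have e4 : (2 * j + 1) / 2 = j := by omega
      constructor
      · simp only [prom, jn, e1, e2, if_true]
        congr 1
        funext a c
        simp
      · simp only [prom, jn, e4, if_neg e3]
        congr 1
        funext a c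
        simp
  have hinc : ∀ q ∈ Q, ∀ E ∈ S, Cons (P ∪ promS q E) →
      PS S (fun F : List Code => ¬ Cons (P ∪ promS q E ∪ promL q F)) := by
    rintro q ⟨t, β, ht, hβ, rfl⟩ E hE hc
    obtain ⟨D', hD', h1, h2⟩ := hdcd (th t) (hth t ht) β hβ
    refine (hINC2 S hS E hE D' hD').congr (fun F => ?_)
    exact hINC1 P x t β E D' hP hdep' (fun h => hx (hβ x h)) h1 h2 F
  have hcb : Cons (P ∪ promS (tb, [x]) (eb X)) := hCBS P x X hP hdep'
  obtain ⟨P', h1, h2, h3, h4⟩ := hOMG S hS P Q hQc hjoin hinc (tb, [x])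
    ⟨tb, [], htb, fun y hy => absurd hy List.not_mem_nil, rfl⟩ (eb X)
    ((hEBC S hS.toIdl).2 X hX) hcb
  refine ⟨P', Set.subset_union_left.trans h1, Set.subset_union_right.trans h1, h2, ?_, ?_⟩
  · intro π hπ
    rcases h3 π hπ with h | ⟨q, ⟨t, β, ht, hβ, rfl⟩, y, rfl⟩
    · exact (hdep π h).mono (Set.subset_insert x K)
    · refine depOn_prom t (x :: β) y (fun z hz => ?_)
      rcases List.mem_cons.1 hz with h | h
      · exact Or.inl h
      · exact Or.inr (hβ z h)
  · intro t ht α hα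
    set β : List I := α.filter (fun y => decide (y ≠ x)) with hβ
    have hβK : ∀ y ∈ β, y ∈ K := by
      intro y hy
      rw [hβ, List.mem_filter] at hy
      have h5 : y ≠ x := of_decide_eq_true hy.2
      rcases hα y hy.1 with h | h
      · exact absurd h h5
      · exact h
    have hαβ : ∀ y ∈ α, y ∈ x :: β := by
      intro y hy
      by_cases h : y = x
      · rw [h]; exact List.mem_cons_self
      · refine List.mem_cons_of_mem _ ?_
        rw [hβ, List.mem_filter]
        exact ⟨hy, decide_eq_true h⟩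
    obtain ⟨idx, _, hidx2⟩ := hREB α (x :: β) hαβ
    obtain ⟨D, hD, h5, h6⟩ := h4 (fun j A C => t j (idx.map (fun i => A.getD i 0)) C, x :: β)
      ⟨_, β, hidx t ht idx, hβK, rfl⟩
    refine ⟨D, hD, ?_, h6⟩
    rintro π ⟨y, hy, rfl⟩
    refine h5 ⟨y, hy, ?_⟩
    simp only [prom]
    congr 1
    funext a c
    rw [hidx2 a]

end Pool.Agent.Work.MP_e5ffe1_gen
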