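import Pool.Agent.Work.MP_e5ffe1_gen.Interface

/-! Block TRC. -/

set_option autoImplicit false

namespace Pool.Agent.Work.MP_e5ffe1_gen

open Encodable

namespace TRC

variable {S : Set (Set ℕ)} {α β : Type} [Primcodable α] [Primcodable β]

theorem dec2 (hS : Idl S) {p : α → β → Prop} (hp : PS S (fun x : α × β => p x.1 x.2)) :
    PS S (fun z : α × ℕ => ∃ y : β, encode y = z.2 ∧ p z.1 y) := by
  have h2 := PS.dec hS hp
  have hc : Computable (fun z : α × ℕ => Nat.pair (encode z.1) z.2) :=
    (Primrec₂.natPair.comp (Primrec.encode.comp Primrec.fst) Primrec.snd).to_comp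
  refine (PS.comp hS h2 hc).congr (fun z => ?_)
  obtain ⟨x, n⟩ := z
  dsimp only
  constructor
  · rintro ⟨y, hy, h3⟩
    exact ⟨(x, y), by rw [← hy]; rfl, h3⟩
  · rintro ⟨⟨x', y⟩, hy, h3⟩
    have h4 : Nat.pair (encode x') (encode y) = Nat.pair (encode x) n := hy
    rw [Nat.pair_eq_pair] at h4
    have h5 := Encodable.encode_injective h4.1
    subst h5
    exact ⟨y, h4.2, h3⟩

theorem pre_iff (p : Str) (g : ℕ → Bool) :
    pre p g ↔ ∀ i < p.length, (p.getD i false = true ↔ i ∈ {n | g n = true}) := by
  unfold pre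
  constructor
  · intro h i hi
    have h1 : p[i] = g i := by
      have h2 : p[i]? = ((List.range p.length).map g)[i]? := by rw [← h]
      rw [List.getElem?_eq_getElem hi, List.getElem?_map, List.getElem?_range hi] at h2
      simpa using h2
    rw [List.getD_eq_getElem _ _ hi, h1]
    exact Iff.rfl
  · intro h
    apply List.ext_getElem
    · simp
    · intro i hi _
      have h1 := h i hi
      rw [List.getD_eq_getElem _ _ hi] at h1
      simp only [List.getElem_map, List.getElem_range]
      exact Bool.eq_iff_iff.2 h1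

theorem ps_pre (hS : Idl S) (g : ℕ → Bool) (hg : {n | g n = true} ∈ S) :
    PS S (fun p : Str => pre p g) := by
  have h1 : PS S (fun z : Str × ℕ => z.1.getD z.2 false = true) :=
    PS.computable hS ((Primrec.list_getD false).comp Primrec.fst Primrec.snd).to_comp
  have h2 : PS S (fun z : Str × ℕ => z.2 ∈ {n | g n = true}) :=
    PS.comp hS (PS.mem hg) Computable.snd
  have h3 := PS.ball hS (p := fun (p : Str) i => (p.getD i false = true ↔ i ∈ {n | g n = true}))
    (PS.iff hS h1 h2) (f := fun p : Str => p.length) Primrec.list_length.to_comp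
  exact h3.congr (fun p => pre_iff p g)

theorem ps_pres (hS : Idl S) {G : Set (ℕ → Bool)} (γ : List G)
    (hg : ∀ g ∈ γ, {n | g.1 n = true} ∈ S) :
    PS S (fun ν : List Str => List.Forall₂ (fun p (g : G) => pre p g.1) ν γ) := by
  induction γ with
  | nil =>
    have h1 : PS S (fun ν : List Str => ν = []) := PS.eq hS Computable.id (Computable.const [])
    exact h1.congr (fun ν => List.forall₂_nil_right_iff)
  | cons g γ ih =>
    have h1 := ih (fun g' hg' => hg g' (List.mem_cons_of_mem _ hg'))
    have h2 := ps_pre hS g.1 (hg g List.mem_cons_self)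
    have h3 : PS S (fun ν : List Str => ¬ ν = []) :=
      PS.not hS (PS.eq hS Computable.id (Computable.const []))
    have h4 : PS S (fun ν : List Str => pre (ν.headI) g.1) := PS.comp hS h2 Primrec.list_headI.to_comp
    have h5 : PS S (fun ν : List Str => List.Forall₂ (fun p (g : G) => pre p g.1) ν.tail γ) :=
      PS.comp hS h1 Primrec.list_tail.to_comp
    refine (PS.and hS h3 (PS.and hS h4 h5)).congr (fun ν => ?_)
    cases ν with
    | nil => simp
    | cons p ν => simp [List.headI]

end TRC

theorem blk_TRC : Stmt_TRC := by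
  classical
  intro S hS G hG I W t α D hD hDns hK γ hγ T hT hDT hgT
  have key : ∀ j : ℕ, ∃ (ν : List Str) (b : Bool), encode ((j, ν, b) : Code) ∈ D ∧
      List.Forall₂ (fun p (g : G) => pre p g.1) ν γ := by
    intro j
    have h1 : PS S (fun ν : List Str => encode ((j, ν, true) : Code) ∈ D ∨
        encode ((j, ν, false) : Code) ∈ D) :=
      PS.or hS.toIdl
        (PS.encode_comp hS.toIdl hD (f := fun ν : List Str => ((j, ν, true) : Code))
          ((Computable.const j).pair (Computable.id.pair (Computable.const true))))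
        (PS.encode_comp hS.toIdl hD (f := fun ν : List Str => ((j, ν, false) : Code))
          ((Computable.const j).pair (Computable.id.pair (Computable.const false))))
    have h2 := PS.toSet' hS.toIdl h1
    obtain ⟨ν, hν, h3⟩ := hG (γ.map Subtype.val) (hγ.map Subtype.val_injective)
      (by
        intro g hg
        obtain ⟨g', _, rfl⟩ := List.mem_map.1 hg
        exact g'.2) _ h2
      (by
        intro μ _
        obtain ⟨ν, b, h4, h5⟩ := hDns j μ
        refine ⟨ν, h4, ν, rfl, ?_⟩
        cases b with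
        | true => exact Or.inl h5
        | false => exact Or.inr h5)
    obtain ⟨ν', h6, h7⟩ := h3
    have h8 : ν' = ν := Encodable.encode_injective h6
    subst h8
    rw [List.forall₂_map_right_iff] at hν
    rcases h7 with h7 | h7
    · exact ⟨ν', true, h7, hν⟩
    · exact ⟨ν', false, h7, hν⟩
  have key2 : ∀ (j : ℕ) (ν : List Str) (b : Bool), encode ((j, ν, b) : Code) ∈ D →
      List.Forall₂ (fun p (g : G) => pre p g.1) ν γ → (j ∈ trc W t α γ ↔ b = true) := by
    intro j ν b h1 h2
    have h3 := hK (prom (t, α) (j, ν, b)) ⟨(j, ν, b), h1, rfl⟩ γ hγ h2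
    have h4 : ∀ᶠ ω in (W : Filter (Om I G)), (t j (α.map ω.1) (γ.map ω.2) ↔ b = true) := h3
    constructor
    · intro h5
      have h6 : ∀ᶠ ω in (W : Filter (Om I G)), t j (α.map ω.1) (γ.map ω.2) := h5
      obtain ⟨ω, h7, h8⟩ := (h4.and h6).exists
      exact h7.1 h8
    · intro h5
      exact h4.mono (fun ω h7 => h7.2 h5)
  have hex : ∀ j : ℕ, ∃ n : ℕ, ∃ y : List Str × Bool, encode y = n ∧
      (encode ((j, y) : Code) ∈ D ∧ List.Forall₂ (fun p (g : G) => pre p g.1) y.1 γ) := by
    intro j
    obtain ⟨ν, b, h1, h2⟩ := key j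
    exact ⟨_, (ν, b), rfl, h1, h2⟩
  have hp : PS T (fun x : ℕ × (List Str × Bool) => encode ((x.1, x.2) : Code) ∈ D ∧
      List.Forall₂ (fun p (g : G) => pre p g.1) x.2.1 γ) := by
    refine PS.and hT ?_ ?_
    · exact PS.encode_comp hT hDT (f := fun x : ℕ × (List Str × Bool) => ((x.1, x.2) : Code))
        (Computable.fst.pair Computable.snd)
    · exact PS.comp hT (TRC.ps_pres hT γ hgT) (Computable.fst.comp Computable.snd)
  have hp2 := TRC.dec2 hT (p := fun (j : ℕ) (y : List Str × Bool) => encode ((j, y) : Code) ∈ D ∧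
      List.Forall₂ (fun p (g : G) => pre p g.1) y.1 γ) hp
  have hq : PS T (fun x : ℕ × (List Str × Bool) => x.2.2 = true) :=
    PS.computable hT (Computable.snd.comp Computable.snd)
  have hq2 := TRC.dec2 hT (p := fun (_ : ℕ) (y : List Str × Bool) => y.2 = true) hq
  have h1 := PS.mu hT (p := fun (j : ℕ) (n : ℕ) => ∃ y : List Str × Bool, encode y = n ∧
      (encode ((j, y) : Code) ∈ D ∧ List.Forall₂ (fun p (g : G) => pre p g.1) y.1 γ))
    (q := fun (_ : ℕ) (n : ℕ) => ∃ y : List Str × Bool, encode y = n ∧ y.2 = true) hp2 hq2 hex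
  have h2 := PS.toSet hT h1
  have h3 : trc W t α γ = {j : ℕ | ∃ y : List Str × Bool, encode y = Nat.find (hex j) ∧
      y.2 = true} := by
    ext j
    obtain ⟨y, hy, h4, h5⟩ := Nat.find_spec (hex j)
    have h6 := key2 j y.1 y.2 h4 h5
    rw [h6]
    constructor
    · intro h7
      exact ⟨y, hy, h7⟩
    · rintro ⟨y', hy', h7⟩
      have h8 : y' = y := Encodable.encode_injective (hy'.trans hy.symm)
      rw [← h8]
      exact h7
  rw [h3]
  exact h2

end Pool.Agent.Work.MP_e5ffe1_gen
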