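import Pool.Agent.Work.MP_e5ffe1_gen.Interface

/-! # Block TRF: the transfinite construction -/

set_option autoImplicit false

namespace Pool.Agent.Work.MP_e5ffe1_gen

open Cardinal

namespace TRF

/-- the stages of the construction -/
structure Good {S : Set (Set ℕ)} (r : S → S → Prop) (q : Set S × Set (Prom S)) : Prop where
  low : ∀ x y, r y x → x ∈ q.1 → y ∈ q.1
  cons : Cons q.2
  dep : ∀ π ∈ q.2, DepOn q.1 π
  dcd : Dcd S q.1 q.2
  tc : promS ((tc, []) : Task × List S) ec ⊆ q.2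
  tb : ∀ X ∈ q.1, promS (tb, [X]) (eb X.1) ⊆ q.2

lemma chain_list {S : Set (Set ℕ)} {c : Set (Set S × Set (Prom S))} (hc : IsChain (· ≤ ·) c)
    (hne : c.Nonempty) (α : List S) (hα : ∀ y ∈ α, y ∈ ⋃₀ (Prod.fst '' c)) :
    ∃ q ∈ c, ∀ y ∈ α, y ∈ q.1 := by
  induction α with
  | nil =>
    obtain ⟨q, hq⟩ := hne
    exact ⟨q, hq, fun y hy => absurd hy List.not_mem_nil⟩
  | cons a α ih =>
    obtain ⟨q, hq, h1⟩ := ih (fun y hy => hα y (List.mem_cons_of_mem a hy))
    obtain ⟨_, ⟨q', hq', rfl⟩, h2⟩ := hα a List.mem_cons_self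
    rcases hc.total hq hq' with h | h
    · refine ⟨q', hq', fun y hy => ?_⟩
      rcases List.mem_cons.1 hy with rfl | hy
      · exact h2
      · exact h.1 (h1 y hy)
    · refine ⟨q, hq, fun y hy => ?_⟩
      rcases List.mem_cons.1 hy with rfl | hy
      · exact h.1 h2
      · exact h1 y hy

lemma Good.union {S : Set (Set ℕ)} {r : S → S → Prop} {c : Set (Set S × Set (Prom S))}
    (hc : IsChain (· ≤ ·) c) (hne : c.Nonempty) (h : ∀ q ∈ c, Good r q) :
    Good r (⋃₀ (Prod.fst '' c), ⋃₀ (Prod.snd '' c)) := by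
  have hle : ∀ q ∈ c, q.2 ⊆ ⋃₀ (Prod.snd '' c) := fun q hq =>
    Set.subset_sUnion_of_mem ⟨q, hq, rfl⟩
  have hle1 : ∀ q ∈ c, q.1 ⊆ ⋃₀ (Prod.fst '' c) := fun q hq =>
    Set.subset_sUnion_of_mem ⟨q, hq, rfl⟩
  constructor
  · rintro x y hr ⟨_, ⟨q, hq, rfl⟩, hx⟩
    exact hle1 q hq ((h q hq).low x y hr hx)
  · refine Cons.sUnion ?_ (hne.image _) ?_
    · exact IsChain.image_of_map_rel (fun x y : Set S × Set (Prom S) => x ≤ y)
        (fun x y : Set (Prom S) => x ⊆ y) Prod.snd (fun x y hxy => hxy.2) hc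
    · rintro _ ⟨q, hq, rfl⟩
      exact (h q hq).cons
  · rintro π ⟨_, ⟨q, hq, rfl⟩, hπ⟩
    exact ((h q hq).dep π hπ).mono (hle1 q hq)
  · intro t ht α hα
    obtain ⟨q, hq, h1⟩ := chain_list hc hne α hα
    obtain ⟨D, hD, h2, h3⟩ := (h q hq).dcd t ht α h1
    exact ⟨D, hD, h2.trans (hle q hq), h3⟩
  · obtain ⟨q, hq⟩ := hne
    exact (h q hq).tc.trans (hle q hq)
  · rintro X ⟨_, ⟨q, hq, rfl⟩, hX⟩
    exact ((h q hq).tb X hX).trans (hle q hq)

end TRF

open TRF in
theorem blk_TRF (hSTART : Stmt_START) (hSTEP : Stmt_STEP) : Stmt_TRF := by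
  intro S hS hcard
  obtain ⟨r, wo, hr⟩ := Cardinal.exists_ord_eq S
  have hcount : ∀ x : S, {y | r y x}.Countable := by
    intro x
    have h1 : (Ordinal.typein r x).card < #S := Cardinal.card_typein_lt x hr
    have h2 : #{y | r y x} < #S := by
      have h3 : #{y | r y x} = (Ordinal.typein r x).card := Ordinal.card_typein x
      rw [h3]; exact h1
    have h4 : #{y | r y x} < ℵ₁ := lt_of_lt_of_le h2 hcard
    rw [← Cardinal.succ_aleph0, Order.lt_succ_iff] at h4
    exact Cardinal.le_aleph0_iff_set_countable.1 h4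
  obtain ⟨P0, c1, c2, c3, c4⟩ := hSTART S hS (I := S)
  have h0 : Good r ((∅ : Set S), P0) :=
    ⟨fun x y _ hx => absurd hx (Set.notMem_empty x), c1, c3, c4, c2,
      fun X hX => absurd hX (Set.notMem_empty X)⟩
  obtain ⟨q, -, hq, hmax⟩ := zorn_le_nonempty₀ {q : Set S × Set (Prom S) | Good r q}
    (fun c hc hch y hy => ⟨_, Good.union hch ⟨y, hy⟩ hc, fun z hz =>
      ⟨Set.subset_sUnion_of_mem ⟨z, hz, rfl⟩, Set.subset_sUnion_of_mem ⟨z, hz, rfl⟩⟩⟩)
    _ h0
  have hq' : Good r q := hq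
  have huniv : q.1 = Set.univ := by
    by_contra hne
    obtain ⟨z, hz⟩ := (Set.ne_univ_iff_exists_notMem _).1 hne
    obtain ⟨x, hx, hmin⟩ := wo.wf.has_min {z | z ∉ q.1} ⟨z, hz⟩
    have hx' : x ∉ q.1 := hx
    have hK : q.1 = {y | r y x} := by
      ext y
      constructor
      · intro hy
        rcases trichotomous_of r y x with h | h | h
        · exact h
        · rw [h] at hy; exact absurd hy hx'
        · exact absurd (hq'.low y x h hy) hx'
      · intro hy
        by_contra h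
        exact hmin y h hy
    obtain ⟨P', d1, d2, d3, d4, d5⟩ := hSTEP S hS q.1 (by rw [hK]; exact hcount x) q.2 hq'.cons
      hq'.dep hq'.dcd x hx' x.1 x.2
    have hgood : Good r (insert x q.1, P') := by
      refine ⟨?_, d3, d4, d5, hq'.tc.trans d1, ?_⟩
      · intro a b hab ha
        rcases Set.mem_insert_iff.1 ha with h | h
        · rw [h] at hab
          refine Or.inr ?_
          rw [hK]; exact hab
        · exact Or.inr (hq'.low a b hab h)
      · intro X hX
        rcases Set.mem_insert_iff.1 hX with h | h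
        · rw [h]; exact d2
        · exact (hq'.tb X h).trans d1
    have h5 := hmax hgood ⟨Set.subset_insert x q.1, d1⟩
    exact hx' (h5.1 (Set.mem_insert x q.1))
  refine ⟨q.2, hq'.cons, hq'.tc, fun X => hq'.tb X (by rw [huniv]; exact Set.mem_univ X), ?_⟩
  rw [← huniv]
  exact hq'.dcd

end Pool.Agent.Work.MP_e5ffe1_gen
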