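import Pool.Agent.Work.MP_e5ffe1_gen.Interface

/-! Block TSK: closure properties of the arithmetical tasks. -/

set_option autoImplicit false

namespace Pool.Agent.Work.MP_e5ffe1_gen

open Encodable

namespace TSK

variable {α : Type} [Primcodable α]

theorem headD_primrec : Primrec (fun l : List ℕ => l.headD 0) :=
  (Primrec.option_getD.comp Primrec.list_head? (Primrec.const 0)).of_eq (fun l => by cases l <;> rfl)

theorem bits (hNUM : Stmt_NUM) {f : α → ℕ} (hf : Primrec f) {g : α → ℕ} (hg : Primrec g) :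
    PS Ari (fun x => if g x % 2 = 0 then (f x).testBit (g x / 2) = true else g x / 2 ≤ f x) := by
  have hI := idl_ari
  have hm : PS Ari (fun x => g x % 2 = 0) :=
    PS.primrec hI (PrimrecRel.comp Primrec.eq
      (Primrec.nat_mod.comp hg (Primrec.const 2)) (Primrec.const 0))
  have ht : PS Ari (fun x => (f x).testBit (g x / 2) = true) :=
    PS.computable hI (Primrec₂.comp hNUM.2.2.2.2.2.2.2.1 hf
      (Primrec.nat_div.comp hg (Primrec.const 2))).to_comp
  have hl : PS Ari (fun x => g x / 2 ≤ f x) :=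
    PS.primrec hI (PrimrecRel.comp Primrec.nat_le
      (Primrec.nat_div.comp hg (Primrec.const 2)) hf)
  refine (PS.and hI (PS.imp hI hm ht) (PS.imp hI (PS.not hI hm) hl)).congr (fun x => ?_)
  by_cases h : g x % 2 = 0
  · rw [if_pos h]
    exact ⟨fun h1 => ⟨fun _ => h1, fun h2 => absurd h h2⟩, fun h1 => h1.1 h⟩
  · rw [if_neg h]
    exact ⟨fun h1 => ⟨fun h2 => absurd h2 h, fun _ => h1⟩, fun h1 => h1.2 h⟩

theorem isT_sub {t : Task} (ht : IsT t) {f : α → ℕ} {g h : α → List ℕ} (hf : Primrec f)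
    (hg : Primrec g) (hh : Primrec h) : PS Ari (fun x => t (f x) (g x) (h x)) :=
  PS.comp idl_ari ht (hf.pair (hg.pair hh)).to_comp

/-- rebuilding a list from a primitive recursive list of places -/
theorem rebuild {f : α → List ℕ} (hf : Primrec f) {g : α → List ℕ} (hg : Primrec g) :
    Primrec (fun x => (f x).map (fun i => (g x).getD i 0)) :=
  Primrec.list_map hf ((Primrec.list_getD 0).comp (hg.comp Primrec.fst) Primrec.snd).to₂

theorem th_isT {t : Task} (ht : IsT t) : IsT (th t) := by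
  have hI := idl_ari
  -- x : (ℕ × List ℕ × List ℕ) × ℕ, y : Lit
  have h1 : PS Ari (fun z : ((ℕ × List ℕ × List ℕ) × ℕ) × Lit =>
      (t z.2.1 (z.1.2 :: z.1.1.2.1) (z.2.2.1.map (fun i => z.1.1.2.2.getD i 0)) ↔
        z.2.2.2 = true)) := by
    refine PS.iff hI ?_ (PS.computable hI
      (Primrec.snd.comp (Primrec.snd.comp Primrec.snd)).to_comp)
    refine isT_sub ht (Primrec.fst.comp Primrec.snd) ?_ ?_
    · exact Primrec.list_cons.comp (Primrec.snd.comp Primrec.fst)
        (Primrec.fst.comp (Primrec.snd.comp (Primrec.fst.comp Primrec.fst)))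
    · exact rebuild (Primrec.fst.comp (Primrec.snd.comp Primrec.snd))
        (Primrec.snd.comp (Primrec.snd.comp (Primrec.fst.comp Primrec.fst)))
  have h2 : PS Ari (fun z : (ℕ × List ℕ × List ℕ) × ℕ =>
      ∀ y ∈ ((decode z.1.1 : Option (List Lit)).getD []),
      (t y.1 (z.2 :: z.1.2.1) (y.2.1.map (fun i => z.1.2.2.getD i 0)) ↔ y.2.2 = true)) := by
    refine PS.forallMem hI (p := fun (z : (ℕ × List ℕ × List ℕ) × ℕ) (y : Lit) =>
      (t y.1 (z.2 :: z.1.2.1) (y.2.1.map (fun i => z.1.2.2.getD i 0)) ↔ y.2.2 = true)) h1 ?_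
    exact (Primrec.option_getD.comp (Primrec.decode.comp (Primrec.fst.comp Primrec.fst))
      (Primrec.const [])).to_comp
  exact PS.exN cl_ari (p := fun (x : ℕ × List ℕ × List ℕ) (w : ℕ) =>
    ∀ y ∈ ((decode x.1 : Option (List Lit)).getD []),
      (t y.1 (w :: x.2.1) (y.2.1.map (fun i => x.2.2.getD i 0)) ↔ y.2.2 = true)) h2

theorem drop_primrec (n : ℕ) : Primrec (fun l : List ℕ => l.drop n) := by
  induction n with
  | zero => exact Primrec.id.of_eq (fun l => by simp)
  | succ n ih =>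
    exact (Primrec.list_tail.comp ih).of_eq (fun l => by rw [List.tail_drop])

theorem jn_isT {t t' : Task} (ht : IsT t) (ht' : IsT t') (n : ℕ) : IsT (jn n t t') := by
  have hI := idl_ari
  have hm : PS Ari (fun x : ℕ × List ℕ × List ℕ => x.1 % 2 = 0) :=
    PS.primrec hI (PrimrecRel.comp Primrec.eq
      (Primrec.nat_mod.comp Primrec.fst (Primrec.const 2)) (Primrec.const 0))
  have hd : Primrec (fun x : ℕ × List ℕ × List ℕ => x.1 / 2) :=
    Primrec.nat_div.comp Primrec.fst (Primrec.const 2)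
  have hA : Primrec (fun x : ℕ × List ℕ × List ℕ => x.2.1) := Primrec.fst.comp Primrec.snd
  have hC : Primrec (fun x : ℕ × List ℕ × List ℕ => x.2.2) := Primrec.snd.comp Primrec.snd
  have h1 : PS Ari (fun x : ℕ × List ℕ × List ℕ => t (x.1 / 2) (x.2.1.take (n + 1)) x.2.2) :=
    isT_sub ht hd (Primrec.list_take.comp (Primrec.const (n + 1)) hA) hC
  have h2 : PS Ari (fun x : ℕ × List ℕ × List ℕ =>
      t' (x.1 / 2) (x.2.1.take 1 ++ x.2.1.drop (n + 1)) x.2.2) :=
    isT_sub ht' hd (Primrec.list_append.comp (Primrec.list_take.comp (Primrec.const 1) hA)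
      ((drop_primrec (n + 1)).comp hA)) hC
  refine (PS.and hI (PS.imp hI hm h1) (PS.imp hI (PS.not hI hm) h2)).congr (fun x => ?_)
  unfold jn
  by_cases h : x.1 % 2 = 0
  · rw [if_pos h]
    exact ⟨fun h1 => ⟨fun _ => h1, fun h2 => absurd h h2⟩, fun h1 => h1.1 h⟩
  · rw [if_neg h]
    exact ⟨fun h1 => ⟨fun h2 => absurd h2 h, fun _ => h1⟩, fun h1 => h1.2 h⟩

end TSK

open TSK in
theorem blk_TSK (hNUM : Stmt_NUM) : Stmt_TSK := by
  have hA : Primrec (fun x : ℕ × List ℕ × List ℕ => x.2.1) := Primrec.fst.comp Primrec.snd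
  have hC : Primrec (fun x : ℕ × List ℕ × List ℕ => x.2.2) := Primrec.snd.comp Primrec.snd
  refine ⟨?_, ?_, fun t ht => th_isT ht, fun t t' ht ht' n => jn_isT ht ht' n, ?_, ?_⟩
  · exact bits hNUM (headD_primrec.comp hA) Primrec.fst
  · exact bits hNUM (headD_primrec.comp hC) Primrec.fst
  · intro t ht idx
    exact isT_sub ht Primrec.fst (rebuild (Primrec.const idx) hA) hC
  · intro t ht idx
    exact isT_sub ht Primrec.fst hA (rebuild (Primrec.const idx) hC)

end Pool.Agent.Work.MP_e5ffe1_gen
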