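import Pool.Agent.Work.MP_e5ffe1_gen.Interface

/-! # Block TUR: the traces form an ideal -/

set_option autoImplicit false

namespace Pool.Agent.Work.MP_e5ffe1_gen

open Pool.Agent.Work.MP_e5ffe1_h93 (le J two_mul_mem_J two_mul_add_one_mem_J)
open Encodable

namespace TUR

/-- the task some shortest finite piece of the true literals is used for `1` -/
def tu (t : Task) (A : ℕ → Str → Bool → Prop) : Task := fun i Av C =>
  ∃ s : Str, (∀ k < s.length, (s.getD k false = true ↔ t k Av C)) ∧ A i s true ∧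
    ∀ s' : Str, (∀ k < s'.length, (s'.getD k false = true ↔ t k Av C)) →
      s'.length < s.length → ∀ b : Bool, ¬ A i s' b

lemma pre_ps {α : Type} [Primcodable α] {t : Task} (ht : IsT t) {f : α → List ℕ × List ℕ}
    (hf : Computable f) {g : α → Str} (hg : Computable g) :
    PS Ari (fun x : α => ∀ k < (g x).length,
      ((g x).getD k false = true ↔ t k (f x).1 (f x).2)) := by
  refine PS.ball idl_ari (p := fun x k => ((g x).getD k false = true ↔ t k (f x).1 (f x).2)) ?_
    (Primrec.list_length.to_comp.comp hg)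
  refine PS.iff idl_ari ?_ ?_
  · exact PS.computable idl_ari ((Primrec.list_getD false).to_comp.comp
      (hg.comp Computable.fst) Computable.snd)
  · exact PS.comp idl_ari ht (f := fun x : α × ℕ => (x.2, f x.1))
      (Computable.snd.pair (hf.comp Computable.fst))

lemma tu_isT {t : Task} (ht : IsT t) {A : ℕ → Str → Bool → Prop}
    (hA : PS Ari (fun x : ℕ × Str × Bool => A x.1 x.2.1 x.2.2)) : IsT (tu t A) := by
  unfold IsT tu
  refine PS.ex cl_ari (p := fun (x : ℕ × List ℕ × List ℕ) (s : Str) =>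
    (∀ k < s.length, (s.getD k false = true ↔ t k x.2.1 x.2.2)) ∧ A x.1 s true ∧
    ∀ s' : Str, (∀ k < s'.length, (s'.getD k false = true ↔ t k x.2.1 x.2.2)) →
      s'.length < s.length → ∀ b : Bool, ¬ A x.1 s' b) ?_
  refine PS.and idl_ari ?_ (PS.and idl_ari ?_ ?_)
  · exact pre_ps ht (f := fun z : (ℕ × List ℕ × List ℕ) × Str => z.1.2)
      (Computable.snd.comp Computable.fst) Computable.snd
  · exact PS.comp idl_ari hA (f := fun z : (ℕ × List ℕ × List ℕ) × Str => (z.1.1, z.2, true))
      ((Computable.fst.comp Computable.fst).pair (Computable.snd.pair (Computable.const true)))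
  · refine PS.all cl_ari (p := fun (z : (ℕ × List ℕ × List ℕ) × Str) (s' : Str) =>
      (∀ k < s'.length, (s'.getD k false = true ↔ t k z.1.2.1 z.1.2.2)) →
      s'.length < z.2.length → ∀ b : Bool, ¬ A z.1.1 s' b) ?_
    refine PS.imp idl_ari ?_ (PS.imp idl_ari ?_ ?_)
    · exact pre_ps ht (f := fun z : ((ℕ × List ℕ × List ℕ) × Str) × Str => z.1.1.2)
        (Computable.snd.comp (Computable.fst.comp Computable.fst)) Computable.snd
    · exact PS.primrec idl_ari (PrimrecRel.comp Primrec.nat_lt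
        (Primrec.list_length.comp Primrec.snd)
        (Primrec.list_length.comp (Primrec.snd.comp Primrec.fst)))
    · refine PS.all cl_ari (p := fun (z : ((ℕ × List ℕ × List ℕ) × Str) × Str) (b : Bool) =>
        ¬ A z.1.1.1 z.2 b) (PS.not idl_ari ?_)
      exact PS.comp idl_ari hA
        (f := fun z : (((ℕ × List ℕ × List ℕ) × Str) × Str) × Bool => (z.1.1.1.1, z.1.2, z.2))
        ((Computable.fst.comp (Computable.fst.comp (Computable.fst.comp Computable.fst))).pair
          ((Computable.snd.comp Computable.fst).pair Computable.snd))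

/-- `tu` gives the right answer if the literals agree with `X` on the use -/
lemma tu_iff {t : Task} {A : ℕ → Str → Bool → Prop} {X Y : Set ℕ} {i : ℕ}
    (h2 : ∀ s b, (∀ k < s.length, (s.getD k false = true ↔ k ∈ X)) → A i s b → (b = true ↔ i ∈ Y))
    {s0 : Str} {b0 : Bool} (hs0 : ∀ k < s0.length, (s0.getD k false = true ↔ k ∈ X))
    (hA : A i s0 b0) {Av C : List ℕ} (hag : ∀ k < s0.length, (t k Av C ↔ k ∈ X)) :
    tu t A i Av C ↔ i ∈ Y := by
  classical
  constructor
  · rintro ⟨s, g1, g2, g3⟩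
    have hlen : s.length ≤ s0.length := by
      by_contra h
      push Not at h
      exact g3 s0 (fun k hk => (hs0 k hk).trans (hag k hk).symm) h b0 hA
    exact (h2 s true (fun k hk => (g1 k hk).trans (hag k (hk.trans_le hlen))) g2).1 rfl
  · intro hi
    have hex : ∃ n, ∃ s : Str, s.length = n ∧
        (∀ k < s.length, (s.getD k false = true ↔ t k Av C)) ∧ ∃ b, A i s b :=
      ⟨s0.length, s0, rfl, fun k hk => (hs0 k hk).trans (hag k hk).symm, b0, hA⟩
    obtain ⟨s, g1, g2, b, g3⟩ := Nat.find_spec hex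
    have hlen : s.length ≤ s0.length := by
      rw [g1]
      exact Nat.find_min' hex ⟨s0, rfl, fun k hk => (hs0 k hk).trans (hag k hk).symm, b0, hA⟩
    have hb : b = true :=
      (h2 s b (fun k hk => (g2 k hk).trans (hag k (hk.trans_le hlen))) g3).2 hi
    subst hb
    refine ⟨s, g2, g3, fun s' g4 g5 b' g6 => ?_⟩
    rw [g1] at g5
    exact Nat.find_min hex g5 ⟨s', rfl, g4, b', g6⟩

/-- the join of two tasks with the same variables -/
def jo (t t' : Task) : Task := fun j Av C => if j % 2 = 0 then t (j / 2) Av C else t' (j / 2) Av C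

lemma jo_isT {t t' : Task} (ht : IsT t) (ht' : IsT t') : IsT (jo t t') := by
  unfold IsT jo
  have h1 : Computable (fun x : ℕ × List ℕ × List ℕ => (x.1 / 2, x.2)) :=
    ((Primrec.nat_div.comp Primrec.fst (Primrec.const 2)).pair Primrec.snd).to_comp
  have h0 : PS Ari (fun x : ℕ × List ℕ × List ℕ => x.1 % 2 = 0) :=
    PS.primrec idl_ari (PrimrecRel.comp Primrec.eq
      (Primrec.nat_mod.comp Primrec.fst (Primrec.const 2)) (Primrec.const 0))
  have h2 := PS.comp idl_ari ht (f := fun x : ℕ × List ℕ × List ℕ => (x.1 / 2, x.2)) h1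
  have h3 := PS.comp idl_ari ht' (f := fun x : ℕ × List ℕ × List ℕ => (x.1 / 2, x.2)) h1
  refine (PS.or idl_ari (PS.and idl_ari h0 h2) (PS.and idl_ari (PS.not idl_ari h0) h3)).congr
    (fun x => ?_)
  by_cases hx : x.1 % 2 = 0
  · simp [hx]
  · simp [hx]

end TUR

open TUR in
theorem blk_TUR (hCMB : Stmt_CMB) (hUSE : Stmt_USE) : Stmt_TUR := by
  classical
  intro I G W
  constructor
  · exact ⟨_, fun _ _ _ => False, PS.const idl_ari False, [], [], List.nodup_nil, rfl⟩
  · intro X hX Y hYX
    obtain ⟨t, ht, α, γ, hγ, rfl⟩ := hX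
    obtain ⟨A, hA, hu⟩ := hUSE _ Y hYX
    refine ⟨tu t A, tu_isT ht hA, α, γ, hγ, ?_⟩
    ext i
    obtain ⟨⟨s0, b0, h1, h2⟩, h3⟩ := hu i
    have hag : ∀ᶠ ω in (W : Filter (Om I G)), ∀ k < s0.length,
        (t k (α.map ω.1) (γ.map ω.2) ↔ k ∈ trc W t α γ) := by
      have h4 : ∀ k, ∀ᶠ ω in (W : Filter (Om I G)),
          (t k (α.map ω.1) (γ.map ω.2) ↔ k ∈ trc W t α γ) := by
        intro k
        by_cases hk : k ∈ trc W t α γ
        · have hk' : ∀ᶠ ω in (W : Filter (Om I G)), t k (α.map ω.1) (γ.map ω.2) := hk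
          exact hk'.mono (fun ω hω => ⟨fun _ => hk, fun _ => hω⟩)
        · have hk' : ∀ᶠ ω in (W : Filter (Om I G)), ¬ t k (α.map ω.1) (γ.map ω.2) :=
            Ultrafilter.eventually_not.2 hk
          exact hk'.mono (fun ω hω => ⟨fun h => absurd h hω, fun h => absurd h hk⟩)
      have h5 : ∀ n : ℕ, ∀ᶠ ω in (W : Filter (Om I G)), ∀ k < n,
          (t k (α.map ω.1) (γ.map ω.2) ↔ k ∈ trc W t α γ) := by
        intro n
        induction n with
        | zero => exact Filter.Eventually.of_forall (fun ω k hk => absurd hk (Nat.not_lt_zero k))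
        | succ n ih =>
          filter_upwards [ih, h4 n] with ω g1 g2 k hk
          rcases Nat.lt_succ_iff_lt_or_eq.1 hk with h | h
          · exact g1 k h
          · rw [h]; exact g2
      exact h5 _
    have hiff : ∀ᶠ ω in (W : Filter (Om I G)),
        (tu t A i (α.map ω.1) (γ.map ω.2) ↔ i ∈ Y) :=
      hag.mono (fun ω hω => tu_iff h3 h1 h2 hω)
    constructor
    · intro hi
      exact hiff.mono (fun ω hω => hω.2 hi)
    · intro hi
      obtain ⟨ω, g1, g2⟩ := (hiff.and (show ∀ᶠ ω in (W : Filter (Om I G)),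
        tu t A i (α.map ω.1) (γ.map ω.2) from hi)).exists
      exact g1.1 g2
  · intro X hX Y hY
    obtain ⟨t, t', ht, ht', α, γ, hγ, rfl, rfl⟩ := hCMB W X hX Y hY
    refine ⟨jo t t', jo_isT ht ht', α, γ, hγ, ?_⟩
    ext j
    rcases Nat.even_or_odd' j with ⟨m, rfl | rfl⟩
    · rw [two_mul_mem_J]
      have e1 : (2 * m) % 2 = 0 := by omega
      have e2 : (2 * m) / 2 = m := by omega
      show (∀ᶠ ω in (W : Filter (Om I G)), t m (α.map ω.1) (γ.map ω.2)) ↔
        ∀ᶠ ω in (W : Filter (Om I G)), jo t t' (2 * m) (α.map ω.1) (γ.map ω.2)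
      unfold jo
      simp only [e1, e2, if_true]
    · rw [two_mul_add_one_mem_J]
      have e1 : ¬ (2 * m + 1) % 2 = 0 := by omega
      have e2 : (2 * m + 1) / 2 = m := by omega
      show (∀ᶠ ω in (W : Filter (Om I G)), t' m (α.map ω.1) (γ.map ω.2)) ↔
        ∀ᶠ ω in (W : Filter (Om I G)), jo t t' (2 * m + 1) (α.map ω.1) (γ.map ω.2)
      unfold jo
      simp only [e1, e2, if_false]

end Pool.Agent.Work.MP_e5ffe1_gen
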