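import Pool.Agent.Work.MP_e5ffe1_gen.Interface

/-! Block ULT. -/

set_option autoImplicit false

namespace Pool.Agent.Work.MP_e5ffe1_gen

namespace ULT

/-- the piece of length `M` -/
def lab (M : ℕ) (g : ℕ → Bool) : Str := (List.range M).map g

theorem pre_lab {M : ℕ} {g : ℕ → Bool} {p : Str} (h : pre p g) (hM : p.length ≤ M) :
    p <+: lab M g := by
  rw [List.prefix_iff_eq_take]
  unfold lab
  rw [← List.map_take, List.take_range, Nat.min_eq_left hM]
  exact h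

theorem exists_bound {T : Type} [Finite T] (f : T → List Str) :
    ∃ M : ℕ, ∀ t, ∀ p ∈ f t, p.length ≤ M := by
  obtain ⟨M, hM⟩ := (Set.finite_range (fun t => ((f t).map List.length).sum)).bddAbove
  refine ⟨M, fun t p hp => ?_⟩
  have h1 : ((f t).map List.length).sum ≤ M := hM ⟨t, rfl⟩
  exact (List.le_sum_of_mem (List.mem_map.2 ⟨p, hp, rfl⟩)).trans h1

theorem fip {I : Type} (G : Set (ℕ → Bool)) (P : Set (Prom I)) (hP : Cons P) {T : Type} [Finite T]
    (π : T → Prom I) (γ : T → List G) (hπ : ∀ t, π t ∈ P) (hγ : ∀ t, (γ t).Nodup)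
    (hp : ∀ t, List.Forall₂ (fun p (g : G) => pre p g.1) (π t).p (γ t)) :
    ∃ ω : Om I G, ∀ t, (π t).φ ω.1 ((γ t).map ω.2) := by
  classical
  obtain ⟨M, hM⟩ := exists_bound (fun t => (π t).p)
  let H : Set G := ⋃ t, {g | g ∈ γ t}
  have hH : H.Finite := Set.finite_iUnion (fun t => List.finite_toSet (γ t))
  have : Finite H := hH
  obtain ⟨a, z, hz⟩ := hP.fin (ι := H) (P0 := Set.range π)
    (by rintro _ ⟨t, rfl⟩; exact hπ t) (Set.finite_range π) (fun g => lab M g.1.1)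
  refine ⟨(a, fun g => if h : g ∈ H then z ⟨g, h⟩ else 0), fun t => ?_⟩
  have hmem : ∀ g ∈ γ t, g ∈ H := fun g hg => Set.mem_iUnion.2 ⟨t, hg⟩
  obtain ⟨e, he⟩ : ∃ e : List H, e.map (fun x => x.1) = γ t := by
    refine ⟨(γ t).attach.map (fun x => ⟨x.1, hmem x.1 x.2⟩), ?_⟩
    rw [List.map_map]
    exact List.attach_map_subtype_val (γ t)
  have hnd : e.Nodup := List.Nodup.of_map (fun x : H => x.1) (by rw [he]; exact hγ t)
  have hf : List.Forall₂ (fun p (l : H) => p <+: lab M l.1.1) (π t).p e := by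
    have h1 := hp t
    rw [← he, List.forall₂_map_right_iff] at h1
    rw [List.forall₂_iff_get] at h1 ⊢
    refine ⟨h1.1, fun i h2 h3 => pre_lab (h1.2 i h2 h3) (hM t _ (List.get_mem _ _))⟩
  have h1 := hz (π t) ⟨t, rfl⟩ e hnd hf
  have h2 : e.map z = (γ t).map (fun g => if h : g ∈ H then z ⟨g, h⟩ else 0) := by
    calc e.map z = e.map (fun x => if h : x.1 ∈ H then z ⟨x.1, h⟩ else 0) :=
          List.map_congr_left (fun x _ => by rw [dif_pos x.2])
      _ = (γ t).map (fun g => if h : g ∈ H then z ⟨g, h⟩ else 0) := by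
          rw [← he, List.map_map]
          exact List.map_congr_left (fun _ _ => rfl)
  rw [h2] at h1
  exact h1

end ULT

theorem blk_ULT : Stmt_ULT := by
  classical
  intro I G P hP
  let F : Set (Set (Om I G)) := {s | ∃ (π : Prom I) (γ : List G), π ∈ P ∧ γ.Nodup ∧
    List.Forall₂ (fun p (g : G) => pre p g.1) π.p γ ∧ s = {ω | π.φ ω.1 (γ.map ω.2)}}
  have hne : (Filter.generate F).NeBot := by
    rw [Filter.generate_neBot_iff]
    intro t ht hfin
    have hft : Finite t := hfin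
    have h1 : ∀ s : t, ∃ x : Prom I × List G, x.1 ∈ P ∧ x.2.Nodup ∧
        List.Forall₂ (fun p (g : G) => pre p g.1) x.1.p x.2 ∧
          s.1 = {ω | x.1.φ ω.1 (x.2.map ω.2)} := by
      rintro ⟨s, hs⟩
      obtain ⟨π, γ, h⟩ := ht hs
      exact ⟨(π, γ), h⟩
    choose f hf1 hf2 hf3 hf4 using h1
    obtain ⟨ω, hω⟩ := ULT.fip G P hP (fun s : t => (f s).1) (fun s => (f s).2) hf1 hf2 hf3
    refine ⟨ω, ?_⟩
    intro s hs
    have h2 : s = {ω | (f ⟨s, hs⟩).1.φ ω.1 ((f ⟨s, hs⟩).2.map ω.2)} := hf4 ⟨s, hs⟩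
    have h3 : ω ∈ {ω | (f ⟨s, hs⟩).1.φ ω.1 ((f ⟨s, hs⟩).2.map ω.2)} := hω ⟨s, hs⟩
    rw [← h2] at h3
    exact h3
  refine ⟨Ultrafilter.of (Filter.generate F), ?_⟩
  intro π hπ γ hγ hp
  exact Ultrafilter.of_le (Filter.generate F)
    (Filter.mem_generate_of_mem ⟨π, γ, hπ, hγ, hp, rfl⟩)

end Pool.Agent.Work.MP_e5ffe1_gen
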