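import Pool.Agent.Work.MP_e5ffe1_gen.Interface

/-! # Block USE: use relations (helper74) -/

set_option autoImplicit false

namespace Pool.Agent.Work.MP_e5ffe1_gen

open Pool.Agent.Work.MP_e5ffe1_h93 (le J TR orc ch ch_of_mem ch_of_notMem le_iff)
open Encodable

namespace USE

/-- `s` is a piece of `X` -/
def Cm (X : Set ℕ) (s : Str) : Prop := ∀ k < s.length, (s.getD k false = true ↔ k ∈ X)

open Classical in
/-- the piece of length `n` -/
noncomputable def R (X : Set ℕ) (n : ℕ) : Str := (List.range n).map (fun k => decide (k ∈ X))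

theorem R_len (X : Set ℕ) (n : ℕ) : (R X n).length = n := by
  unfold R
  rw [List.length_map, List.length_range]

open Classical in
theorem R_get (X : Set ℕ) {n k : ℕ} (h : k < n) : (R X n).getD k false = decide (k ∈ X) := by
  have h1 : k < (R X n).length := by rw [R_len]; exact h
  rw [List.getD_eq_getElem _ _ h1]
  unfold R
  rw [List.getElem_map, List.getElem_range]

theorem cm_R (X : Set ℕ) (n : ℕ) : Cm X (R X n) := by
  classical
  intro k hk
  rw [R_len] at hk
  rw [R_get X hk]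
  exact decide_eq_true_iff

theorem R_mono (X : Set ℕ) {n m : ℕ} (h : n ≤ m) : R X n <+: R X m := by
  unfold R
  refine List.IsPrefix.map _ ?_
  obtain ⟨d, rfl⟩ := Nat.exists_eq_add_of_le h
  rw [List.range_add]
  exact List.prefix_append _ _

/-- `B` is a use relation for `f` with oracle `X` -/
structure Us (X : Set ℕ) (f : ℕ →. ℕ) (B : ℕ → Str → ℕ → Prop) : Prop where
  ps : PS Ari (fun x : ℕ × Str × ℕ => B x.1 x.2.1 x.2.2)
  mono : ∀ x s s' y, s <+: s' → B x s y → B x s' y
  sound : ∀ x s y, Cm X s → B x s y → y ∈ f x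
  comp : ∀ x y, y ∈ f x → ∃ n, B x (R X n) y

theorem Us.up {X : Set ℕ} {f : ℕ →. ℕ} {B : ℕ → Str → ℕ → Prop} (h : Us X f B) {x y n m : ℕ}
    (hnm : n ≤ m) (hB : B x (R X n) y) : B x (R X m) y := h.mono _ _ _ _ (R_mono X hnm) hB

abbrev i0 : ℕ × Str × ℕ → ℕ := fun x => x.1
abbrev i1 : ℕ × Str × ℕ → Str := fun x => x.2.1
abbrev i2 : ℕ × Str × ℕ → ℕ := fun x => x.2.2

theorem c0 : Computable i0 := Computable.fst
theorem c1 : Computable i1 := Computable.fst.comp Computable.snd
theorem c2 : Computable i2 := Computable.snd.comp Computable.snd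

/-- graphs of computable functions -/
theorem us_graph (X : Set ℕ) {g : ℕ → ℕ} (hg : Computable g) :
    Us X (fun n => Part.some (g n)) (fun x _ y => y = g x) where
  ps := PS.eq idl_ari c2 (hg.comp c0)
  mono := fun _ _ _ _ _ h => h
  sound := fun x s y _ h => by rw [Part.mem_some_iff]; exact h
  comp := fun x y h => ⟨0, by rwa [Part.mem_some_iff] at h⟩

theorem ps_B {B : ℕ → Str → ℕ → Prop} (hB : PS Ari (fun x : ℕ × Str × ℕ => B x.1 x.2.1 x.2.2))
    {α : Type} [Primcodable α] {f : α → ℕ} {g : α → Str} {h : α → ℕ} (hf : Computable f)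
    (hg : Computable g) (hh : Computable h) : PS Ari (fun x => B (f x) (g x) (h x)) :=
  PS.comp idl_ari hB (hf.pair (hg.pair hh))

theorem us_pair {X : Set ℕ} {f h : ℕ →. ℕ} {B C : ℕ → Str → ℕ → Prop} (hB : Us X f B)
    (hC : Us X h C) : Us X (fun n => (Nat.pair <$> f n <*> h n))
      (fun x s y => ∃ u v, B x s u ∧ C x s v ∧ y = Nat.pair u v) where
  ps := by
    refine PS.exN cl_ari (p := fun (x : ℕ × Str × ℕ) u => ∃ v, B x.1 x.2.1 u ∧ C x.1 x.2.1 v ∧
      x.2.2 = Nat.pair u v) ?_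
    refine PS.exN cl_ari (p := fun (x : (ℕ × Str × ℕ) × ℕ) v => B x.1.1 x.1.2.1 x.2 ∧
      C x.1.1 x.1.2.1 v ∧ x.1.2.2 = Nat.pair x.2 v) ?_
    refine PS.and idl_ari ?_ (PS.and idl_ari ?_ ?_)
    · exact ps_B hB.ps (c0.comp (Computable.fst.comp Computable.fst))
        (c1.comp (Computable.fst.comp Computable.fst)) (Computable.snd.comp Computable.fst)
    · exact ps_B hC.ps (c0.comp (Computable.fst.comp Computable.fst))
        (c1.comp (Computable.fst.comp Computable.fst)) Computable.snd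
    · exact PS.eq idl_ari (c2.comp (Computable.fst.comp Computable.fst))
        (Primrec₂.natPair.to_comp.comp (Computable.snd.comp Computable.fst) Computable.snd)
  mono := by
    rintro x s s' y hs ⟨u, v, h1, h2, h3⟩
    exact ⟨u, v, hB.mono _ _ _ _ hs h1, hC.mono _ _ _ _ hs h2, h3⟩
  sound := by
    rintro x s y hs ⟨u, v, h1, h2, rfl⟩
    have e1 := hB.sound _ _ _ hs h1
    have e2 := hC.sound _ _ _ hs h2
    simp only [Seq.seq, Part.map_eq_map, Part.mem_bind_iff, Part.mem_map_iff]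
    exact ⟨Nat.pair u, ⟨u, e1, rfl⟩, v, e2, rfl⟩
  comp := by
    intro x y hy
    simp only [Seq.seq, Part.map_eq_map, Part.mem_bind_iff, Part.mem_map_iff] at hy
    obtain ⟨_, ⟨u, hu, rfl⟩, v, hv, rfl⟩ := hy
    obtain ⟨n, hn⟩ := hB.comp _ _ hu
    obtain ⟨m, hm⟩ := hC.comp _ _ hv
    exact ⟨max n m, u, v, hB.up (le_max_left _ _) hn, hC.up (le_max_right _ _) hm, rfl⟩

theorem us_comp {X : Set ℕ} {f h : ℕ →. ℕ} {B C : ℕ → Str → ℕ → Prop} (hB : Us X f B)
    (hC : Us X h C) : Us X (fun n => h n >>= f)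
      (fun x s y => ∃ u, C x s u ∧ B u s y) where
  ps := by
    refine PS.exN cl_ari (p := fun (x : ℕ × Str × ℕ) u => C x.1 x.2.1 u ∧ B u x.2.1 x.2.2) ?_
    refine PS.and idl_ari ?_ ?_
    · exact ps_B hC.ps (c0.comp Computable.fst) (c1.comp Computable.fst) Computable.snd
    · exact ps_B hB.ps Computable.snd (c1.comp Computable.fst) (c2.comp Computable.fst)
  mono := by
    rintro x s s' y hs ⟨u, h1, h2⟩
    exact ⟨u, hC.mono _ _ _ _ hs h1, hB.mono _ _ _ _ hs h2⟩
  sound := by
    rintro x s y hs ⟨u, h1, h2⟩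
    exact Part.mem_bind_iff.2 ⟨u, hC.sound _ _ _ hs h1, hB.sound _ _ _ hs h2⟩
  comp := by
    intro x y hy
    obtain ⟨u, hu, hv⟩ := Part.mem_bind_iff.1 hy
    obtain ⟨n, hn⟩ := hB.comp _ _ hv
    obtain ⟨m, hm⟩ := hC.comp _ _ hu
    exact ⟨max n m, u, hC.up (le_max_right _ _) hm, hB.up (le_max_left _ _) hn⟩

/-- a common piece for boundedly many values -/
theorem common {Q : ℕ → ℕ → Prop} (hup : ∀ k n m, n ≤ m → Q k n → Q k m) (N : ℕ)
    (h : ∀ k < N, ∃ n, Q k n) : ∃ n, ∀ k < N, Q k n := by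
  induction N with
  | zero => exact ⟨0, fun k hk => absurd hk (Nat.not_lt_zero k)⟩
  | succ N ih =>
    obtain ⟨n, hn⟩ := ih fun k hk => h k (by omega)
    obtain ⟨m, hm⟩ := h N (by omega)
    refine ⟨max n m, fun k hk => ?_⟩
    rcases Nat.lt_succ_iff_lt_or_eq.1 hk with h1 | rfl
    · exact hup k n _ (le_max_left _ _) (hn k h1)
    · exact hup k m _ (le_max_right _ _) hm

/-- membership in a recursion -/
theorem mem_rec (f : ℕ →. ℕ) (h : ℕ →. ℕ) (a : ℕ) (n z : ℕ) :
    z ∈ (Nat.rec (f a) (fun y IH => IH.bind fun i => h (Nat.pair a (Nat.pair y i))) n : Part ℕ) ↔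
      ∃ l : List ℕ, l.getD 0 0 ∈ f a ∧
        (∀ k < n, l.getD (k + 1) 0 ∈ h (Nat.pair a (Nat.pair k (l.getD k 0)))) ∧ z = l.getD n 0 := by
  induction n generalizing z with
  | zero =>
    constructor
    · intro hz
      exact ⟨[z], hz, fun k hk => absurd hk (Nat.not_lt_zero k), rfl⟩
    · rintro ⟨l, h1, _, rfl⟩
      exact h1
  | succ n ih =>
    constructor
    · intro hz
      obtain ⟨i, hi, hzi⟩ := Part.mem_bind_iff.1 hz
      obtain ⟨l, h1, h2, h3⟩ := (ih i).1 hi
      -- the values up to `n`, then `z`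
      have hget : ∀ k, k ≤ n → (((List.range (n + 1)).map (fun k => l.getD k 0)) ++ [z]).getD k 0 =
          l.getD k 0 := by
        intro k hk
        have e1 : k < ((List.range (n + 1)).map (fun k => l.getD k 0)).length := by
          rw [List.length_map, List.length_range]
          omega
        rw [List.getD_append _ _ _ _ e1, List.getD_eq_getElem _ _ e1, List.getElem_map,
          List.getElem_range]
      have hlast : (((List.range (n + 1)).map (fun k => l.getD k 0)) ++ [z]).getD (n + 1) 0 = z := by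
        have e1 : ((List.range (n + 1)).map (fun k => l.getD k 0)).length ≤ n + 1 := by
          rw [List.length_map, List.length_range]
        rw [List.getD_append_right _ _ _ _ e1, List.length_map, List.length_range, Nat.sub_self]
        rfl
      refine ⟨((List.range (n + 1)).map (fun k => l.getD k 0)) ++ [z], ?_, ?_, hlast.symm⟩
      · rw [hget 0 (Nat.zero_le n)]
        exact h1
      · intro k hk
        rw [hget k (by omega)]
        rcases Nat.lt_succ_iff_lt_or_eq.1 hk with h4 | rfl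
        · rw [hget (k + 1) (by omega)]
          exact h2 k h4
        · rw [hlast, ← h3]
          exact hzi
    · rintro ⟨l, h1, h2, rfl⟩
      refine Part.mem_bind_iff.2 ⟨l.getD n 0, (ih _).2 ⟨l, h1, fun k hk => h2 k (by omega), rfl⟩, ?_⟩
      exact h2 n (by omega)

theorem us_prec {X : Set ℕ} {f h : ℕ →. ℕ} {B C : ℕ → Str → ℕ → Prop} (hB : Us X f B)
    (hC : Us X h C) : Us X (fun p => (Nat.rec (f (Nat.unpair p).1)
        (fun y IH => IH.bind fun i => h (Nat.pair (Nat.unpair p).1 (Nat.pair y i)))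
          (Nat.unpair p).2 : Part ℕ))
      (fun x s y => ∃ l : List ℕ, B (Nat.unpair x).1 s (l.getD 0 0) ∧
        (∀ k < (Nat.unpair x).2, C (Nat.pair (Nat.unpair x).1 (Nat.pair k (l.getD k 0))) s
          (l.getD (k + 1) 0)) ∧ y = l.getD (Nat.unpair x).2 0) where
  ps := by
    refine PS.ex cl_ari (p := fun (x : ℕ × Str × ℕ) (l : List ℕ) =>
      B (Nat.unpair x.1).1 x.2.1 (l.getD 0 0) ∧
        (∀ k < (Nat.unpair x.1).2, C (Nat.pair (Nat.unpair x.1).1 (Nat.pair k (l.getD k 0))) x.2.1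
          (l.getD (k + 1) 0)) ∧ x.2.2 = l.getD (Nat.unpair x.1).2 0) ?_
    have hget : Computable₂ (fun (l : List ℕ) (n : ℕ) => l.getD n 0) := (Primrec.list_getD 0).to_comp
    have hu1 : Computable (fun n : ℕ => (Nat.unpair n).1) :=
      (Primrec.fst.comp Primrec.unpair).to_comp
    have hu2 : Computable (fun n : ℕ => (Nat.unpair n).2) :=
      (Primrec.snd.comp Primrec.unpair).to_comp
    refine PS.and idl_ari ?_ (PS.and idl_ari ?_ ?_)
    · exact ps_B hB.ps (hu1.comp (c0.comp Computable.fst)) (c1.comp Computable.fst)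
        (hget.comp Computable.snd (Computable.const 0))
    · refine PS.ball idl_ari (p := fun (x : (ℕ × Str × ℕ) × List ℕ) k =>
        C (Nat.pair (Nat.unpair x.1.1).1 (Nat.pair k (x.2.getD k 0))) x.1.2.1
          (x.2.getD (k + 1) 0)) ?_ (hu2.comp (c0.comp Computable.fst))
      refine ps_B hC.ps ?_ (c1.comp (Computable.fst.comp Computable.fst)) ?_
      · exact Primrec₂.natPair.to_comp.comp (hu1.comp (c0.comp (Computable.fst.comp Computable.fst)))
          (Primrec₂.natPair.to_comp.comp Computable.snd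
            (hget.comp (Computable.snd.comp Computable.fst) Computable.snd))
      · exact hget.comp (Computable.snd.comp Computable.fst)
          (Computable.succ.comp Computable.snd)
    · exact PS.eq idl_ari (c2.comp Computable.fst)
        (hget.comp Computable.snd (hu2.comp (c0.comp Computable.fst)))
  mono := by
    rintro x s s' y hs ⟨l, h1, h2, h3⟩
    exact ⟨l, hB.mono _ _ _ _ hs h1, fun k hk => hC.mono _ _ _ _ hs (h2 k hk), h3⟩
  sound := by
    rintro x s y hs ⟨l, h1, h2, h3⟩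
    exact (mem_rec f h _ _ _).2 ⟨l, hB.sound _ _ _ hs h1, fun k hk => hC.sound _ _ _ hs (h2 k hk),
      h3⟩
  comp := by
    intro x y hy
    obtain ⟨l, h1, h2, h3⟩ := (mem_rec f h _ _ _).1 hy
    obtain ⟨n, hn⟩ := hB.comp _ _ h1
    obtain ⟨m, hm⟩ := common (Q := fun k n => C (Nat.pair (Nat.unpair x).1
      (Nat.pair k (l.getD k 0))) (R X n) (l.getD (k + 1) 0)) (fun k n m hnm hQ => hC.up hnm hQ)
      (Nat.unpair x).2 (fun k hk => hC.comp _ _ (h2 k hk))
    exact ⟨max n m, l, hB.up (le_max_left _ _) hn, fun k hk => hC.up (le_max_right _ _) (hm k hk),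
      h3⟩

theorem us_rfind {X : Set ℕ} {f : ℕ →. ℕ} {B : ℕ → Str → ℕ → Prop} (hB : Us X f B) :
    Us X (fun a => Nat.rfind fun n => (fun m => decide (m = 0)) <$> f (Nat.pair a n))
      (fun x s y => B (Nat.pair x y) s 0 ∧ ∀ k < y, ∃ m, m ≠ 0 ∧ B (Nat.pair x k) s m) where
  ps := by
    refine PS.and idl_ari ?_ ?_
    · exact ps_B hB.ps (Primrec₂.natPair.to_comp.comp c0 c2) c1 (Computable.const 0)
    · refine PS.ball idl_ari (p := fun (x : ℕ × Str × ℕ) k => ∃ m, m ≠ 0 ∧
        B (Nat.pair x.1 k) x.2.1 m) ?_ c2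
      refine PS.exN cl_ari (p := fun (x : (ℕ × Str × ℕ) × ℕ) m => m ≠ 0 ∧
        B (Nat.pair x.1.1 x.2) x.1.2.1 m) ?_
      refine PS.and idl_ari (PS.not idl_ari (PS.eq idl_ari Computable.snd (Computable.const 0))) ?_
      exact ps_B hB.ps (Primrec₂.natPair.to_comp.comp
        (c0.comp (Computable.fst.comp Computable.fst)) (Computable.snd.comp Computable.fst))
        (c1.comp (Computable.fst.comp Computable.fst)) Computable.snd
  mono := by
    rintro x s s' y hs ⟨h1, h2⟩
    refine ⟨hB.mono _ _ _ _ hs h1, fun k hk => ?_⟩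
    obtain ⟨m, hm, h3⟩ := h2 k hk
    exact ⟨m, hm, hB.mono _ _ _ _ hs h3⟩
  sound := by
    rintro x s y hs ⟨h1, h2⟩
    refine Nat.mem_rfind.2 ⟨?_, fun {k} hk => ?_⟩
    · rw [Part.map_eq_map, Part.mem_map_iff]
      exact ⟨0, hB.sound _ _ _ hs h1, by simp⟩
    · obtain ⟨m, hm, h3⟩ := h2 k hk
      rw [Part.map_eq_map, Part.mem_map_iff]
      exact ⟨m, hB.sound _ _ _ hs h3, by simp [hm]⟩
  comp := by
    intro x y hy
    obtain ⟨h1, h2⟩ := Nat.mem_rfind.1 hy
    rw [Part.map_eq_map, Part.mem_map_iff] at h1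
    obtain ⟨z, hz, hz0⟩ := h1
    have hz' : z = 0 := of_decide_eq_true hz0
    subst hz'
    obtain ⟨n, hn⟩ := hB.comp _ _ hz
    obtain ⟨m, hm⟩ := common (Q := fun k n => ∃ m, m ≠ 0 ∧ B (Nat.pair x k) (R X n) m)
      (fun k n m hnm ⟨u, hu, hQ⟩ => ⟨u, hu, hB.up hnm hQ⟩) y (fun k hk => by
        have h3 := h2 hk
        rw [Part.map_eq_map, Part.mem_map_iff] at h3
        obtain ⟨u, hu, hu0⟩ := h3
        obtain ⟨n, hn⟩ := hB.comp _ _ hu
        exact ⟨n, u, of_decide_eq_false hu0, hn⟩)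
    refine ⟨max n m, hB.up (le_max_left _ _) hn, fun k hk => ?_⟩
    obtain ⟨u, hu, hQ⟩ := hm k hk
    exact ⟨u, hu, hB.up (le_max_right _ _) hQ⟩

theorem us_oracle (X : Set ℕ) : Us X (fun n => Part.some (X.indicator (fun _ => (1 : ℕ)) n))
    (fun x s y => x < s.length ∧ ((s.getD x false = true ∧ y = 1) ∨
      (s.getD x false = false ∧ y = 0))) where
  ps := by
    have hget : Computable (fun x : ℕ × Str × ℕ => x.2.1.getD x.1 false) :=
      (Primrec.list_getD false).to_comp.comp c1 c0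
    refine PS.and idl_ari ?_ (PS.or idl_ari (PS.and idl_ari ?_ ?_) (PS.and idl_ari ?_ ?_))
    · exact PS.primrec idl_ari (PrimrecRel.comp Primrec.nat_lt Primrec.fst
        (Primrec.list_length.comp (Primrec.fst.comp Primrec.snd)))
    · exact PS.eq idl_ari hget (Computable.const true)
    · exact PS.eq idl_ari c2 (Computable.const 1)
    · exact PS.eq idl_ari hget (Computable.const false)
    · exact PS.eq idl_ari c2 (Computable.const 0)
  mono := by
    rintro x s s' y ⟨t, rfl⟩ ⟨h1, h2⟩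
    refine ⟨by rw [List.length_append]; omega, ?_⟩
    rw [List.getD_append _ _ _ _ h1]
    exact h2
  sound := by
    rintro x s y hs ⟨h1, h2⟩
    rw [Part.mem_some_iff]
    have h3 := hs x h1
    rcases h2 with ⟨h4, rfl⟩ | ⟨h4, rfl⟩
    · exact (ch_of_mem (h3.1 h4)).symm
    · refine (ch_of_notMem fun h5 => ?_).symm
      rw [h3.2 h5] at h4
      exact absurd h4 (by decide)
  comp := by
    classical
    intro x y hy
    rw [Part.mem_some_iff] at hy
    refine ⟨x + 1, by rw [R_len]; omega, ?_⟩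
    rw [R_get X (Nat.lt_succ_self x)]
    by_cases hx : x ∈ X
    · left
      exact ⟨decide_eq_true hx, hy.trans (ch_of_mem hx)⟩
    · right
      exact ⟨decide_eq_false hx, hy.trans (ch_of_notMem hx)⟩

/-- every partial function recursive in `X` has a use relation -/
theorem exists_us {X : Set ℕ} {f : ℕ →. ℕ} (h : Nat.RecursiveIn (orc X) f) : ∃ B, Us X f B := by
  induction h with
  | zero => exact ⟨_, us_graph X (g := fun _ => 0) (Computable.const 0)⟩
  | succ => exact ⟨_, us_graph X Computable.succ⟩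
  | left => exact ⟨_, us_graph X (Primrec.fst.comp Primrec.unpair).to_comp⟩
  | right => exact ⟨_, us_graph X (Primrec.snd.comp Primrec.unpair).to_comp⟩
  | oracle g hg =>
    have : g = fun n => Part.some (X.indicator (fun _ => (1 : ℕ)) n) := hg
    rw [this]
    exact ⟨_, us_oracle X⟩
  | pair _ _ ihf ihh =>
    obtain ⟨B, hB⟩ := ihf
    obtain ⟨C, hC⟩ := ihh
    exact ⟨_, us_pair hB hC⟩
  | comp _ _ ihf ihh =>
    obtain ⟨B, hB⟩ := ihf
    obtain ⟨C, hC⟩ := ihh
    exact ⟨_, us_comp hB hC⟩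
  | prec _ _ ihf ihh =>
    obtain ⟨B, hB⟩ := ihf
    obtain ⟨C, hC⟩ := ihh
    exact ⟨_, us_prec hB hC⟩
  | rfind _ ih =>
    obtain ⟨B, hB⟩ := ih
    exact ⟨_, us_rfind hB⟩

end USE

open USE in
theorem blk_USE : Stmt_USE := by
  intro X Y hYX
  obtain ⟨B, hB⟩ := exists_us (le_iff.1 hYX)
  refine ⟨fun i s b => (B i s 1 ∧ b = true) ∨ (B i s 0 ∧ b = false), ?_, fun i => ⟨?_, ?_⟩⟩
  · have k0 : Computable (fun x : ℕ × Str × Bool => x.1) := Computable.fst
    have k1 : Computable (fun x : ℕ × Str × Bool => x.2.1) := Computable.fst.comp Computable.snd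
    have k2 : Computable (fun x : ℕ × Str × Bool => x.2.2) := Computable.snd.comp Computable.snd
    exact PS.or idl_ari
      (PS.and idl_ari (ps_B hB.ps k0 k1 (Computable.const 1))
        (PS.eq idl_ari k2 (Computable.const true)))
      (PS.and idl_ari (ps_B hB.ps k0 k1 (Computable.const 0))
        (PS.eq idl_ari k2 (Computable.const false)))
  · obtain ⟨n, hn⟩ := hB.comp i (ch Y i) (Part.mem_some _)
    by_cases hi : i ∈ Y
    · rw [ch_of_mem hi] at hn
      exact ⟨R X n, true, cm_R X n, Or.inl ⟨hn, rfl⟩⟩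
    · rw [ch_of_notMem hi] at hn
      exact ⟨R X n, false, cm_R X n, Or.inr ⟨hn, rfl⟩⟩
  · rintro s b hs (⟨h1, rfl⟩ | ⟨h1, rfl⟩)
    · have h2 := Part.mem_some_iff.1 (hB.sound _ _ _ hs h1)
      refine ⟨fun _ => ?_, fun _ => rfl⟩
      by_contra hi
      rw [ch_of_notMem hi] at h2
      exact absurd h2 (by decide)
    · have h2 := Part.mem_some_iff.1 (hB.sound _ _ _ hs h1)
      refine ⟨fun h => absurd h (by decide), fun hi => ?_⟩
      rw [ch_of_mem hi] at h2
      exact absurd h2 (by decide)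

end Pool.Agent.Work.MP_e5ffe1_gen
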