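import Pool.Agent.Work.MP_e5ffe1_gen.Final
import Pool.Agent.Work.MP_e5ffe1_gen.ARI
import Pool.Agent.Work.MP_e5ffe1_gen.BAI
import Pool.Agent.Work.MP_e5ffe1_gen.CBS
import Pool.Agent.Work.MP_e5ffe1_gen.CCS
import Pool.Agent.Work.MP_e5ffe1_gen.CMB
import Pool.Agent.Work.MP_e5ffe1_gen.CMF
import Pool.Agent.Work.MP_e5ffe1_gen.COMP
import Pool.Agent.Work.MP_e5ffe1_gen.DECV
import Pool.Agent.Work.MP_e5ffe1_gen.DF1
import Pool.Agent.Work.MP_e5ffe1_gen.DF2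
import Pool.Agent.Work.MP_e5ffe1_gen.EBC
import Pool.Agent.Work.MP_e5ffe1_gen.EXT
import Pool.Agent.Work.MP_e5ffe1_gen.GEN
import Pool.Agent.Work.MP_e5ffe1_gen.GRD
import Pool.Agent.Work.MP_e5ffe1_gen.INC1
import Pool.Agent.Work.MP_e5ffe1_gen.INC2
import Pool.Agent.Work.MP_e5ffe1_gen.KEY
import Pool.Agent.Work.MP_e5ffe1_gen.MOD
import Pool.Agent.Work.MP_e5ffe1_gen.NUM
import Pool.Agent.Work.MP_e5ffe1_gen.OMG
import Pool.Agent.Work.MP_e5ffe1_gen.REB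
import Pool.Agent.Work.MP_e5ffe1_gen.SATF
import Pool.Agent.Work.MP_e5ffe1_gen.SKC
import Pool.Agent.Work.MP_e5ffe1_gen.START
import Pool.Agent.Work.MP_e5ffe1_gen.STEP
import Pool.Agent.Work.MP_e5ffe1_gen.TRC
import Pool.Agent.Work.MP_e5ffe1_gen.TRF
import Pool.Agent.Work.MP_e5ffe1_gen.TSK
import Pool.Agent.Work.MP_e5ffe1_gen.TUR
import Pool.Agent.Work.MP_e5ffe1_gen.ULT
import Pool.Agent.Work.MP_e5ffe1_gen.USE

/-! Theorem K from the blocks. -/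

set_option autoImplicit false

namespace Pool.Agent.Work.MP_e5ffe1_gen

open Pool.Agent.Work.MP_e5ffe1_h93 (le J LL)
open Cardinal

theorem theoremK (S : Set (Set ℕ)) (hne : S.Nonempty) (htr : ∀ X ∈ S, ∀ Y, le Y X → Y ∈ S)
    (hjoin : ∀ X ∈ S, ∀ Y ∈ S, J X Y ∈ S) (hproj : ∀ X ∈ S, {m | ∃ n, Nat.pair m n ∈ X} ∈ S)
    (hcard : #S ≤ ℵ₁) (G : Set (ℕ → Bool)) (hG : MutGen S G) :
    ∃ (R : Type) (_ : CommRing R) (_ : LinearOrder R) (_ : IsStrictOrderedRing R)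
      (_ : FirstOrder.Ring.CompatibleRing R)
      (_ : FirstOrder.Language.order.Structure R)
      (_ : FirstOrder.Language.OrderedStructure FirstOrder.Language.order R),
      (∀ x : R, 0 < x → 1 ≤ x) ∧
      (∀ D : Set (Fin 1 → R), (Set.univ : Set R).Definable LL D →
        (fun _ : Fin 1 => (0 : R)) ∈ D →
        (∀ x : R, 0 ≤ x → (fun _ : Fin 1 => x) ∈ D → (fun _ : Fin 1 => x + 1) ∈ D) →
        ∀ x : R, 0 ≤ x → (fun _ : Fin 1 => x) ∈ D) ∧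
      (∃ c : R, ∀ n : ℕ, (n : R) < c) ∧
      ∀ X : Set ℕ, (∀ T : Set (Set ℕ), S ⊆ T → (∀ g ∈ G, {n | g n = true} ∈ T) →
        (∀ Z ∈ T, ∀ Y, le Y Z → Y ∈ T) → (∀ Z ∈ T, ∀ Y ∈ T, J Z Y ∈ T) → X ∈ T) ↔
        ∃ D : Set (Fin 1 → R), (Set.univ : Set R).Definable LL D ∧
          ∀ n : ℕ, n ∈ X ↔ (fun _ : Fin 1 => (n : R)) ∈ D := by
  have hS : Cl S := ⟨⟨hne, htr, hjoin⟩, hproj⟩
  have hNUM := blk_NUM
  have hREB : Stmt_REB := blk_REB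
  have hTSK := blk_TSK hNUM
  have hGRD : Stmt_GRD := blk_GRD (blk_EXT (blk_COMP blk_KEY) blk_DECV)
  have hOMG : Stmt_OMG := blk_OMG hGRD
  have hSTEP : Stmt_STEP := blk_STEP blk_ARI hTSK blk_EBC hREB blk_INC1 blk_INC2 blk_CBS hOMG
  have hSTART : Stmt_START := blk_START blk_ARI hTSK blk_EBC blk_BAI blk_CCS hOMG
  have hTRF : Stmt_TRF := blk_TRF hSTART hSTEP
  have hCMF : Stmt_CMF := blk_CMF hREB
  have hSATF : Stmt_SATF := blk_SATF hNUM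
  obtain ⟨R, i1, i2, i3, i4, i5, i6, h1, h2, h3, h4⟩ := main hNUM hTRF blk_ULT blk_MOD
    (blk_SKC hNUM hCMF hSATF) (blk_DF1 hNUM hCMF hSATF) (blk_DF2 hNUM) blk_TRC (blk_GEN hNUM)
    (blk_TUR (blk_CMB hREB hTSK) blk_USE) S hS hcard G hG
  refine ⟨R, i1, i2, i3, i4, i5, i6, h1, h2, h3, fun X => ?_⟩
  rw [← h4 X]
  constructor
  · intro h T hT hST hGT
    exact h T hST hGT hT.tr hT.join
  · intro h T hST hGT ht hj
    refine h T ⟨?_, ht, hj⟩ hST hGT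
    obtain ⟨Y, hY⟩ := hne
    exact ⟨Y, hST hY⟩

end Pool.Agent.Work.MP_e5ffe1_gen
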