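import Pool.Agent.Work.MP_e5ffe1_gen.Interface

/-! Block REB: rebuilding lists. -/

set_option autoImplicit false

namespace Pool.Agent.Work.MP_e5ffe1_gen

theorem blk_REB : Stmt_REB := by
  intro I α γ h
  induction α with
  | nil => exact ⟨[], by simp, fun a => rfl⟩
  | cons y α ih =>
    obtain ⟨idx, h1, h2⟩ := ih (fun z hz => h z (List.mem_cons_of_mem _ hz))
    obtain ⟨n, hn, hy⟩ := List.mem_iff_getElem.1 (h y List.mem_cons_self)
    refine ⟨n :: idx, ?_, fun a => ?_⟩
    · intro i hi
      rcases List.mem_cons.1 hi with rfl | hi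
      · exact hn
      · exact h1 i hi
    · rw [List.map_cons, List.map_cons, ← h2 a]
      congr 1
      rw [List.getD_eq_getElem _ _ (by rw [List.length_map]; exact hn), List.getElem_map, hy]

end Pool.Agent.Work.MP_e5ffe1_gen
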